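import Pool.Agent.LibZL19.Core

/-! Monodromy acts on the generic Lie algebra and permutes the maximal ideals. -/

open Matrix

set_option linter.unusedSectionVars false

namespace ZL19

variable {n : Type} [Fintype n] [DecidableEq n] {wt : n → ℤ} {X : Type}
  {P Q : X → Matrix n n ℂ} {g g' : Matrix n n ℚ}

/-- conjugation `A ↦ g A g'` -/
def cjg (g g' : Matrix n n ℚ) : Matrix n n ℚ →ₗ[ℚ] Matrix n n ℚ where
  toFun := fun A => g * A * g'
  map_add' := by
    intro A B
    rw [mul_add, add_mul]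
  map_smul' := by
    intro c A
    rw [mul_smul_comm, smul_mul_assoc]
    rfl

theorem cjg_apply (A : Matrix n n ℚ) : cjg g g' A = g * A * g' := rfl

theorem cjg_br (h : g' * g = 1) (A B : Matrix n n ℚ) :
    cjg g g' (A * B - B * A) = cjg g g' A * cjg g g' B - cjg g g' B * cjg g g' A := by
  have e : ∀ A B : Matrix n n ℚ, g * A * g' * (g * B * g') = g * (A * B) * g' := by
    intro A B
    calc g * A * g' * (g * B * g') = g * A * (g' * g) * B * g' := by simp only [mul_assoc]
      _ = g * (A * B) * g' := by rw [h, mul_one]; simp only [mul_assoc]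
  simp only [cjg_apply, e, mul_sub, sub_mul]

theorem cjg_cjg (h : g * g' = 1) (A : Matrix n n ℚ) : cjg g g' (cjg g' g A) = A := by
  simp only [cjg_apply]
  calc g * (g' * A * g) * g' = (g * g') * A * (g * g') := by simp only [mul_assoc]
    _ = A := by rw [h, one_mul, mul_one]

theorem map_map_cjg (h : g * g' = 1) (L : Submodule ℚ (Matrix n n ℚ)) :
    (L.map (cjg g' g)).map (cjg g g') = L := by
  ext A
  constructor
  · rintro ⟨_, ⟨B, hB, rfl⟩, rfl⟩
    rwa [cjg_cjg h]
  · intro hA
    exact ⟨_, ⟨A, hA, rfl⟩, cjg_cjg h A⟩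

theorem mem_cx_map_cjg {L : Submodule ℚ (Matrix n n ℚ)} {x : Matrix n n ℂ} (hx : x ∈ cx L) :
    toC g * x * toC g' ∈ cx (L.map (cjg g g')) := by
  refine mem_cx_iff.2 fun φ => ?_
  rw [fm_mul_toC, fm_toC_mul]
  exact ⟨_, mem_cx_iff.1 hx φ, rfl⟩

theorem LieC_map (h : g' * g = 1) {L : Submodule ℚ (Matrix n n ℚ)} (hL : LieC L) :
    LieC (L.map (cjg g g')) := by
  rintro _ ⟨A, hA, rfl⟩ _ ⟨B, hB, rfl⟩
  exact ⟨_, hL A hA B hB, cjg_br h A B⟩

/-- the hull of a conjugated set -/
theorem hull_cjg (h : g * g' = 1) (h' : g' * g = 1) (S : Set (Matrix n n ℂ)) :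
    hull ((fun x => toC g * x * toC g') '' S) = (hull S).map (cjg g g') := by
  have key : ∀ {g g' : Matrix n n ℚ} (_ : g' * g = 1) (S : Set (Matrix n n ℂ)),
      hull ((fun x => toC g * x * toC g') '' S) ≤ (hull S).map (cjg g g') := by
    intro g g' h' S
    refine hull_le (LieC_map h' (hull_lie S)) ?_
    rintro _ ⟨x, hx, rfl⟩
    exact mem_cx_map_cjg (mem_cx_hull hx)
  refine le_antisymm (key h' S) ?_
  have h1 := key (g := g') (g' := g) h ((fun x => toC g * x * toC g') '' S)
  have h2 : (fun x => toC g' * x * toC g) '' ((fun x => toC g * x * toC g') '' S) = S := by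
    rw [Set.image_image]
    have : (fun x : Matrix n n ℂ => toC g' * (toC g * x * toC g') * toC g) = id := by
      funext x
      have e : toC g' * toC g = (1 : Matrix n n ℂ) := by
        rw [← toC_mul, h']
        ext i j
        simp [toC, Matrix.one_apply, apply_ite]
      calc toC g' * (toC g * x * toC g') * toC g = (toC g' * toC g) * x * (toC g' * toC g) := by
            simp only [mul_assoc]
        _ = x := by rw [e, one_mul, mul_one]
    rw [this, Set.image_id]
  rw [h2] at h1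
  have h3 := Submodule.map_mono (f := cjg g g') h1
  rwa [map_map_cjg h] at h3

theorem mt_cjg (h : g * g' = 1) (h' : g' * g = 1) {z z' : X}
    (hP : P z' = toC g * P z * toC g') (hQ : Q z' = toC g * Q z * toC g') :
    mt P Q z' = (mt P Q z).map (cjg g g') := by
  rw [mt, mt, ← hull_cjg h h', Set.image_pair, hP, hQ]

theorem gen_cjg (h : g * g' = 1) (h' : g' * g = 1) (e : X ≃ X)
    (hP : ∀ z, P (e z) = toC g * P z * toC g') (hQ : ∀ z, Q (e z) = toC g * Q z * toC g') :
    (gen P Q).map (cjg g g') = gen P Q := by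
  rw [gen, ← hull_cjg h h']
  congr 1
  rw [Set.image_union, ← Set.range_comp, ← Set.range_comp]
  congr 1
  · rw [← e.surjective.range_comp P]
    congr 1
    funext z
    exact (hP z).symm
  · rw [← e.surjective.range_comp Q]
    congr 1
    funext z
    exact (hQ z).symm

theorem WW_cjg (h : g * g' = 1) (hg : g ∈ WW wt 0) (hg' : g' ∈ WW wt 0) (l : ℤ) :
    (WW wt l).map (cjg g g') = WW wt l := by
  have key : ∀ {g g' : Matrix n n ℚ}, g ∈ WW wt 0 → g' ∈ WW wt 0 →
      (WW wt l).map (cjg g g') ≤ WW wt l := by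
    intro g g' hg hg'
    rintro _ ⟨A, hA, rfl⟩
    have := WW_mul (WW_mul hg hA) hg'
    rwa [zero_add, add_zero] at this
  refine le_antisymm (key hg hg') ?_
  have h1 := Submodule.map_mono (f := cjg g g') (key (g := g') (g' := g) hg' hg)
  rwa [map_map_cjg h] at h1

theorem inf_cjg (h : g' * g = 1) (L M : Submodule ℚ (Matrix n n ℚ)) :
    (L ⊓ M).map (cjg g g') = L.map (cjg g g') ⊓ M.map (cjg g g') := by
  apply Submodule.map_inf
  intro A B hAB
  have h1 := congrArg (cjg g' g) hAB
  rwa [cjg_cjg h, cjg_cjg h] at h1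

theorem uu_cjg (h : g * g' = 1) (h' : g' * g = 1) (hg : g ∈ WW wt 0) (hg' : g' ∈ WW wt 0)
    (L : Submodule ℚ (Matrix n n ℚ)) : uu wt (L.map (cjg g g')) = (uu wt L).map (cjg g g') := by
  rw [uu, uu, inf_cjg h', WW_cjg h hg hg']

/-- conjugation carries maximal ideals to maximal ideals -/
theorem MaxI.conj {L u N : Submodule ℚ (Matrix n n ℚ)} (hN : MaxI L u N) (h : g * g' = 1)
    (h' : g' * g = 1) : MaxI (L.map (cjg g g')) (u.map (cjg g g')) (N.map (cjg g g')) := by
  have hstb : ∀ {g g' : Matrix n n ℚ}, g' * g = 1 → ∀ {L N : Submodule ℚ (Matrix n n ℚ)},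
      Stb L N → Stb (L.map (ZL19.cjg g g')) (N.map (ZL19.cjg g g')) := by
    intro g g' h' L N hs
    rintro _ ⟨A, hA, rfl⟩ _ ⟨B, hB, rfl⟩
    exact ⟨_, hs A hA B hB, cjg_br h' A B⟩
  refine ⟨?_, Submodule.map_mono hN.le, ?_, hstb h' hN.stb, ?_⟩
  · rintro _ ⟨A, hA, rfl⟩ _ ⟨B, hB, rfl⟩
    exact ⟨_, hN.br A hA B hB, cjg_br h' A B⟩
  · intro he
    apply hN.ne
    have := congrArg (Submodule.map (ZL19.cjg g' g)) he
    rwa [map_map_cjg h', map_map_cjg h'] at this
  · intro N' h1 h2 h3
    have h4 : N ≤ N'.map (ZL19.cjg g' g) := by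
      have := Submodule.map_mono (f := ZL19.cjg g' g) h1
      rwa [map_map_cjg h'] at this
    have h5 : N'.map (ZL19.cjg g' g) ≤ u := by
      have := Submodule.map_mono (f := ZL19.cjg g' g) h2
      rwa [map_map_cjg h'] at this
    have h6 : Stb L (N'.map (ZL19.cjg g' g)) := by
      have := hstb (g := g') (g' := g) h h3
      rwa [map_map_cjg h'] at this
    rcases hN.max _ h4 h5 h6 with h7 | h7
    · left
      rw [← h7, map_map_cjg h]
    · right
      rw [← h7, map_map_cjg h]

/-- monodromy permutes the maximal ideals of `𝔪` -/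
theorem MaxI.mono {N : Submodule ℚ (Matrix n n ℚ)} (hN : MaxI (gen P Q) (uu wt (gen P Q)) N)
    (h : g * g' = 1) (h' : g' * g = 1) (hg : g ∈ WW wt 0) (hg' : g' ∈ WW wt 0) (e : X ≃ X)
    (hP : ∀ z, P (e z) = toC g * P z * toC g') (hQ : ∀ z, Q (e z) = toC g * Q z * toC g') :
    MaxI (gen P Q) (uu wt (gen P Q)) (N.map (cjg g g')) := by
  have h1 := hN.conj h h'
  rwa [← uu_cjg h h' hg hg', gen_cjg h h' e hP hQ] at h1

end ZL19
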