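import Pool.Agent.LibZL19.Core

/-! If there are only finitely many maximal ideals, `u → ∏ u / N` is surjective. -/

open Matrix

set_option linter.unusedSectionVars false

namespace ZL19

variable {n : Type} [Fintype n] [DecidableEq n] {m u N N₁ R : Submodule ℚ (Matrix n n ℚ)}

theorem br_add (A x y : Matrix n n ℚ) :
    A * (x + y) - (x + y) * A = (A * x - x * A) + (A * y - y * A) := by
  rw [mul_add, add_mul]
  abel

theorem br_sub (A x y : Matrix n n ℚ) :
    A * (x - y) - (x - y) * A = (A * x - x * A) - (A * y - y * A) := by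
  rw [mul_sub, sub_mul]
  abel

theorem br_smul (c : ℚ) (A x : Matrix n n ℚ) :
    A * (c • x) - (c • x) * A = c • (A * x - x * A) := by
  rw [mul_smul_comm, smul_mul_assoc, smul_sub]

theorem Stb.sup (h : Stb m N) (h' : Stb m R) : Stb m (N ⊔ R) := by
  intro A hA a ha
  obtain ⟨x, hx, y, hy, rfl⟩ := Submodule.mem_sup.1 ha
  rw [br_add]
  exact Submodule.add_mem_sup (h A hA x hx) (h' A hA y hy)

theorem Stb.inf (h : Stb m N) (h' : Stb m R) : Stb m (N ⊓ R) :=
  fun A hA a ha => ⟨h A hA a ha.1, h' A hA a ha.2⟩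

/-- a stable subspace which is not contained in `N` generates `u` with `N` -/
theorem MaxI.sup_eq (hN : MaxI m u N) (hR : Stb m R) (hRu : R ≤ u) (h : ¬ R ≤ N) : N ⊔ R = u := by
  rcases hN.max (N ⊔ R) le_sup_left (sup_le hN.le hRu) (hN.stb.sup hR) with h1 | h1
  · exact absurd (le_sup_right.trans h1.le) h
  · exact h1

/-- the graph of `q` times the identification of `u / N₁` and `u / N` given by `R` -/
def graphS (u N₁ N R : Submodule ℚ (Matrix n n ℚ)) (q : ℚ) : Submodule ℚ (Matrix n n ℚ) where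
  carrier := {x | x ∈ u ∧ ∃ r ∈ R, x - r ∈ N₁ ∧ x - q • r ∈ N}
  add_mem' := by
    rintro x y ⟨hx, r, hr, h1, h2⟩ ⟨hy, s, hs, h3, h4⟩
    refine ⟨u.add_mem hx hy, r + s, R.add_mem hr hs, ?_, ?_⟩
    · have := N₁.add_mem h1 h3
      rwa [show x - r + (y - s) = x + y - (r + s) by abel] at this
    · have := N.add_mem h2 h4
      rwa [show x - q • r + (y - q • s) = x + y - q • (r + s) by rw [smul_add]; abel] at this
  zero_mem' := ⟨u.zero_mem, 0, R.zero_mem, by simp, by simp⟩
  smul_mem' := by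
    rintro c x ⟨hx, r, hr, h1, h2⟩
    refine ⟨u.smul_mem c hx, c • r, R.smul_mem c hr, ?_, ?_⟩
    · have := N₁.smul_mem c h1
      rwa [smul_sub] at this
    · have := N.smul_mem c h2
      rwa [smul_sub, smul_comm c q r] at this

/-- auxiliary space in the proof of maximality -/
def auxS (u N₁ N R N' : Submodule ℚ (Matrix n n ℚ)) (q : ℚ) : Submodule ℚ (Matrix n n ℚ) where
  carrier := {y | y ∈ u ∧ ∃ x ∈ N', ∃ r ∈ R, x - r ∈ N₁ ∧ x - q • r - y ∈ N}
  add_mem' := by
    rintro x y ⟨hx, a, ha, r, hr, h1, h2⟩ ⟨hy, b, hb, s, hs, h3, h4⟩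
    refine ⟨u.add_mem hx hy, a + b, N'.add_mem ha hb, r + s, R.add_mem hr hs, ?_, ?_⟩
    · have := N₁.add_mem h1 h3
      rwa [show a - r + (b - s) = a + b - (r + s) by abel] at this
    · have := N.add_mem h2 h4
      rwa [show a - q • r - x + (b - q • s - y) = a + b - q • (r + s) - (x + y) by
        rw [smul_add]; abel] at this
  zero_mem' := ⟨u.zero_mem, 0, N'.zero_mem, 0, R.zero_mem, by simp, by simp⟩
  smul_mem' := by
    rintro c x ⟨hx, a, ha, r, hr, h1, h2⟩
    refine ⟨u.smul_mem c hx, c • a, N'.smul_mem c ha, c • r, R.smul_mem c hr, ?_, ?_⟩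
    · have := N₁.smul_mem c h1
      rwa [smul_sub] at this
    · have := N.smul_mem c h2
      rwa [smul_sub, smul_sub, smul_comm c q r] at this

/-- if `R` induces the same subspace of `N₁` and `N`, the graphs are maximal ideals -/
theorem graph_max (hu : Stb m u) (hN : MaxI m u N) (hN₁ : MaxI m u N₁) (hne : N₁ ≠ N)
    (hR : Stb m R) (hRu : R ≤ u) (hRN : ¬ R ≤ N) (hRN₁ : ¬ R ≤ N₁)
    (h0 : ∀ x ∈ R, x ∈ N₁ → x ∈ N) :
    (∀ q, MaxI m u (graphS u N₁ N R q)) ∧ Function.Injective (graphS u N₁ N R) := by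
  have hs1 : N₁ ⊔ R = u := hN₁.sup_eq hR hRu hRN₁
  have hs2 : N₁ ⊔ N = u := hN₁.sup_eq hN.stb hN.le fun h => by
    rcases hN.max N₁ h hN₁.le hN₁.stb with h1 | h1
    · exact hne h1
    · exact hN₁.ne h1
  obtain ⟨r₀, hr₀, hr₀N⟩ : ∃ r ∈ R, r ∉ N := by
    by_contra hcon
    push Not at hcon
    exact hRN hcon
  have hex : ∀ x ∈ u, ∃ r ∈ R, x - r ∈ N₁ := by
    intro x hx
    rw [← hs1] at hx
    obtain ⟨a, ha, r, hr, rfl⟩ := Submodule.mem_sup.1 hx
    exact ⟨r, hr, by rwa [add_sub_cancel_right]⟩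
  have hex2 : ∀ r ∈ R, ∀ s ∈ R, ∃ x ∈ u, x - r ∈ N₁ ∧ x - s ∈ N := by
    intro r hr s hs
    have h1 : r - s ∈ N₁ ⊔ N := by
      rw [hs2]
      exact u.sub_mem (hRu hr) (hRu hs)
    obtain ⟨a, ha, b, hb, hab⟩ := Submodule.mem_sup.1 h1
    refine ⟨r - a, u.sub_mem (hRu hr) (hN₁.le ha), ?_, ?_⟩
    · rw [show r - a - r = -a by abel]
      exact N₁.neg_mem ha
    · rw [show r - a - s = (r - s) - a by abel, ← hab, add_sub_cancel_left]
      exact hb
  have huniq : ∀ x : Matrix n n ℚ, ∀ r ∈ R, ∀ s ∈ R, x - r ∈ N₁ → x - s ∈ N₁ → r - s ∈ N := by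
    intro x r hr s hs h1 h2
    refine h0 _ (R.sub_mem hr hs) ?_
    have := N₁.sub_mem h2 h1
    rwa [show x - s - (x - r) = r - s by abel] at this
  -- an element of the graph of `q'` which is not in the graph of `q`
  have hdist : ∀ q q' : ℚ, q ≠ q' → ∃ x ∈ graphS u N₁ N R q', x ∉ graphS u N₁ N R q := by
    intro q q' hq
    obtain ⟨x, hx, h1, h2⟩ := hex2 r₀ hr₀ (q' • r₀) (R.smul_mem _ hr₀)
    refine ⟨x, ⟨hx, r₀, hr₀, h1, h2⟩, ?_⟩
    rintro ⟨_, r, hr, h3, h4⟩
    apply hr₀N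
    have h5 := huniq x r₀ hr₀ r hr h1 h3
    have h6 := N.sub_mem h4 h2
    have h7 : (q' - q) • r₀ ∈ N := by
      have := N.sub_mem h6 (N.smul_mem q h5)
      rwa [show x - q • r - (x - q' • r₀) - q • (r₀ - r) = (q' - q) • r₀ by
        rw [sub_smul, smul_sub]; abel] at this
    have hq' : q' - q ≠ 0 := sub_ne_zero.2 (Ne.symm hq)
    have := N.smul_mem (q' - q)⁻¹ h7
    rwa [smul_smul, inv_mul_cancel₀ hq', one_smul] at this
  refine ⟨fun q => ⟨?_, fun x hx => hx.1, ?_, ?_, ?_⟩, ?_⟩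
  · intro a ha b hb
    refine ⟨hN.le (hN.br a ha b hb), 0, R.zero_mem, ?_, ?_⟩
    · rw [sub_zero]
      exact hN₁.br a ha b hb
    · rw [smul_zero, sub_zero]
      exact hN.br a ha b hb
  · intro h
    obtain ⟨x, hx, hx'⟩ := hdist q (q + 1) (by simp)
    apply hx'
    rw [h]
    exact hx.1
  · rintro A hA x ⟨hx, r, hr, h1, h2⟩
    refine ⟨hu A hA x hx, A * r - r * A, hR A hA r hr, ?_, ?_⟩
    · rw [← br_sub]
      exact hN₁.stb A hA _ h1
    · rw [← br_smul, ← br_sub]
      exact hN.stb A hA _ h2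
  · intro N' h1 h2 h3
    by_contra hcon
    push Not at hcon
    obtain ⟨hc1, hc2⟩ := hcon
    obtain ⟨x₀, hx₀, hx₀'⟩ : ∃ x ∈ N', x ∉ graphS u N₁ N R q := by
      by_contra hcon
      push Not at hcon
      exact hc1 (le_antisymm hcon h1)
    have h4 : N ≤ auxS u N₁ N R N' q := fun y hy =>
      ⟨hN.le hy, 0, N'.zero_mem, 0, R.zero_mem, by simp, by simpa using hy⟩
    have h5 : Stb m (auxS u N₁ N R N' q) := by
      rintro A hA y ⟨hy, x, hx, r, hr, h6, h7⟩
      refine ⟨hu A hA y hy, A * x - x * A, h3 A hA x hx, A * r - r * A, hR A hA r hr, ?_, ?_⟩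
      · rw [← br_sub]
        exact hN₁.stb A hA _ h6
      · rw [← br_smul, ← br_sub, ← br_sub]
        exact hN.stb A hA _ h7
    rcases hN.max _ h4 (fun y hy => hy.1) h5 with h6 | h6
    · obtain ⟨r, hr, hr'⟩ := hex x₀ (h2 hx₀)
      apply hx₀'
      refine ⟨h2 hx₀, r, hr, hr', ?_⟩
      rw [← h6]
      exact ⟨u.sub_mem (h2 hx₀) (u.smul_mem _ (hRu hr)), x₀, hx₀, r, hr, hr', by simp⟩
    · apply hc2
      refine le_antisymm h2 fun z hz => ?_
      obtain ⟨r, hr, hr'⟩ := hex z hz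
      have h7 : z - q • r ∈ auxS u N₁ N R N' q := by
        rw [h6]
        exact u.sub_mem hz (u.smul_mem _ (hRu hr))
      obtain ⟨_, x, hx, s, hs, h8, h9⟩ := h7
      have h10 : z - x ∈ graphS u N₁ N R q := by
        refine ⟨u.sub_mem hz (h2 hx), r - s, R.sub_mem hr hs, ?_, ?_⟩
        · have := N₁.sub_mem hr' h8
          rwa [show z - r - (x - s) = z - x - (r - s) by abel] at this
        · have := N.neg_mem h9
          rwa [show -(x - q • s - (z - q • r)) = z - x - q • (r - s) by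
            rw [smul_sub]; abel] at this
      have := N'.add_mem (h1 h10) hx
      rwa [sub_add_cancel] at this
  · intro q q' hqq
    by_contra hne
    obtain ⟨x, hx, hx'⟩ := hdist q q' hne
    rw [hqq] at hx'
    exact hx' hx

/-- the intersection of finitely many maximal ideals is not contained in another one -/
theorem inf_not_le (hu : Stb m u) (hfin : {N | MaxI m u N}.Finite) :
    ∀ (k : ℕ) (T : Finset (Submodule ℚ (Matrix n n ℚ))), T.card = k → (∀ N' ∈ T, MaxI m u N') →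
      ∀ N, MaxI m u N → N ∉ T → ¬ u ⊓ T.inf id ≤ N := by
  classical
  intro k
  induction k with
  | zero =>
    intro T hT _ N hN _ h
    rw [Finset.card_eq_zero.1 hT, Finset.inf_empty, inf_top_eq] at h
    exact hN.ne (le_antisymm hN.le h)
  | succ k ih =>
    intro T hT hTm N hN hNT h
    obtain ⟨N₁, hN₁⟩ : T.Nonempty := by
      rw [← Finset.card_pos]
      omega
    have hcard : (T.erase N₁).card = k := by
      rw [Finset.card_erase_of_mem hN₁, hT]
      rfl
    have hTm' : ∀ N' ∈ T.erase N₁, MaxI m u N' := fun N' hN' => hTm N' (Finset.mem_of_mem_erase hN')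
    have hNne : N₁ ≠ N := by
      rintro rfl
      exact hNT hN₁
    set R := u ⊓ (T.erase N₁).inf id with hRdef
    have hRst : Stb m R := by
      have h1 : ∀ S : Finset (Submodule ℚ (Matrix n n ℚ)), (∀ N' ∈ S, MaxI m u N') →
          Stb m (u ⊓ S.inf id) := by
        intro S hS A hA a ha
        refine ⟨hu A hA a ha.1, ?_⟩
        have h2 : ∀ N' ∈ S, a ∈ N' := fun N' hN' =>
          (Finset.inf_le (f := id) hN' : S.inf id ≤ N') ha.2
        have h3 : Submodule.span ℚ {A * a - a * A} ≤ S.inf id := by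
          refine Finset.le_inf fun N' hN' => ?_
          rw [Submodule.span_singleton_le_iff_mem]
          exact (hS N' hN').stb A hA a (h2 N' hN')
        exact h3 (Submodule.mem_span_singleton_self _)
      exact h1 _ hTm'
    have hR1 : ¬ R ≤ N := ih _ hcard hTm' N hN fun h => hNT (Finset.mem_of_mem_erase h)
    have hR2 : ¬ R ≤ N₁ := ih _ hcard hTm' N₁ (hTm N₁ hN₁) (Finset.notMem_erase N₁ T)
    have hR3 : ∀ x ∈ R, x ∈ N₁ → x ∈ N := by
      intro x hx hx1
      refine h ⟨hx.1, ?_⟩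
      have : Submodule.span ℚ {x} ≤ T.inf id := by
        refine Finset.le_inf fun N' hN' => ?_
        rw [Submodule.span_singleton_le_iff_mem]
        by_cases hc : N' = N₁
        · rw [hc]
          exact hx1
        · exact (Finset.inf_le (f := id) (Finset.mem_erase.2 ⟨hc, hN'⟩) :
            (T.erase N₁).inf id ≤ N') hx.2
      exact this (Submodule.mem_span_singleton_self _)
    obtain ⟨h1, h2⟩ := graph_max hu hN (hTm N₁ hN₁) hNne hRst inf_le_left hR1 hR2 hR3
    exact Set.infinite_of_injective_forall_mem h2 h1 hfin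

/-- Chinese remainder: for finitely many maximal ideals the map `u → ∏ u / N` is surjective. -/
theorem cr_surj (hu : Stb m u) (hfin : {N | MaxI m u N}.Finite)
    (f : {N // MaxI m u N} → Matrix n n ℚ) (hf : ∀ N, f N ∈ u) :
    ∃ x ∈ u, ∀ N : {N // MaxI m u N}, x - f N ∈ N.1 := by
  classical
  have : Fintype {N // MaxI m u N} := hfin.fintype
  -- idempotents
  have hid : ∀ N : {N // MaxI m u N}, ∃ y ∈ u, y - f N ∈ N.1 ∧
      ∀ N' : {N // MaxI m u N}, N' ≠ N → y ∈ N'.1 := by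
    intro N
    set T : Finset (Submodule ℚ (Matrix n n ℚ)) := hfin.toFinset.erase N.1 with hT
    have hTm : ∀ N' ∈ T, MaxI m u N' := fun N' hN' =>
      hfin.mem_toFinset.1 (Finset.mem_of_mem_erase hN')
    have h1 := inf_not_le hu hfin T.card T rfl hTm N.1 N.2 (Finset.notMem_erase _ _)
    have hRst : Stb m (u ⊓ T.inf id) := by
      intro A hA a ha
      refine ⟨hu A hA a ha.1, ?_⟩
      have h3 : Submodule.span ℚ {A * a - a * A} ≤ T.inf id := by
        refine Finset.le_inf fun N' hN' => ?_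
        rw [Submodule.span_singleton_le_iff_mem]
        exact (hTm N' hN').stb A hA a ((Finset.inf_le (f := id) hN' : T.inf id ≤ N') ha.2)
      exact h3 (Submodule.mem_span_singleton_self _)
    have h2 := N.2.sup_eq hRst inf_le_left h1
    have h3 : f N ∈ N.1 ⊔ (u ⊓ T.inf id) := by
      rw [h2]
      exact hf N
    obtain ⟨a, ha, y, hy, hay⟩ := Submodule.mem_sup.1 h3
    refine ⟨y, hy.1, ?_, fun N' hN' => ?_⟩
    · rw [← hay, show y - (a + y) = -a by abel]
      exact N.1.neg_mem ha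
    · have : N'.1 ∈ T := Finset.mem_erase.2 ⟨fun h => hN' (Subtype.ext h),
        hfin.mem_toFinset.2 N'.2⟩
      exact (Finset.inf_le (f := id) this : T.inf id ≤ N'.1) hy.2
  choose y hy hy1 hy2 using hid
  refine ⟨∑ N, y N, Submodule.sum_mem _ fun N _ => hy N, fun N => ?_⟩
  rw [← Finset.add_sum_erase _ _ (Finset.mem_univ N), add_sub_right_comm]
  exact N.1.add_mem (hy1 N) (Submodule.sum_mem _ fun N' hN' =>
    hy2 N' N (Finset.ne_of_mem_erase hN').symm)

end ZL19
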