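import Pool.Agent.LibZL19.Glue
import Pool.Agent.LibZQ38.C2

/-! The types of the quotients by the maximal ideals. -/

open Matrix Complex

set_option linter.unusedSectionVars false

namespace ZL19

variable {ι : Type} [Fintype ι] [DecidableEq ι] {wt p : ι → ℤ} {K : ℕ}

theorem aeval_mem {V : Type} [AddCommGroup V] [Module ℂ V] {T : Module.End ℂ V}
    {N : Submodule ℂ V} (h : ∀ x ∈ N, T x ∈ N) (q : Polynomial ℂ) {x : V} (hx : x ∈ N) :
    Polynomial.aeval T q x ∈ N := by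
  have hp : ∀ k : ℕ, (T ^ k) x ∈ N := by
    intro k
    induction k with
    | zero => simpa using hx
    | succ k ih =>
      rw [pow_succ', Module.End.mul_apply]
      exact h _ ih
  induction q using Polynomial.induction_on' with
  | add p q hp hq =>
    rw [map_add, LinearMap.add_apply]
    exact N.add_mem hp hq
  | monomial k c =>
    rw [Polynomial.aeval_monomial, Module.End.mul_apply, Module.algebraMap_end_apply]
    exact N.smul_mem _ (hp k)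

theorem count_quot {E : Type} [AddCommGroup E] [Module ℂ E] [FiniteDimensional ℂ E] {s : Type}
    [Fintype s] (F : s → Submodule ℂ E) (B : Submodule ℂ E) (hB : ∀ n, B ≤ F n)
    (hsurj : ∀ y : s → E, ∃ x, ∀ n, x - y n ∈ F n) :
    ∑ n, ((Module.finrank ℂ E : ℤ) - Module.finrank ℂ (F n)) ≤
      (Module.finrank ℂ E : ℤ) - Module.finrank ℂ B := by
  classical
  let Ψ : E →ₗ[ℂ] (∀ n : s, E ⧸ F n) := LinearMap.pi fun n => (F n).mkQ
  have hs : Function.Surjective Ψ := by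
    intro v
    have hy : ∀ n : s, ∃ y : E, (F n).mkQ y = v n := fun n => (F n).mkQ_surjective (v n)
    choose y hy using hy
    obtain ⟨x, hx⟩ := hsurj y
    refine ⟨x, ?_⟩
    funext n
    show (F n).mkQ x = v n
    rw [← hy n, ← sub_eq_zero, ← map_sub, Submodule.mkQ_apply, Submodule.Quotient.mk_eq_zero]
    exact hx n
  have hker : Module.finrank ℂ B ≤ Module.finrank ℂ (LinearMap.ker Ψ) := by
    refine Submodule.finrank_mono ?_
    intro x hx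
    rw [LinearMap.mem_ker]
    funext n
    show (F n).mkQ x = 0
    rw [Submodule.mkQ_apply, Submodule.Quotient.mk_eq_zero]
    exact hB n hx
  have h3 := LinearMap.finrank_range_add_finrank_ker Ψ
  rw [LinearMap.range_eq_top.2 hs, finrank_top, Module.finrank_pi_fintype] at h3
  have h4 : ∀ n : s, ((Module.finrank ℂ E : ℤ) - Module.finrank ℂ (F n)) =
      (Module.finrank ℂ (E ⧸ F n) : ℤ) := by
    intro n
    have h5 := Submodule.finrank_quotient_add_finrank (F n)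
    omega
  rw [Finset.sum_congr rfl fun n _ => h4 n, ← Nat.cast_sum]
  omega

theorem hab_count {Φ₀ : Matrix ι ι ℂ} {P₀ : ℤ → Matrix ι ι ℂ} {h₀ : Matrix ι ι ℂ}
    (hP : ZQ38.GrP wt p K Φ₀ P₀) (hh : ZQ38.DelH wt p Φ₀ P₀ h₀)
    {m : Submodule ℚ (Matrix ι ι ℚ)} (hm : ZQ38.IsLie m) (ht : ∀ A ∈ m, MW38.Tri wt A)
    (h1 : ZQ38.oP K P₀ h₀ ∈ ZQ38.cx m) (h2 : ZQ38.oQ wt K P₀ h₀ ∈ ZQ38.cx m)
    (hfin : {n | MaxI m (m ⊓ ZQ38.Low ℚ wt) n}.Finite)
    (s : Finset (Submodule ℚ (Matrix ι ι ℚ)))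
    (hs : ∀ n ∈ s, MaxI m (m ⊓ ZQ38.Low ℚ wt) n) (t : ℤ × ℤ) :
    ∑ n ∈ s, ((ZQ38.hab wt p Φ₀ (m ⊓ ZQ38.Low ℚ wt) t : ℤ) - ZQ38.hab wt p Φ₀ n t) ≤
      (ZQ38.hab wt p Φ₀ (m ⊓ ZQ38.Low ℚ wt) t : ℤ) -
        ZQ38.hab wt p Φ₀ (ZQ38.brk (m ⊓ ZQ38.Low ℚ wt) (m ⊓ ZQ38.Low ℚ wt)) t := by
  classical
  set u := m ⊓ ZQ38.Low ℚ wt with hu
  set A := ZQ38.oP K P₀ h₀ with hA
  set B := ZQ38.oQ wt K P₀ h₀ with hB
  have hStu : Stb m u := by
    intro X hX Y hY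
    refine ⟨hm X hX Y hY.1, ?_⟩
    have := WW_br (triQ_iff.1 (ht X hX)) (low_eq (wt := wt) ▸ hY.2)
    rw [low_eq]
    rwa [zero_add] at this
  -- commutation
  have hAB : A * B = B * A := by
    have hd := del_opp (Ω := Set.univ) (Φ := fun _ => Φ₀) (Pg := fun _ => P₀) (h := fun _ => h₀)
      (fun _ _ => hP) (fun _ _ => hh)
    exact hd.comm ⟨0, trivial⟩
  have hcom : ∀ x, ZQ38.adm A (ZQ38.adm B x) = ZQ38.adm B (ZQ38.adm A x) := by
    intro x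
    simp only [ZQ38.adm_apply, mul_sub, sub_mul, ← mul_assoc, hAB]
    simp only [mul_assoc, hAB]
    abel
  -- the polynomials
  set S : Finset ℤ := Finset.Icc (-(2 * (K : ℤ))) (2 * K) with hS
  have hSA : Polynomial.aeval (ZQ38.adm A) (∏ c ∈ S, (Polynomial.X - Polynomial.C (c : ℂ))) = 0 :=
    LinearMap.ext fun M => ZQ38.poly_all hP hh.un M
  have hSB : Polynomial.aeval (ZQ38.adm B) (∏ c ∈ S, (Polynomial.X - Polynomial.C (c : ℂ))) = 0 :=
    LinearMap.ext fun M => ZQ38.poly_allQ hP hh.un M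
  let π : Matrix ι ι ℂ →ₗ[ℂ] Matrix ι ι ℂ := Polynomial.aeval (ZQ38.adm B) (qa S t.2) *
    Polynomial.aeval (ZQ38.adm A) (qa S t.1)
  have hπ : ∀ x, π x = Polynomial.aeval (ZQ38.adm B) (qa S t.2)
    (Polynomial.aeval (ZQ38.adm A) (qa S t.1) x) := fun x => rfl
  have hπt : ∀ x, π x ∈ ZQ38.typ wt p Φ₀ t.1 t.2 := by
    intro x
    rw [ZQ38.typ_iff hP hh]
    constructor
    · have e1 : ZQ38.adm A (π x) = (t.1 : ℂ) • π x := by
        rw [hπ, intertwine (T := ZQ38.adm B) (D := ZQ38.adm B) (Λ := ZQ38.adm A) hcom,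
          qa_eig hSA, map_smul]
      exact e1
    · have e1 : ZQ38.adm B (π x) = (t.2 : ℂ) • π x := by
        rw [hπ, qa_eig hSB]
      exact e1
  have hπf : ∀ x ∈ ZQ38.typ wt p Φ₀ t.1 t.2, π x = x := by
    intro x hx
    obtain ⟨e1, e2⟩ := (ZQ38.typ_iff hP hh _ _ _).1 hx
    have e1' : ZQ38.adm A x = (t.1 : ℂ) • x := e1
    have e2' : ZQ38.adm B x = (t.2 : ℂ) • x := e2
    rw [hπ, aeval_eig e1', qa_eval, one_smul, aeval_eig e2', qa_eval, one_smul]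
  have hπL : ∀ L : Submodule ℚ (Matrix ι ι ℚ), Stb m L → ∀ x ∈ cx L, π x ∈ cx L := by
    intro L hL x hx
    have hA' : ∀ x ∈ cx L, ZQ38.adm A x ∈ cx L := fun x hx => cx_br (fun X hX Y hY => hL X hX Y hY) h1 hx
    have hB' : ∀ x ∈ cx L, ZQ38.adm B x ∈ cx L := fun x hx => cx_br (fun X hX Y hY => hL X hX Y hY) h2 hx
    exact aeval_mem hB' _ (aeval_mem hA' _ hx)
  -- the spaces
  let E : Submodule ℂ (Matrix ι ι ℂ) := cx u ⊓ ZQ38.typ wt p Φ₀ t.1 t.2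
  let F : Submodule ℚ (Matrix ι ι ℚ) → Submodule ℂ E := fun L =>
    (cx L ⊓ ZQ38.typ wt p Φ₀ t.1 t.2).comap E.subtype
  have hF : ∀ L, L ≤ u → Module.finrank ℂ (F L) = ZQ38.hab wt p Φ₀ L t := by
    intro L hL
    exact LinearEquiv.finrank_eq (Submodule.comapSubtypeEquivOfLe
      (inf_le_inf_right _ (cx_mono hL)))
  have hE : Module.finrank ℂ E = ZQ38.hab wt p Φ₀ u t := rfl
  have hbu : ZQ38.brk u u ≤ u := by
    refine Submodule.span_le.2 ?_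
    rintro _ ⟨X, hX, Y, hY, rfl⟩
    exact hStu X hX.1 Y hY
  have h3 := count_quot (E := E) (s := s) (fun n => F n.1) (F (ZQ38.brk u u)) (by
    intro n x hx
    refine ⟨cx_mono ?_ hx.1, hx.2⟩
    refine Submodule.span_le.2 ?_
    rintro _ ⟨X, hX, Y, hY, rfl⟩
    exact (hs n.1 n.2).br X hX Y hY) (by
    intro y
    obtain ⟨x, hx, hx'⟩ := cr_surjC hStu hfin
      (fun N => if hN : N.1 ∈ s then ((y ⟨N.1, hN⟩ : E) : Matrix ι ι ℂ) else 0) (fun N => by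
        split_ifs with hN
        · exact (y ⟨N.1, hN⟩).2.1
        · exact Submodule.zero_mem _)
    refine ⟨⟨π x, hπL u hStu x hx, hπt x⟩, fun n => ?_⟩
    show π x - (y n : Matrix ι ι ℂ) ∈ cx n.1 ⊓ ZQ38.typ wt p Φ₀ t.1 t.2
    have h3 := hx' ⟨n.1, hs n.1 n.2⟩
    simp only [n.2, dif_pos] at h3
    have h4 : π x - (y n : Matrix ι ι ℂ) = π (x - (y n : Matrix ι ι ℂ)) := by
      rw [map_sub, hπf _ (y n).2.2]
    rw [h4]
    exact ⟨hπL _ (hs n.1 n.2).stb _ h3, hπt _⟩)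
  rw [hF _ hbu, hE] at h3
  have h5 : ∑ n : s, ((ZQ38.hab wt p Φ₀ u t : ℤ) - Module.finrank ℂ (F n.1)) =
      ∑ n ∈ s, ((ZQ38.hab wt p Φ₀ u t : ℤ) - ZQ38.hab wt p Φ₀ n t) := by
    rw [Finset.sum_congr rfl fun (n : s) _ => by rw [hF n.1 (hs n.1 n.2).le]]
    exact Finset.sum_coe_sort s fun n => ((ZQ38.hab wt p Φ₀ u t : ℤ) - ZQ38.hab wt p Φ₀ n t)
  rw [← h5]
  exact h3

end ZL19
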