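import Pool.Agent.LibZL19.Wt

/-! Special points of a mixed variation: the ideal attached to a point where the unipotent part of
the Mumford-Tate Lie algebra is smaller than the generic one. -/

open Matrix

set_option linter.unusedSectionVars false

namespace ZL19

variable {n : Type} [Fintype n] [DecidableEq n] {wt : n → ℤ} {X : Type}
  {P Q : X → Matrix n n ℂ}

/-- the Lie algebra of the Mumford-Tate group at `z` -/
def mt (P Q : X → Matrix n n ℂ) (z : X) : Submodule ℚ (Matrix n n ℚ) := hull {P z, Q z}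

/-- the generic Mumford-Tate Lie algebra -/
def gen (P Q : X → Matrix n n ℂ) : Submodule ℚ (Matrix n n ℚ) := hull (Set.range P ∪ Set.range Q)

/-- the unipotent part -/
def uu (wt : n → ℤ) (L : Submodule ℚ (Matrix n n ℚ)) : Submodule ℚ (Matrix n n ℚ) := L ⊓ WW wt (-1)

/-- the matrix of the weights -/
def YY (wt : n → ℤ) : Matrix n n ℚ := Matrix.diagonal fun i => (wt i : ℚ)

/-- the properties of the operators `P`, `Q` (multiplication by `p`, `q` on Deligne's `I^{p,q}`)
which are used here -/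
structure Del (wt : n → ℤ) (P Q : X → Matrix n n ℂ) : Prop where
  comm : ∀ z, P z * Q z = Q z * P z
  triP : ∀ z, P z ∈ WC wt 0
  triQ : ∀ z, Q z ∈ WC wt 0
  grY : ∀ z, gr wt (P z + Q z) = toC (YY wt)

theorem mt_le_gen (z : X) : mt P Q z ≤ gen P Q := by
  refine hull_mono ?_
  rintro x (rfl | rfl)
  · exact Or.inl ⟨z, rfl⟩
  · exact Or.inr ⟨z, rfl⟩

theorem P_mem_mt (z : X) : P z ∈ cx (mt P Q z) := mem_cx_hull (Or.inl rfl)

theorem Q_mem_mt (z : X) : Q z ∈ cx (mt P Q z) := mem_cx_hull (Or.inr rfl)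

theorem LieC_WW0 : LieC (WW wt 0) := fun A hA B hB => by
  have := WW_br hA hB
  rwa [add_zero] at this

theorem Del.gen_le (h : Del wt P Q) : gen P Q ≤ WW wt 0 := by
  refine hull_le LieC_WW0 ?_
  rintro x (⟨z, rfl⟩ | ⟨z, rfl⟩)
  · exact mem_cx_WW.2 (h.triP z)
  · exact mem_cx_WW.2 (h.triQ z)

theorem Del.mt_le (h : Del wt P Q) (z : X) : mt P Q z ≤ WW wt 0 := (mt_le_gen z).trans h.gen_le

theorem Del.gr_mt (h : Del wt P Q) (z : X) : (mt P Q z).map (grL wt) =
    mt (fun z => gr wt (P z)) (fun z => gr wt (Q z)) z := by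
  rw [mt, map_gr_hull, mt]
  · congr 1
    ext x
    simp only [Set.mem_image, Set.mem_insert_iff, Set.mem_singleton_iff]
    constructor
    · rintro ⟨y, rfl | rfl, rfl⟩
      · exact Or.inl rfl
      · exact Or.inr rfl
    · rintro (rfl | rfl)
      · exact ⟨_, Or.inl rfl, rfl⟩
      · exact ⟨_, Or.inr rfl, rfl⟩
  · rintro x (rfl | rfl)
    · exact h.triP z
    · exact h.triQ z

theorem Del.gr_gen (h : Del wt P Q) : (gen P Q).map (grL wt) =
    gen (fun z => gr wt (P z)) (fun z => gr wt (Q z)) := by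
  rw [gen, map_gr_hull, gen]
  · congr 1
    ext x
    simp only [Set.mem_image, Set.mem_union, Set.mem_range]
    constructor
    · rintro ⟨y, ⟨z, rfl⟩ | ⟨z, rfl⟩, rfl⟩
      · exact Or.inl ⟨z, rfl⟩
      · exact Or.inr ⟨z, rfl⟩
    · rintro (⟨z, rfl⟩ | ⟨z, rfl⟩)
      · exact ⟨_, Or.inl ⟨z, rfl⟩, rfl⟩
      · exact ⟨_, Or.inr ⟨z, rfl⟩, rfl⟩
  · rintro x (⟨z, rfl⟩ | ⟨z, rfl⟩)
    · exact h.triP z
    · exact h.triQ z

/-- there is a rational element of `𝔪_z` lifting the grading of `Gr^W` -/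
theorem Del.exists_t (h : Del wt P Q) (z : X) : ∃ t ∈ mt P Q z, gr wt t = YY wt ∧
    toC t - (P z + Q z) ∈ cx (uu wt (mt P Q z)) := by
  have h1 : YY wt ∈ (mt P Q z).map (grL wt) := by
    rw [h.gr_mt z]
    refine toC_mem_cx_iff.1 ?_
    rw [← h.grY z, gr_add]
    exact Submodule.add_mem _ (P_mem_mt z) (Q_mem_mt z)
  obtain ⟨t, ht, ht'⟩ := h1
  have ht'' : gr wt t = YY wt := ht'
  refine ⟨t, ht, ht'', ?_⟩
  have h2 : toC t - (P z + Q z) ∈ cx (mt P Q z) :=
    Submodule.sub_mem _ (toC_mem_cx ht) (Submodule.add_mem _ (P_mem_mt z) (Q_mem_mt z))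
  refine mem_cx_inf_WW.2 ⟨h2, gr_eq_zero_WC ?_ ?_⟩
  · exact Submodule.sub_mem _ (mem_cx_WW.1 (toC_mem_cx (h.mt_le z ht)))
      (Submodule.add_mem _ (h.triP z) (h.triQ z))
  · rw [gr_sub, h.grY z, gr_toC, ht'', sub_self]

/-- the imaginary part of the grading lies in the unipotent part of `𝔪_z` -/
theorem Del.im_mem (h : Del wt P Q) (z : X) :
    (P z + Q z) - cjm (P z + Q z) ∈ cx (uu wt (mt P Q z)) := by
  have h1 : P z + Q z ∈ cx (mt P Q z) := Submodule.add_mem _ (P_mem_mt z) (Q_mem_mt z)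
  have h2 := Submodule.sub_mem _ h1 (cjm_mem h1)
  refine mem_cx_inf_WW.2 ⟨h2, gr_eq_zero_WC ?_ ?_⟩
  · exact mem_cx_WW.1 (cx_mono (h.mt_le z) h2)
  · have h3 : gr wt (cjm (P z + Q z)) = cjm (gr wt (P z + Q z)) := by
      ext i j
      simp only [gr, cjm, Matrix.map_apply]
      split_ifs <;> simp
    rw [gr_sub, h3, h.grY z, cjm_toC, sub_self]

/-- if the graded parts agree, `𝔪` is generated by `𝔪_z` and the unipotent part -/
theorem Del.gen_le_sup (h : Del wt P Q) {z : X}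
    (hz : (mt P Q z).map (grL wt) = (gen P Q).map (grL wt)) :
    gen P Q ≤ mt P Q z ⊔ uu wt (gen P Q) := by
  intro A hA
  have h1 : grL wt A ∈ (mt P Q z).map (grL wt) := by
    rw [hz]
    exact ⟨A, hA, rfl⟩
  obtain ⟨B, hB, hB'⟩ := h1
  have h2 : A = B + (A - B) := by abel
  rw [h2]
  refine Submodule.add_mem_sup hB ⟨Submodule.sub_mem _ hA (mt_le_gen z hB), ?_⟩
  refine gr_eq_zero_WW (Submodule.sub_mem _ (h.gen_le hA) (h.mt_le z hB)) ?_
  rw [gr_sub, ← grL_apply, ← grL_apply, hB', sub_self]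

/-- a point which is not special for `Gr^W` and whose unipotent part is generic is not special -/
theorem Del.mt_eq (h : Del wt P Q) {z : X}
    (hz : (mt P Q z).map (grL wt) = (gen P Q).map (grL wt))
    (hu : uu wt (mt P Q z) = uu wt (gen P Q)) : mt P Q z = gen P Q := by
  refine le_antisymm (mt_le_gen z) ((h.gen_le_sup hz).trans (sup_le (le_refl _) ?_))
  rw [← hu]
  exact inf_le_left

/-! ### maximal ideals -/

/-- `N` is stable under commutators with `L` -/
def Stb (L N : Submodule ℚ (Matrix n n ℚ)) : Prop := ∀ A ∈ L, ∀ a ∈ N, A * a - a * A ∈ N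

/-- `N` is a maximal proper `L`-stable subspace of `u` containing `[u, u]` -/
structure MaxI (L u N : Submodule ℚ (Matrix n n ℚ)) : Prop where
  br : ∀ a ∈ u, ∀ b ∈ u, a * b - b * a ∈ N
  le : N ≤ u
  ne : N ≠ u
  stb : Stb L N
  max : ∀ N', N ≤ N' → N' ≤ u → Stb L N' → N' = N ∨ N' = u

theorem exists_MaxI {L u n0 : Submodule ℚ (Matrix n n ℚ)} (hbr : ∀ a ∈ u, ∀ b ∈ u,
    a * b - b * a ∈ n0) (hle : n0 ≤ u) (hne : n0 ≠ u) (hst : Stb L n0) :
    ∃ N, n0 ≤ N ∧ MaxI L u N := by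
  let C : Set (Submodule ℚ (Matrix n n ℚ)) := {N | n0 ≤ N ∧ N ≤ u ∧ N ≠ u ∧ Stb L N}
  have hC : C.Nonempty := ⟨n0, le_refl _, hle, hne, hst⟩
  obtain ⟨N, hN, hmax⟩ := WellFounded.has_min
    (wellFounded_gt : WellFounded (α := Submodule ℚ (Matrix n n ℚ)) (· > ·)) C hC
  refine ⟨N, hN.1, fun a ha b hb => hN.1 (hbr a ha b hb), hN.2.1, hN.2.2.1, hN.2.2.2, ?_⟩
  intro N' h1 h2 h3
  by_contra hcon
  push Not at hcon
  exact hmax N' ⟨hN.1.trans h1, h2, hcon.2, h3⟩ (lt_of_le_of_ne h1 (Ne.symm hcon.1))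

theorem jacQ {A t a : Matrix n n ℚ} : t * (A * a - a * A) - (A * a - a * A) * t =
    ((t * A - A * t) * a - a * (t * A - A * t)) + (A * (t * a - a * t) - (t * a - a * t) * A) := by
  simp only [mul_sub, sub_mul, mul_assoc]
  abel

theorem YY_br (A : Matrix n n ℚ) (i j : n) :
    (YY wt * A - A * YY wt) i j = ((wt i - wt j : ℤ) : ℚ) * A i j := by
  rw [Matrix.sub_apply, YY, Matrix.diagonal_mul, Matrix.mul_diagonal]
  push_cast
  ring

/-- `[t, a] - l a` has lower weight if `a` has weight `l` and `t` lifts the grading -/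
theorem br_wt {t a : Matrix n n ℚ} {l : ℤ} (ht0 : t ∈ WW wt 0) (ht : gr wt t = YY wt)
    (ha : a ∈ WW wt l) : (t * a - a * t) - (l : ℚ) • a ∈ WW wt (l - 1) := by
  have h1 : t - YY wt ∈ WW wt (-1) := by
    refine gr_eq_zero_WW (Submodule.sub_mem _ ht0 ?_) ?_
    · intro i j hij
      rw [YY, Matrix.diagonal_apply_ne]
      rintro rfl
      omega
    · rw [gr_sub, ht]
      ext i j
      simp only [gr, Matrix.sub_apply, Matrix.zero_apply]
      split_ifs with h
      · ring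
      · rw [YY, Matrix.diagonal_apply_ne]
        · ring
        · rintro rfl
          exact h rfl
  have h2 : (t * a - a * t) - (l : ℚ) • a =
      ((t - YY wt) * a - a * (t - YY wt)) + ((YY wt * a - a * YY wt) - (l : ℚ) • a) := by
    simp only [sub_mul, mul_sub]
    abel
  rw [h2]
  refine Submodule.add_mem _ ?_ ?_
  · have := WW_br h1 ha
    rwa [show -1 + l = l - 1 by ring] at this
  · intro i j hij
    rw [Matrix.sub_apply, YY_br, Matrix.smul_apply, smul_eq_mul]
    by_cases h3 : l < wt i - wt j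
    · rw [ha i j h3]
      ring
    · rw [show wt i - wt j = l by omega]
      ring

/-- the elements of `u` which are eigenvectors of `ad t` modulo `N` -/
def eigS (t : Matrix n n ℚ) (l : ℤ) (u N : Submodule ℚ (Matrix n n ℚ)) :
    Submodule ℚ (Matrix n n ℚ) where
  carrier := {a | a ∈ u ∧ (t * a - a * t) - (l : ℚ) • a ∈ N}
  add_mem' := by
    rintro a b ⟨ha, ha'⟩ ⟨hb, hb'⟩
    refine ⟨u.add_mem ha hb, ?_⟩
    have : (t * (a + b) - (a + b) * t) - (l : ℚ) • (a + b) =
        ((t * a - a * t) - (l : ℚ) • a) + ((t * b - b * t) - (l : ℚ) • b) := by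
      rw [mul_add, add_mul, smul_add]
      abel
    rw [this]
    exact N.add_mem ha' hb'
  zero_mem' := ⟨u.zero_mem, by simp⟩
  smul_mem' := by
    rintro c a ⟨ha, ha'⟩
    refine ⟨u.smul_mem c ha, ?_⟩
    have : (t * (c • a) - (c • a) * t) - (l : ℚ) • (c • a) =
        c • ((t * a - a * t) - (l : ℚ) • a) := by
      rw [mul_smul_comm, smul_mul_assoc, smul_sub, smul_sub, smul_comm (l : ℚ) c a]
    rw [this]
    exact N.smul_mem c ha'

/-- the centralizer of `t` modulo `N` -/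
def cenS (t : Matrix n n ℚ) (N : Submodule ℚ (Matrix n n ℚ)) :
    Submodule ℚ (Matrix n n ℚ) where
  carrier := {a | t * a - a * t ∈ N}
  add_mem' := by
    intro a b ha hb
    have : t * (a + b) - (a + b) * t = (t * a - a * t) + (t * b - b * t) := by
      rw [mul_add, add_mul]
      abel
    show t * (a + b) - (a + b) * t ∈ N
    rw [this]
    exact N.add_mem ha hb
  zero_mem' := by
    show t * 0 - 0 * t ∈ N
    simp
  smul_mem' := by
    intro c a ha
    have : t * (c • a) - (c • a) * t = c • (t * a - a * t) := by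
      rw [mul_smul_comm, smul_mul_assoc, smul_sub]
    show t * (c • a) - (c • a) * t ∈ N
    rw [this]
    exact N.smul_mem c ha

/-- the quotient by a maximal ideal is pure -/
theorem MaxI.weight {L u N : Submodule ℚ (Matrix n n ℚ)} (h : MaxI L u N)
    (hLu : Stb L u) (huW : u ≤ WW wt (-1)) {t : Matrix n n ℚ} (ht : t ∈ L) (ht0 : t ∈ WW wt 0)
    (htY : gr wt t = YY wt) (htL : ∀ A ∈ L, t * A - A * t ∈ u) :
    ∃ w : ℤ, w < 0 ∧ (∀ a ∈ u, (t * a - a * t) - (w : ℚ) • a ∈ N) ∧ u ⊓ WW wt (w - 1) ≤ N ∧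
      u ≤ N ⊔ (u ⊓ WW wt w) := by
  -- the eigenspaces
  obtain ⟨K, hK⟩ : ∃ K : ℤ → Submodule ℚ (Matrix n n ℚ), ∀ l a, a ∈ K l ↔ a ∈ u ∧
      (t * a - a * t) - (l : ℚ) • a ∈ N := ⟨fun l => eigS t l u N, fun l a => Iff.rfl⟩
  have hdich : ∀ l, K l = N ∨ K l = u := by
    intro l
    refine h.max (K l) (fun a ha => (hK l a).2 ⟨h.le ha, ?_⟩) (fun a ha => ((hK l a).1 ha).1) ?_
    · exact N.sub_mem (h.stb t ht a ha) (N.smul_mem _ ha)
    · intro A hA a ha
      obtain ⟨ha1, ha2⟩ := (hK l a).1 ha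
      refine (hK l _).2 ⟨hLu A hA a ha1, ?_⟩
      rw [jacQ]
      have e : ((t * A - A * t) * a - a * (t * A - A * t)) +
          (A * (t * a - a * t) - (t * a - a * t) * A) - (l : ℚ) • (A * a - a * A) =
          ((t * A - A * t) * a - a * (t * A - A * t)) +
          (A * ((t * a - a * t) - (l : ℚ) • a) - ((t * a - a * t) - (l : ℚ) • a) * A) := by
        simp only [mul_sub, sub_mul, smul_sub, mul_smul_comm, smul_mul_assoc]
        abel
      rw [e]
      exact N.add_mem (h.br _ (htL A hA) a ha1) (h.stb A hA _ ha2)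
  have hred : ∀ l, ∀ a ∈ u ⊓ WW wt l, (t * a - a * t) - (l : ℚ) • a ∈ u ⊓ WW wt (l - 1) :=
    fun l a ha => ⟨u.sub_mem (hLu t ht a ha.1) (u.smul_mem _ ha.1), br_wt ht0 htY ha.2⟩
  -- some `K l` is everything
  obtain ⟨w, hw0, hw⟩ : ∃ w : ℤ, w < 0 ∧ K w = u := by
    by_contra hcon
    push Not at hcon
    obtain ⟨b, hb⟩ := WW_bot wt
    have h1 : ∀ k : ℕ, b + k < 0 → u ⊓ WW wt (b + k) ≤ N := by
      intro k
      induction k with
      | zero =>
        intro _
        simp [hb]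
      | succ k ih =>
        intro hk a ha
        have hk' : b + ((k + 1 : ℕ) : ℤ) = b + k + 1 := by push_cast; ring
        have h2 := hred _ a ha
        rw [hk'] at h2 hk
        have h3 : (b : ℤ) + k + 1 - 1 = b + k := by ring
        rw [h3] at h2
        have h4 := ih (by omega) h2
        rcases hdich (b + k + 1) with h5 | h5
        · rw [← h5]
          exact (hK _ a).2 ⟨ha.1, h4⟩
        · exact absurd h5 (hcon _ hk)
    apply h.ne
    refine le_antisymm h.le fun a ha => ?_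
    by_cases hb0 : b < 0
    · have h2 := h1 (-1 - b).toNat (by omega)
      rw [Int.toNat_of_nonneg (by omega), show b + (-1 - b) = -1 by ring] at h2
      exact h2 ⟨ha, huW ha⟩
    · have h3 : WW wt (-1) ≤ WW wt b := WW_mono (by omega)
      have h4 := h3 (huW ha)
      rw [hb, Submodule.mem_bot] at h4
      rw [h4]
      exact N.zero_mem
  have hwN : ∀ a ∈ u, (t * a - a * t) - (w : ℚ) • a ∈ N := by
    intro a ha
    rw [← hw] at ha
    exact ((hK w a).1 ha).2
  -- a vector of weight `l` is, modulo lower weight and `N`, killed by `w - l`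
  have hstep : ∀ l : ℤ, l ≠ w → ∀ a ∈ u ⊓ WW wt l, ∃ b ∈ u ⊓ WW wt (l - 1), a - b ∈ N := by
    intro l hl a ha
    have h1 := hred l a ha
    have h2 := hwN a ha.1
    have hne : ((w : ℚ) - l) ≠ 0 := by
      rw [sub_ne_zero]
      exact_mod_cast Ne.symm hl
    refine ⟨((w : ℚ) - l)⁻¹ • ((t * a - a * t) - (l : ℚ) • a), Submodule.smul_mem _ _ h1, ?_⟩
    have h3 : a - ((w : ℚ) - l)⁻¹ • ((t * a - a * t) - (l : ℚ) • a) =
        -(((w : ℚ) - l)⁻¹ • ((t * a - a * t) - (w : ℚ) • a)) := by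
      have h4 : a = ((w : ℚ) - l)⁻¹ • (((w : ℚ) - l) • a) := by
        rw [smul_smul, inv_mul_cancel₀ hne, one_smul]
      nth_rewrite 1 [h4]
      rw [← smul_sub, ← smul_neg]
      congr 1
      rw [sub_smul]
      abel
    rw [h3]
    exact N.neg_mem (N.smul_mem _ h2)
  refine ⟨w, hw0, hwN, ?_, ?_⟩
  · obtain ⟨b, hb⟩ := WW_bot wt
    have h1 : ∀ k : ℕ, b + k < w → u ⊓ WW wt (b + k) ≤ N := by
      intro k
      induction k with
      | zero =>
        intro _
        simp [hb]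
      | succ k ih =>
        intro hk a ha
        have hk' : b + ((k + 1 : ℕ) : ℤ) = b + k + 1 := by push_cast; ring
        obtain ⟨c, hc, hac⟩ := hstep _ hk.ne a ha
        rw [hk', show (b : ℤ) + k + 1 - 1 = b + k by ring] at hc
        have h4 := ih (by omega) hc
        have := N.add_mem hac h4
        rwa [sub_add_cancel] at this
    by_cases hbw : b < w
    · have h2 := h1 (w - 1 - b).toNat (by omega)
      rw [Int.toNat_of_nonneg (by omega), show b + (w - 1 - b) = w - 1 by ring] at h2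
      exact h2
    · have h3 : WW wt (w - 1) ≤ WW wt b := WW_mono (by omega)
      rw [hb] at h3
      exact inf_le_right.trans (h3.trans bot_le)
  · have h1 : ∀ k : ℕ, u ⊓ WW wt (w + k) ≤ N ⊔ (u ⊓ WW wt w) := by
      intro k
      induction k with
      | zero =>
        simp
      | succ k ih =>
        intro a ha
        have hk' : w + ((k + 1 : ℕ) : ℤ) = w + k + 1 := by push_cast; ring
        obtain ⟨c, hc, hac⟩ := hstep _ (by omega) a ha
        rw [hk', show (w : ℤ) + k + 1 - 1 = w + k by ring] at hc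
        have h4 := ih hc
        have h5 : a - c ∈ N ⊔ (u ⊓ WW wt w) := Submodule.mem_sup_left hac
        have := Submodule.add_mem _ h5 h4
        rwa [sub_add_cancel] at this
    intro a ha
    refine h1 (-w).toNat ⟨ha, WW_mono ?_ (huW ha)⟩
    omega

/-! ### the theorems -/

theorem Del.t_comm (h : Del wt P Q) {t A : Matrix n n ℚ} (ht : t ∈ gen P Q) (htY : gr wt t = YY wt)
    (hA : A ∈ gen P Q) : t * A - A * t ∈ uu wt (gen P Q) := by
  have h0 := h.gen_le ht
  have h1 := h.gen_le hA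
  refine ⟨hull_lie _ t ht A hA, gr_eq_zero_WW (LieC_WW0 t h0 A h1) ?_⟩
  rw [gr_sub, gr_mul_WW h0 h1, gr_mul_WW h1 h0, htY]
  ext i j
  rw [YY_br, Matrix.zero_apply, gr]
  split_ifs with hij
  · rw [hij]
    simp
  · rw [mul_zero]

theorem Del.gen_stb (h : Del wt P Q) : Stb (gen P Q) (uu wt (gen P Q)) := by
  intro A hA a ha
  refine ⟨hull_lie _ A hA a ha.1, ?_⟩
  have := WW_br (h.gen_le hA) ha.2
  rwa [zero_add] at this

theorem br_stb {L u : Submodule ℚ (Matrix n n ℚ)} (h : Stb L u) : Stb L (br u u) := by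
  intro A hA c hc
  induction hc using Submodule.span_induction with
  | mem x hx =>
    obtain ⟨a, ha, c, hc, rfl⟩ := hx
    rw [jacQ]
    exact Submodule.add_mem _ (mem_br (h A hA a ha) hc) (mem_br ha (h A hA c hc))
  | zero => simp
  | add x y _ _ hx hy =>
    have e : A * (x + y) - (x + y) * A = (A * x - x * A) + (A * y - y * A) := by
      rw [mul_add, add_mul]
      abel
    rw [e]
    exact Submodule.add_mem _ hx hy
  | smul c x _ hx =>
    have e : A * (c • x) - (c • x) * A = c • (A * x - x * A) := by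
      rw [mul_smul_comm, smul_mul_assoc, smul_sub]
    rw [e]
    exact Submodule.smul_mem _ _ hx

/-- The ideal attached to a point with smaller unipotent part. -/
theorem Del.core (h : Del wt P Q) {z : X} (hz : uu wt (mt P Q z) ≠ uu wt (gen P Q)) :
    ∃ N, uu wt (mt P Q z) ≤ N ∧ MaxI (mt P Q z) (uu wt (gen P Q)) N := by
  have hu : LieC (uu wt (gen P Q)) := by
    intro a ha b hb
    exact h.gen_stb a ha.1 b hb
  have hmt : uu wt (mt P Q z) ≤ uu wt (gen P Q) := inf_le_inf_right _ (mt_le_gen z)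
  have hL : LieC (uu wt (mt P Q z)) := by
    intro a ha b hb
    refine ⟨hull_lie _ a ha.1 b hb.1, ?_⟩
    have := WW_br (WW_mono (by norm_num : (-1 : ℤ) ≤ 0) ha.2) hb.2
    rwa [zero_add] at this
  have hst : Stb (mt P Q z) (uu wt (mt P Q z) ⊔ br (uu wt (gen P Q)) (uu wt (gen P Q))) := by
    intro A hA a ha
    obtain ⟨b, hb, c, hc, rfl⟩ := Submodule.mem_sup.1 ha
    have e : A * (b + c) - (b + c) * A = (A * b - b * A) + (A * c - c * A) := by
      rw [mul_add, add_mul]
      abel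
    rw [e]
    refine Submodule.add_mem_sup ⟨hull_lie _ A hA b hb.1, ?_⟩
      (br_stb h.gen_stb A (mt_le_gen z hA) c hc)
    have := WW_br (h.mt_le z hA) hb.2
    rwa [zero_add] at this
  obtain ⟨N, hN, hN'⟩ := exists_MaxI (L := mt P Q z) (u := uu wt (gen P Q))
    (n0 := uu wt (mt P Q z) ⊔ br (uu wt (gen P Q)) (uu wt (gen P Q)))
    (fun a ha b hb => Submodule.mem_sup_right (mem_br ha hb))
    (sup_le hmt (br_le.2 fun a ha b hb => hu a ha b hb))
    (fun he => hz (frattini (wt := wt) inf_le_right hL hmt he.symm.le)) hst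
  exact ⟨N, le_sup_left.trans hN, hN'⟩

/-- `MaxI` for `𝔪_z` and for `𝔪` agree if `z` is not special for `Gr^W` -/
theorem Del.MaxI_gen (h : Del wt P Q) {z : X}
    (hz : (mt P Q z).map (grL wt) = (gen P Q).map (grL wt)) {N : Submodule ℚ (Matrix n n ℚ)}
    (hN : MaxI (mt P Q z) (uu wt (gen P Q)) N) : MaxI (gen P Q) (uu wt (gen P Q)) N := by
  refine ⟨hN.br, hN.le, hN.ne, ?_, fun N' h1 h2 h3 => hN.max N' h1 h2 fun A hA =>
    h3 A (mt_le_gen z hA)⟩
  intro A hA a ha
  obtain ⟨B, hB, C, hC, rfl⟩ := Submodule.mem_sup.1 (h.gen_le_sup hz hA)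
  have e : (B + C) * a - a * (B + C) = (B * a - a * B) + (C * a - a * C) := by
    rw [mul_add, add_mul]
    abel
  rw [e]
  exact N.add_mem (hN.stb B hB a ha) (hN.br C hC a (hN.le ha))

/-- there is no flat splitting -/
theorem Del.no_flat (h : Del wt P Q) {N : Submodule ℚ (Matrix n n ℚ)}
    (hN : MaxI (gen P Q) (uu wt (gen P Q)) N) {t : Matrix n n ℚ} (ht : t ∈ gen P Q)
    (htY : gr wt t = YY wt) (hflat : ∀ z, toC t - (P z + Q z) ∈ cx N) : False := by
  obtain ⟨w, hw0, hw, -, -⟩ := hN.weight h.gen_stb inf_le_right ht (h.gen_le ht) htY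
    fun A hA => h.t_comm ht htY hA
  -- the centralizer of `t` modulo `N`
  obtain ⟨K, hK⟩ : ∃ K : Submodule ℚ (Matrix n n ℚ), ∀ A, A ∈ K ↔ t * A - A * t ∈ N :=
    ⟨cenS t N, fun A => Iff.rfl⟩
  have hKC : ∀ x : Matrix n n ℂ, toC t * x - x * toC t ∈ cx N → x ∈ cx K := by
    intro x hx
    refine mem_cx_iff.2 fun φ => (hK _).2 ?_
    have h1 := mem_cx_iff.1 hx φ
    rwa [fm_sub, fm_toC_mul, fm_mul_toC] at h1
  have hNC : ∀ x ∈ cx (gen P Q), ∀ y ∈ cx N, x * y - y * x ∈ cx N := fun x hx y hy =>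
    cx_br (fun A hA B hB => hN.stb A hA B hB) hx hy
  have hle : gen P Q ≤ K ⊓ gen P Q := by
    refine hull_le ?_ ?_
    · rintro A ⟨hA, hA'⟩ B ⟨hB, hB'⟩
      refine ⟨(hK _).2 ?_, hull_lie _ A hA' B hB'⟩
      rw [jacQ]
      have hA1 := (hK A).1 hA
      have hB1 := (hK B).1 hB
      refine N.add_mem ?_ (hN.stb A hA' _ hB1)
      have := N.neg_mem (hN.stb B hB' _ hA1)
      rwa [neg_sub] at this
    · intro x hx
      refine mem_cx_inf.2 ⟨hKC x ?_, mem_cx_hull hx⟩
      have hxg : x ∈ cx (gen P Q) := mem_cx_hull hx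
      have hcomm : ∃ z, (P z + Q z) * x = x * (P z + Q z) := by
        rcases hx with ⟨z, rfl⟩ | ⟨z, rfl⟩
        · exact ⟨z, by rw [add_mul, mul_add, h.comm z]⟩
        · exact ⟨z, by rw [add_mul, mul_add, h.comm z]⟩
      obtain ⟨z, hz⟩ := hcomm
      have h1 := hNC x hxg _ (hflat z)
      have h2 := (cx N).neg_mem h1
      have e : toC t * x - x * toC t =
          -(x * (toC t - (P z + Q z)) - (toC t - (P z + Q z)) * x) := by
        rw [mul_sub, sub_mul, hz]
        abel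
      rw [e]
      exact h2
  apply hN.ne
  refine le_antisymm hN.le fun a ha => ?_
  have h1 := (hK a).1 (hle ha.1).1
  have h2 := hw a ha
  have h3 := N.sub_mem h1 h2
  rw [sub_sub_cancel] at h3
  have hwne : (w : ℚ) ≠ 0 := by exact_mod_cast hw0.ne
  have h4 := N.smul_mem (w : ℚ)⁻¹ h3
  rwa [smul_smul, inv_mul_cancel₀ hwne, one_smul] at h4

end ZL19
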