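import Mathlib

/-! Rational spaces of matrices and their complexifications. -/

open Matrix

set_option linter.unusedSectionVars false

namespace ZL19

variable {n : Type} [Fintype n] [DecidableEq n]

/-- a rational matrix as a complex matrix -/
noncomputable def toC (A : Matrix n n ℚ) : Matrix n n ℂ := A.map (algebraMap ℚ ℂ)

/-- the complexification of a rational space of matrices -/
def cx (L : Submodule ℚ (Matrix n n ℚ)) : Submodule ℂ (Matrix n n ℂ) :=
  Submodule.span ℂ ((fun M : Matrix n n ℚ => M.map (algebraMap ℚ ℂ)) '' (L : Set _))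

/-- complex conjugation of the entries -/
noncomputable def cjm (x : Matrix n n ℂ) : Matrix n n ℂ := x.map (starRingEnd ℂ)

theorem toC_apply (A : Matrix n n ℚ) (i j : n) : toC A i j = ((A i j : ℚ) : ℂ) := rfl

theorem toC_add (A B : Matrix n n ℚ) : toC (A + B) = toC A + toC B := by
  ext i j; simp [toC]

theorem toC_sub (A B : Matrix n n ℚ) : toC (A - B) = toC A - toC B := by
  ext i j; simp [toC]

theorem toC_mul (A B : Matrix n n ℚ) : toC (A * B) = toC A * toC B := by
  ext i j; simp [toC, Matrix.mul_apply]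

theorem toC_smul (q : ℚ) (A : Matrix n n ℚ) : toC (q • A) = (q : ℂ) • toC A := by
  ext i j; simp [toC]

theorem toC_mem_cx {L : Submodule ℚ (Matrix n n ℚ)} {A : Matrix n n ℚ} (h : A ∈ L) :
    toC A ∈ cx L := Submodule.subset_span ⟨A, h, rfl⟩

/-- a `ℚ`-linear functional applied to the entries -/
noncomputable def fm (φ : ℂ →ₗ[ℚ] ℚ) (x : Matrix n n ℂ) : Matrix n n ℚ := x.map φ

theorem fm_add (φ : ℂ →ₗ[ℚ] ℚ) (x y : Matrix n n ℂ) : fm φ (x + y) = fm φ x + fm φ y := by
  ext i j; simp [fm]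

theorem fm_sub (φ : ℂ →ₗ[ℚ] ℚ) (x y : Matrix n n ℂ) : fm φ (x - y) = fm φ x - fm φ y := by
  ext i j; simp [fm]

theorem fm_smul_toC (φ : ℂ →ₗ[ℚ] ℚ) (c : ℂ) (A : Matrix n n ℚ) : fm φ (c • toC A) = φ c • A := by
  ext i j
  have h1 : c * ((A i j : ℚ) : ℂ) = (A i j : ℚ) • c := by
    rw [Algebra.smul_def, mul_comm]
    rfl
  show φ (c * ((A i j : ℚ) : ℂ)) = φ c * A i j
  rw [h1, map_smul, smul_eq_mul, mul_comm]

theorem fm_toC_mul (φ : ℂ →ₗ[ℚ] ℚ) (A : Matrix n n ℚ) (x : Matrix n n ℂ) :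
    fm φ (toC A * x) = A * fm φ x := by
  ext i j
  show φ (∑ k, ((A i k : ℚ) : ℂ) * x k j) = ∑ k, A i k * φ (x k j)
  rw [map_sum]
  refine Finset.sum_congr rfl fun k _ => ?_
  have h1 : ((A i k : ℚ) : ℂ) * x k j = (A i k : ℚ) • x k j := by
    rw [Algebra.smul_def]
    rfl
  rw [h1, map_smul, smul_eq_mul]

theorem fm_mul_toC (φ : ℂ →ₗ[ℚ] ℚ) (A : Matrix n n ℚ) (x : Matrix n n ℂ) :
    fm φ (x * toC A) = fm φ x * A := by
  ext i j
  show φ (∑ k, x i k * ((A k j : ℚ) : ℂ)) = ∑ k, φ (x i k) * A k j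
  rw [map_sum]
  refine Finset.sum_congr rfl fun k _ => ?_
  have h1 : x i k * ((A k j : ℚ) : ℂ) = (A k j : ℚ) • x i k := by
    rw [Algebra.smul_def, mul_comm]
    rfl
  rw [h1, map_smul, smul_eq_mul, mul_comm]

/-- the matrices all of whose rational components lie in `L` -/
def rat (L : Submodule ℚ (Matrix n n ℚ)) : Submodule ℂ (Matrix n n ℂ) where
  carrier := {x | ∀ φ : ℂ →ₗ[ℚ] ℚ, fm φ x ∈ L}
  add_mem' := by
    intro x y hx hy φ
    rw [fm_add]
    exact L.add_mem (hx φ) (hy φ)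
  zero_mem' := by
    intro φ
    have : fm φ (0 : Matrix n n ℂ) = 0 := by ext i j; simp [fm]
    rw [this]
    exact L.zero_mem
  smul_mem' := by
    intro c x hx φ
    have : fm φ (c • x) = fm (φ.comp (LinearMap.mulLeft ℚ c)) x := by
      ext i j
      simp [fm]
    rw [this]
    exact hx _

/-- the criterion for membership in a complexification -/
theorem mem_cx_iff {L : Submodule ℚ (Matrix n n ℚ)} {x : Matrix n n ℂ} :
    x ∈ cx L ↔ ∀ φ : ℂ →ₗ[ℚ] ℚ, fm φ x ∈ L := by
  constructor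
  · intro hx
    have h0 : cx L ≤ rat L := by
      refine Submodule.span_le.2 ?_
      rintro _ ⟨A, hA, rfl⟩ φ
      have h1 : fm φ (A.map (algebraMap ℚ ℂ)) = φ 1 • A := by
        have := fm_smul_toC φ 1 A
        rwa [one_smul] at this
      show fm φ (A.map (algebraMap ℚ ℂ)) ∈ L
      rw [h1]
      exact L.smul_mem _ hA
    exact h0 hx
  · intro hx
    set B := Module.Basis.ofVectorSpace ℚ ℂ with hB
    classical
    set F : Finset _ := Finset.univ.biUnion fun i : n => Finset.univ.biUnion fun j : n =>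
      (B.repr (x i j)).support with hF
    have h1 : x = ∑ b ∈ F, B b • toC (fm (B.coord b) x) := by
      ext i j
      rw [Matrix.sum_apply]
      have h2 : x i j = ∑ b ∈ (B.repr (x i j)).support, B.repr (x i j) b • B b := by
        conv_lhs => rw [← B.linearCombination_repr (x i j)]
        rw [Finsupp.linearCombination_apply, Finsupp.sum]
      have h3 : ∑ b ∈ (B.repr (x i j)).support, B.repr (x i j) b • B b =
          ∑ b ∈ F, B.repr (x i j) b • B b := by
        apply Finset.sum_subset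
        · intro b hb
          rw [hF, Finset.mem_biUnion]
          exact ⟨i, Finset.mem_univ _, Finset.mem_biUnion.2 ⟨j, Finset.mem_univ _, hb⟩⟩
        · intro b _ hb
          rw [Finsupp.notMem_support_iff.1 hb, zero_smul]
      rw [h2, h3]
      refine Finset.sum_congr rfl fun b _ => ?_
      rw [Matrix.smul_apply, toC_apply]
      show _ = B b • (((B.coord b) (x i j) : ℚ) : ℂ)
      rw [Module.Basis.coord_apply, smul_eq_mul, mul_comm, Algebra.smul_def]
      rfl
    rw [h1]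
    exact Submodule.sum_mem _ fun b _ => Submodule.smul_mem _ _ (toC_mem_cx (hx _))

/-- a `ℚ`-linear projection of `ℂ` onto `ℚ` -/
theorem exists_proj : ∃ φ : ℂ →ₗ[ℚ] ℚ, φ 1 = 1 := by
  obtain ⟨φ, hφ⟩ := (LinearMap.toSpanSingleton ℚ ℂ (1 : ℂ)).exists_leftInverse_of_injective (by
    rw [LinearMap.ker_eq_bot]
    intro a b hab
    have : (a : ℚ) • (1 : ℂ) = b • (1 : ℂ) := hab
    rw [Algebra.smul_def, Algebra.smul_def, mul_one, mul_one] at this
    exact (algebraMap ℚ ℂ).injective this)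
  refine ⟨φ, ?_⟩
  have := LinearMap.congr_fun hφ (1 : ℚ)
  simpa using this

theorem toC_mem_cx_iff {L : Submodule ℚ (Matrix n n ℚ)} {A : Matrix n n ℚ} :
    toC A ∈ cx L ↔ A ∈ L := by
  refine ⟨fun h => ?_, toC_mem_cx⟩
  obtain ⟨φ, hφ⟩ := exists_proj
  have h1 := mem_cx_iff.1 h φ
  have h2 : fm φ (toC A) = A := by
    have := fm_smul_toC φ 1 A
    rwa [one_smul, hφ, one_smul] at this
  rwa [h2] at h1

theorem cx_mono {L M : Submodule ℚ (Matrix n n ℚ)} (h : L ≤ M) : cx L ≤ cx M :=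
  Submodule.span_mono (Set.image_mono h)

theorem mem_cx_inf {L M : Submodule ℚ (Matrix n n ℚ)} {x : Matrix n n ℂ} :
    x ∈ cx (L ⊓ M) ↔ x ∈ cx L ∧ x ∈ cx M := by
  rw [mem_cx_iff, mem_cx_iff, mem_cx_iff]
  exact ⟨fun h => ⟨fun φ => (h φ).1, fun φ => (h φ).2⟩, fun h φ => ⟨h.1 φ, h.2 φ⟩⟩

theorem mem_cx_sInf {S : Set (Submodule ℚ (Matrix n n ℚ))} {x : Matrix n n ℂ} :
    x ∈ cx (sInf S) ↔ ∀ L ∈ S, x ∈ cx L := by
  simp only [mem_cx_iff, Submodule.mem_sInf]
  exact ⟨fun h L hL φ => h φ L hL, fun h φ L hL => h L hL φ⟩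

theorem cx_sup {L M : Submodule ℚ (Matrix n n ℚ)} : cx (L ⊔ M) = cx L ⊔ cx M := by
  apply le_antisymm
  · refine Submodule.span_le.2 ?_
    rintro _ ⟨A, hA, rfl⟩
    obtain ⟨a, ha, b, hb, rfl⟩ := Submodule.mem_sup.1 hA
    have : (fun M : Matrix n n ℚ => M.map (algebraMap ℚ ℂ)) (a + b) = toC a + toC b := toC_add a b
    rw [this]
    exact Submodule.add_mem_sup (toC_mem_cx ha) (toC_mem_cx hb)
  · exact sup_le (cx_mono le_sup_left) (cx_mono le_sup_right)

theorem cjm_toC (A : Matrix n n ℚ) : cjm (toC A) = toC A := by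
  ext i j
  simp [cjm, toC]

theorem cjm_add (x y : Matrix n n ℂ) : cjm (x + y) = cjm x + cjm y := by
  ext i j; simp [cjm]

theorem cjm_sub (x y : Matrix n n ℂ) : cjm (x - y) = cjm x - cjm y := by
  ext i j; simp [cjm]

theorem cjm_mul (x y : Matrix n n ℂ) : cjm (x * y) = cjm x * cjm y := by
  ext i j; simp [cjm, Matrix.mul_apply]

theorem cjm_smul (c : ℂ) (x : Matrix n n ℂ) : cjm (c • x) = (starRingEnd ℂ) c • cjm x := by
  ext i j; simp [cjm]

theorem cjm_mem {L : Submodule ℚ (Matrix n n ℚ)} {x : Matrix n n ℂ} (h : x ∈ cx L) :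
    cjm x ∈ cx L := by
  induction h using Submodule.span_induction with
  | mem x hx =>
    obtain ⟨A, hA, rfl⟩ := hx
    have : cjm (A.map (algebraMap ℚ ℂ)) = toC A := cjm_toC A
    show cjm (A.map (algebraMap ℚ ℂ)) ∈ cx L
    rw [this]
    exact toC_mem_cx hA
  | zero =>
    have : cjm (0 : Matrix n n ℂ) = 0 := by ext i j; simp [cjm]
    rw [this]
    exact Submodule.zero_mem _
  | add x y _ _ hx hy =>
    rw [cjm_add]
    exact Submodule.add_mem _ hx hy
  | smul c x _ hx =>
    rw [cjm_smul]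
    exact Submodule.smul_mem _ _ hx

/-! ### brackets -/

/-- closed under commutators -/
def LieC (L : Submodule ℚ (Matrix n n ℚ)) : Prop := ∀ A ∈ L, ∀ B ∈ L, A * B - B * A ∈ L

theorem cx_br {L M R : Submodule ℚ (Matrix n n ℚ)} (h : ∀ A ∈ L, ∀ B ∈ M, A * B - B * A ∈ R)
    {x y : Matrix n n ℂ} (hx : x ∈ cx L) (hy : y ∈ cx M) : x * y - y * x ∈ cx R := by
  induction hx using Submodule.span_induction with
  | mem x hx =>
    obtain ⟨A, hA, rfl⟩ := hx
    induction hy using Submodule.span_induction with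
    | mem y hy =>
      obtain ⟨B, hB, rfl⟩ := hy
      have h1 : toC A * toC B - toC B * toC A = toC (A * B - B * A) := by
        rw [toC_sub, toC_mul, toC_mul]
      show toC A * toC B - toC B * toC A ∈ cx R
      rw [h1]
      exact toC_mem_cx (h A hA B hB)
    | zero => simp
    | add y z _ _ hy hz =>
      have : (fun M : Matrix n n ℚ => M.map (algebraMap ℚ ℂ)) A * (y + z) -
          (y + z) * (fun M : Matrix n n ℚ => M.map (algebraMap ℚ ℂ)) A =
          ((fun M : Matrix n n ℚ => M.map (algebraMap ℚ ℂ)) A * y -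
            y * (fun M : Matrix n n ℚ => M.map (algebraMap ℚ ℂ)) A) +
          ((fun M : Matrix n n ℚ => M.map (algebraMap ℚ ℂ)) A * z -
            z * (fun M : Matrix n n ℚ => M.map (algebraMap ℚ ℂ)) A) := by
        rw [mul_add, add_mul]
        abel
      rw [this]
      exact Submodule.add_mem _ hy hz
    | smul c y _ hy =>
      rw [mul_smul_comm, smul_mul_assoc, ← smul_sub]
      exact Submodule.smul_mem _ _ hy
  | zero => simp
  | add x z _ _ hx hz =>
    have : (x + z) * y - y * (x + z) = (x * y - y * x) + (z * y - y * z) := by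
      rw [mul_add, add_mul]
      abel
    rw [this]
    exact Submodule.add_mem _ hx hz
  | smul c x _ hx =>
    rw [mul_smul_comm, smul_mul_assoc, ← smul_sub]
    exact Submodule.smul_mem _ _ hx

/-! ### the rational hull -/

/-- the smallest rational space of matrices which is closed under commutators and whose
complexification contains `S` -/
def hull (S : Set (Matrix n n ℂ)) : Submodule ℚ (Matrix n n ℚ) :=
  sInf {L | LieC L ∧ ∀ x ∈ S, x ∈ cx L}

theorem hull_lie (S : Set (Matrix n n ℂ)) : LieC (hull S) := by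
  intro A hA B hB
  rw [hull, Submodule.mem_sInf] at *
  intro L hL
  exact hL.1 A (hA L hL) B (hB L hL)

theorem mem_cx_hull {S : Set (Matrix n n ℂ)} {x : Matrix n n ℂ} (hx : x ∈ S) : x ∈ cx (hull S) :=
  mem_cx_sInf.2 fun _ hL => hL.2 x hx

theorem hull_le {S : Set (Matrix n n ℂ)} {L : Submodule ℚ (Matrix n n ℚ)} (hL : LieC L)
    (h : ∀ x ∈ S, x ∈ cx L) : hull S ≤ L := sInf_le ⟨hL, h⟩

theorem hull_mono {S T : Set (Matrix n n ℂ)} (h : S ⊆ T) : hull S ≤ hull T :=
  hull_le (hull_lie T) fun _ hx => mem_cx_hull (h hx)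

end ZL19
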