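import Pool.Agent.LibUS38.Cnt

/-! Zeros of a family of potentials which is permuted by `Δ`. -/

open Matrix Complex MeasureTheory Filter Topology
open UpperHalfPlane hiding I
open scoped ContDiff

set_option linter.unusedSectionVars false

namespace ZL19

open SP38 US38

variable {ι : Type} [Fintype ι] {J : Type} [Fintype J]
  {Δ : Subgroup (Matrix.SpecialLinearGroup (Fin 2) ℝ)}
  {σ : ι → Matrix.SpecialLinearGroup (Fin 2) ℝ} {h : ι → ℝ} {D : Set ℍ} {κ : J → ℝ}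
  {N T : J → ℂ → ℂ}

/-- a finite family of potentials which is permuted by `Δ` -/
structure PotF (Δ : Subgroup (Matrix.SpecialLinearGroup (Fin 2) ℝ)) (κ : J → ℝ)
    (N T : J → ℂ → ℂ) : Prop where
  pot : ∀ j, Pot ⊥ (κ j) (N j) (T j)
  perm : ∀ δ ∈ Δ, ∃ s : Equiv.Perm J, ∀ j, ∀ z ∈ Hc 0,
    N j (mob δ z) = N (s j) z ∧ pb (mob δ) (T j) z = T (s j) z

/-- the sum of the forms -/
noncomputable def JJ (N T : J → ℂ → ℂ) (ε : ℝ) (z : ℂ) : ℂ := ∑ j, jj (N j) (T j) ε z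

theorem JJ_smooth (hP : PotF Δ κ N T) {ε : ℝ} (hε : 0 < ε) : SmS (Hc 0) (JJ N T ε) := by
  have h1 : ContDiffOn ℝ ∞ (fun z => ∑ j, jj (N j) (T j) ε z) (Hc 0) :=
    ContDiffOn.sum fun j _ => SmS_jj (isOpen_Hc 0) (hP.pot j).smN (hP.pot j).smT (hP.pot j).im
      (hP.pot j).nn hε
  exact h1

theorem JJ_inv (hP : PotF Δ κ N T) {ε : ℝ} {δ : Matrix.SpecialLinearGroup (Fin 2) ℝ}
    (hδ : δ ∈ Δ) {z : ℂ} (hz : z ∈ Hc 0) : pb (mob δ) (JJ N T ε) z = JJ N T ε z := by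
  obtain ⟨s, hs⟩ := hP.perm δ hδ
  have hn : Hc 0 ∈ 𝓝 z := (isOpen_Hc 0).mem_nhds hz
  have h0 : ∀ j, pb (mob δ) (jj (N j) (T j) ε) z = jj (N (s j)) (T (s j)) ε z := by
    intro j
    rw [← jj_pb (isOpen_Hc 0) (hP.pot j).smN ((mob_holo δ).differentiableAt hn) (mob_mem δ hz)]
    unfold jj
    have h1 : dz (fun z => N j (mob δ z)) z = dz (N (s j)) z := by
      apply dz_congr
      filter_upwards [hn] with w hw
      exact (hs j w hw).1
    rw [h1, (hs j z hz).2]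
    show _ / (N j (mob δ z) + _) = _
    rw [(hs j z hz).1]
  have h2 : pb (mob δ) (JJ N T ε) z = ∑ j, pb (mob δ) (jj (N j) (T j) ε) z := by
    simp only [pb, JJ, Finset.sum_mul]
  rw [h2, Finset.sum_congr rfl fun j _ => h0 j]
  exact Equiv.sum_comp s fun j => jj (N j) (T j) ε z

theorem rho_JJ (hP : PotF Δ κ N T) {ε : ℝ} (hε : 0 < ε) {z : ℂ} (hz : z ∈ Hc 0) :
    rho (JJ N T ε) z = ∑ j, rho (jj (N j) (T j) ε) z := by
  have h1 : dzb (JJ N T ε) z = ∑ j, dzb (jj (N j) (T j) ε) z :=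
    WirtM_dzb_sum Finset.univ fun j _ => SmS.differentiableAt (isOpen_Hc 0)
      (SmS_jj (isOpen_Hc 0) (hP.pot j).smN (hP.pot j).smT (hP.pot j).im (hP.pot j).nn hε) hz
  rw [rho, h1, re_sum, Finset.mul_sum]
  rfl

theorem JJ_ineq (hP : PotF Δ κ N T) {ε : ℝ} (hε : 0 < ε) {z : ℂ} (hz : z ∈ Hc 0) :
    -((∑ j, κ j) / z.im ^ 2) ≤ rho (JJ N T ε) z := by
  rw [rho_JJ hP hε hz, Finset.sum_div, ← Finset.sum_neg_distrib]
  exact Finset.sum_le_sum fun j _ => (hP.pot j).ineq ε hε z hz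

/-! ### stabilizers -/

/-- the group of all `δ` which preserve `N` and `T` -/
def stab (N T : ℂ → ℂ) : Subgroup (Matrix.SpecialLinearGroup (Fin 2) ℝ) where
  carrier := {δ | ∀ z ∈ Hc 0, N (mob δ z) = N z ∧ pb (mob δ) T z = T z}
  one_mem' := fun z hz => by
    have h1 : mob 1 = fun z : ℂ => z := funext mob_one
    refine ⟨by rw [mob_one], ?_⟩
    rw [pb, h1]
    simp
  mul_mem' := by
    intro a b ha hb z hz
    refine ⟨?_, ?_⟩
    · rw [mob_mul a b hz, (ha _ (mob_mem b hz)).1, (hb z hz).1]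
    · rw [pb_mul a b T hz, pb, (ha _ (mob_mem b hz)).2]
      exact (hb z hz).2
  inv_mem' := by
    intro a ha z hz
    refine ⟨?_, ?_⟩
    · rw [← (ha _ (mob_mem a⁻¹ hz)).1, (mob_inv_mob a hz).2]
    · have h1 : pb (mob (a * a⁻¹)) T z = pb (mob a⁻¹) (pb (mob a) T) z := pb_mul a a⁻¹ T hz
      have h2 : pb (mob (a * a⁻¹)) T z = T z := by
        have h3 : mob 1 = fun z : ℂ => z := funext mob_one
        rw [mul_inv_cancel, pb, h3]
        simp
      rw [h2] at h1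
      rw [h1, pb, pb, (ha _ (mob_mem a⁻¹ hz)).2]

theorem pot_stab {κ : ℝ} {N T : ℂ → ℂ} (h : Pot ⊥ κ N T) : Pot (stab N T) κ N T :=
  ⟨h.kappa, h.smN, h.smT, h.im, h.nn, h.bd, h.ineq, fun δ hδ z hz => (hδ z hz).1,
    fun δ hδ z hz => (hδ z hz).2⟩

theorem perm_pow {π : Matrix.SpecialLinearGroup (Fin 2) ℝ} {s : Equiv.Perm J}
    (hs : ∀ j, ∀ z ∈ Hc 0, N j (mob π z) = N (s j) z ∧ pb (mob π) (T j) z = T (s j) z) (n : ℕ) :
    ∀ j, ∀ z ∈ Hc 0, N j (mob (π ^ n) z) = N ((s ^ n) j) z ∧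
      pb (mob (π ^ n)) (T j) z = T ((s ^ n) j) z := by
  induction n with
  | zero =>
    intro j z hz
    have h1 : mob 1 = fun z : ℂ => z := funext mob_one
    rw [pow_zero, pow_zero, pb, h1]
    simp
  | succ n ih =>
    intro j z hz
    have h1 : (s ^ (n + 1)) j = s ((s ^ n) j) := by
      rw [pow_succ', Equiv.Perm.mul_apply]
    rw [h1]
    refine ⟨?_, ?_⟩
    · rw [pow_succ, mob_mul _ _ hz, (ih j _ (mob_mem π hz)).1, (hs _ z hz).1]
    · rw [pow_succ, pb_mul _ _ _ hz, pb, (ih j _ (mob_mem π hz)).2]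
      exact (hs _ z hz).2

theorem trans_pow (a : ℝ) (n : ℕ) : trans a ^ n = trans (n * a) := by
  induction n with
  | zero =>
    rw [pow_zero]
    ext i j
    fin_cases i <;> fin_cases j <;> simp [SP38.trans]
  | succ n ih =>
    rw [pow_succ, ih]
    ext i j
    fin_cases i <;> fin_cases j <;>
      simp [SP38.trans, Matrix.mul_apply, Fin.sum_univ_two, add_mul, add_comm]

theorem mob_pow_conj {π g : Matrix.SpecialLinearGroup (Fin 2) ℝ} {a : ℝ}
    (hπ : π = g * trans a * g⁻¹ ∨ π = -(g * trans a * g⁻¹)) (n : ℕ) :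
    mob (π ^ n) = mob (g * trans (n * a) * g⁻¹) := by
  have h1 : (g * trans a * g⁻¹) ^ n = g * trans (n * a) * g⁻¹ := by
    rw [conj_pow, trans_pow]
  rcases hπ with h | h
  · rw [h, h1]
  · rw [h]
    rcases Nat.even_or_odd n with hn | hn
    · rw [hn.neg_pow, h1]
    · rw [hn.neg_pow, h1, mob_neg]

/-! ### the flux at a cusp -/

theorem flux_sum {f : J → ℂ → ℂ} (hf : ∀ j, ContinuousOn (f j) (Hc 0)) {a y : ℝ} (hy : 0 < y) :
    flux (fun z => ∑ j, f j z) a y = ∑ j, flux (f j) a y := by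
  have hmem : ∀ x : ℝ, ((x : ℂ) + y * I) ∈ Hc 0 := by
    intro x
    show 0 < ((x : ℂ) + y * I).im
    simpa using hy
  have hcont : ∀ j, Continuous fun x : ℝ => (I * f j (x + y * I)).re := fun j =>
    Complex.continuous_re.comp (continuous_const.mul
      ((hf j).comp_continuous (f := fun x : ℝ => ((x : ℂ) + y * I)) (by fun_prop) hmem))
  unfold flux
  rw [← intervalIntegral.integral_finset_sum fun j _ => (hcont j).intervalIntegrable _ _]
  apply intervalIntegral.integral_congr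
  intro x _
  simp only [Finset.mul_sum, re_sum]

theorem flux_period {f : ℂ → ℂ} (hf : ContinuousOn f (Hc 0)) {a y : ℝ} (hy : 0 < y)
    (hp : ∀ z ∈ Hc 0, f (z + a) = f z) (n : ℕ) : flux f (n * a) y = n * flux f a y := by
  have hmem : ∀ x : ℝ, ((x : ℂ) + y * I) ∈ Hc 0 := by
    intro x
    show 0 < ((x : ℂ) + y * I).im
    simpa using hy
  have hcont : Continuous fun x : ℝ => (I * f (x + y * I)).re :=
    Complex.continuous_re.comp (continuous_const.mul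
      (hf.comp_continuous (f := fun x : ℝ => ((x : ℂ) + y * I)) (by fun_prop) hmem))
  have hper : Function.Periodic (fun x : ℝ => (I * f (x + y * I)).re) a := by
    intro x
    have h1 : (((x + a : ℝ) : ℂ) + y * I) = ((x : ℂ) + y * I) + a := by
      push_cast
      ring
    show (I * f (((x + a : ℝ) : ℂ) + y * I)).re = _
    rw [h1, hp _ (hmem x)]
  have h1 := hper.intervalIntegral_add_zsmul_eq (n : ℤ) 0
    (fun t₁ t₂ => hcont.intervalIntegrable t₁ t₂)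
  unfold flux
  simp only [zsmul_eq_mul, Int.cast_natCast, zero_add] at h1
  exact h1

theorem JJ_flux (hc : IsCurve Δ σ h D) (hP : PotF Δ κ N T)
    (hgr : ∀ i j, ∃ (C : ℕ) (Y₀ : ℝ), ∀ ζ : ℂ, 0 < ζ.im → Y₀ ≤ ζ.im →
      (N j (mob (σ i) ζ)).re ≤ ζ.im ^ C) {ε : ℝ} (hε : 0 < ε) (i : ι) {Y : ℝ} (hY : 0 < Y) :
    flux (pb (mob (σ i)) (JJ N T ε)) (h i) Y ≤ h i * (∑ j, κ j) / Y := by
  obtain ⟨hh, hw⟩ := hc.width i
  obtain ⟨π, hπΔ, hπ⟩ : ∃ π ∈ Δ, π = σ i * trans (h i) * (σ i)⁻¹ ∨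
      π = -(σ i * trans (h i) * (σ i)⁻¹) := by
    rcases hw with h1 | h1
    · exact ⟨_, h1, Or.inl rfl⟩
    · exact ⟨_, h1, Or.inr rfl⟩
  obtain ⟨s, hs⟩ := hP.perm π hπΔ
  set M : ℕ := orderOf s with hM
  have hM0 : 0 < M := orderOf_pos s
  have hsM : s ^ M = 1 := pow_orderOf_eq_one s
  have hM0' : (0 : ℝ) < M := by exact_mod_cast hM0
  have hΩ := isOpen_Hc 0
  have hsm : ∀ j, SmS (Hc 0) (jj (N j) (T j) ε) := fun j =>
    SmS_jj hΩ (hP.pot j).smN (hP.pot j).smT (hP.pot j).im (hP.pot j).nn hε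
  have hsp : ∀ j, SmS (Hc 0) (pb (mob (σ i)) (jj (N j) (T j) ε)) := fun j =>
    SmS_pb hΩ hΩ (hsm j) (mob_holo _) fun z hz => mob_mem _ hz
  have h1 : ∀ j, flux (pb (mob (σ i)) (jj (N j) (T j) ε)) (M * h i) Y ≤ M * h i * κ j / Y := by
    intro j
    obtain ⟨C, Y₀, hCY⟩ := hgr i j
    have hst : π ^ M ∈ stab (N j) (T j) := by
      intro z hz
      have h2 := perm_pow hs M j z hz
      rw [hsM] at h2
      exact h2
    exact cusp_flux (pot_stab (hP.pot j)) (by positivity) hst (mob_pow_conj hπ M) hCY hε hY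
  have h2 : flux (pb (mob (σ i)) (JJ N T ε)) (M * h i) Y =
      ∑ j, flux (pb (mob (σ i)) (jj (N j) (T j) ε)) (M * h i) Y := by
    rw [← flux_sum (fun j => (hsp j).continuousOn) hY]
    congr 1
    funext z
    simp only [pb, JJ, Finset.sum_mul]
  have h3 : flux (pb (mob (σ i)) (JJ N T ε)) (M * h i) Y =
      M * flux (pb (mob (σ i)) (JJ N T ε)) (h i) Y := by
    refine flux_period (SmS_pb hΩ hΩ (JJ_smooth hP hε) (mob_holo _)
      fun z hz => mob_mem _ hz).continuousOn hY (fun z hz => ?_) M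
    have hg : mob π = mob (σ i * trans (h i) * (σ i)⁻¹) := by
      rcases hπ with h4 | h4
      · rw [h4]
      · rw [h4, mob_neg]
    have h5 : pb (mob (σ i * trans (h i) * (σ i)⁻¹ * σ i)) (JJ N T ε) z =
      pb (mob (σ i)) (pb (mob (σ i * trans (h i) * (σ i)⁻¹)) (JJ N T ε)) z := pb_mul _ _ _ hz
    rw [inv_mul_cancel_right, pb_mul _ _ _ hz] at h5
    have h6 : pb (mob (σ i)) (pb (mob (σ i * trans (h i) * (σ i)⁻¹)) (JJ N T ε)) z =
        pb (mob (σ i)) (JJ N T ε) z := by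
      rw [← hg, pb, JJ_inv hP hπΔ (mob_mem (σ i) hz), pb]
    have h7 : pb (mob (trans (h i))) (pb (mob (σ i)) (JJ N T ε)) z =
        pb (mob (σ i)) (JJ N T ε) (z + h i) := by
      rw [pb]
      have : mob (trans (h i)) = fun z => z + ((h i : ℝ) : ℂ) := funext fun z => mob_trans (h i) z
      rw [this]
      simp
    rw [← h7, h5, h6]
  have h4 : (M : ℝ) * flux (pb (mob (σ i)) (JJ N T ε)) (h i) Y ≤
      M * (h i * (∑ j, κ j) / Y) := by
    rw [← h3, h2]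
    refine (Finset.sum_le_sum fun j _ => h1 j).trans (le_of_eq ?_)
    rw [← Finset.sum_div, ← Finset.mul_sum]
    ring
  exact le_of_mul_le_mul_left h4 hM0'

/-! ### the number of zeros -/

theorem cntF_tol (hc : IsCurve Δ σ h D) (hP : PotF Δ κ N T)
    (hgr : ∀ i j, ∃ (C : ℕ) (Y₀ : ℝ), ∀ ζ : ℂ, 0 < ζ.im → Y₀ ≤ ζ.im →
      (N j (mob (σ i) ζ)).re ≤ ζ.im ^ C)
    (hiso : ∀ j, ∀ z₀ : ℂ, 0 < z₀.im → ∀ᶠ z in 𝓝[≠] z₀, N j z ≠ 0)
    (Z : Finset ℍ) (hZ0 : ∀ z ∈ Z, ∃ j, N j (z : ℂ) = 0)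
    (hZ : ∀ z ∈ Z, ∀ z' ∈ Z, ∀ δ ∈ Δ, δ • z = z' → z = z') {tol : ℝ} (htol : 0 < tol) :
    (Z.card : ℝ) * (Real.pi - tol) ≤ (∑ j, κ j) * (volume D).toReal := by
  classical
  obtain ⟨r₀, hr₀, hrad⟩ := hc.exists_radius Z hZ
  have hm : ∀ z ∈ Z, ∃ j, N j (z : ℂ) = 0 ∧ ∃ r, 0 < r ∧ r < r₀ ∧ r < (z : ℂ).im ∧ ∃ ε₀, 0 < ε₀ ∧
      ∀ ε, 0 < ε → ε < ε₀ →
      Real.pi - tol ≤ ∫ w in Metric.ball (z : ℂ) r, rho (jj (N j) (T j) ε) w := fun z hz => by
    obtain ⟨j, hj⟩ := hZ0 z hz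
    exact ⟨j, hj, zero_mass (hP.pot j) z.im_pos hj (hiso j _ z.im_pos) htol hr₀⟩
  choose! j0 _hj0 r hr0 hrr hrim ε₀ hε₀ hmass using hm
  have hev : ∀ᶠ ε : ℝ in 𝓝[>] 0, ∀ z ∈ Z, ε < ε₀ z :=
    (Filter.eventually_all_finset Z).2 fun z hz =>
      nhdsWithin_le_nhds (Iio_mem_nhds (hε₀ z hz))
  obtain ⟨ε, hεlt, hεpos⟩ := (hev.and self_mem_nhdsWithin).exists
  have hε : 0 < ε := hεpos
  set S : Set ℂ := ⋃ z ∈ Z, Metric.ball (z : ℂ) (r z) with hSdef
  have hcb : ∀ z ∈ Z, Metric.closedBall (z : ℂ) (r z) ⊆ Hc 0 := fun z hz =>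
    cnt_closedBall (hrim z hz)
  have hjs : SmS (Hc 0) (JJ N T ε) := JJ_smooth hP hε
  have hsm : ∀ j, SmS (Hc 0) (jj (N j) (T j) ε) := fun j =>
    SmS_jj (isOpen_Hc 0) (hP.pot j).smN (hP.pot j).smT (hP.pot j).im (hP.pot j).nn hε
  have hρc1 : ∀ j, ContinuousOn (rho (jj (N j) (T j) ε)) (Hc 0) := fun j =>
    continuousOn_const.mul (continuous_re.comp_continuousOn
      (SmS.dzb (isOpen_Hc 0) (hsm j)).continuousOn)
  have hρc : ContinuousOn (rho (JJ N T ε)) (Hc 0) :=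
    continuousOn_const.mul (continuous_re.comp_continuousOn
      (SmS.dzb (isOpen_Hc 0) hjs).continuousOn)
  have hκ0 : 0 ≤ ∑ j, κ j := Finset.sum_nonneg fun j _ => (hP.pot j).kappa
  have hkc : ContinuousOn (fun z : ℂ => (∑ j, κ j) / z.im ^ 2) (Hc 0) :=
    continuousOn_const.div (continuous_im.continuousOn.pow 2)
      fun z hz => (pow_pos (show 0 < z.im from hz) 2).ne'
  have key : ∀ z ∈ Z, ∀ z' ∈ Z, ∀ δ ∈ Δ, ∀ w : ℂ, w ∈ Metric.ball (z : ℂ) (r z) →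
      mob δ w ∈ Metric.ball (z' : ℂ) (r z') → z = z' ∧ δ = 1 := by
    intro z hz z' hz' δ hδ w hw hw'
    have hwH : 0 < w.im := hcb z hz (Metric.ball_subset_closedBall hw)
    refine hrad z hz z' hz' δ hδ ⟨w, hwH⟩ (δ • ⟨w, hwH⟩) ?_ ?_ rfl
    · have h1 : ‖w - z‖ < r z := by
        rw [← dist_eq_norm]
        exact hw
      exact h1.trans (hrr z hz)
    · rw [← mob_coe]
      have h1 : ‖mob δ w - z'‖ < r z' := by
        rw [← dist_eq_norm]
        exact hw'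
      exact h1.trans (hrr z' hz')
  have h1 := global_ineq hc (j := JJ N T ε) hjs (fun δ hδ z hz => JJ_inv hP hδ hz) hκ0
    (fun z hz => JJ_ineq hP hε hz) (fun i Y hY => JJ_flux hc hP hgr hε i (by linarith)) (S := S)
    (Finset.measurableSet_biUnion _ fun z _ => Metric.isOpen_ball.measurableSet)
    ⟨⋃ z ∈ Z, Metric.closedBall (z : ℂ) (r z),
      Z.isCompact_biUnion fun z _ => isCompact_closedBall _ _,
      Set.iUnion₂_subset hcb, Set.iUnion₂_mono fun z _ => Metric.ball_subset_closedBall⟩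
    (fun δ hδ w hw hw' => by
      simp only [hSdef, Set.mem_iUnion] at hw hw'
      obtain ⟨z, hz, hw⟩ := hw
      obtain ⟨z', hz', hw'⟩ := hw'
      exact (key z hz z' hz' δ hδ w hw hw').2)
  refine le_trans ?_ h1
  rw [hSdef, integral_biUnion_finset Z (fun z _ => Metric.isOpen_ball.measurableSet) ?_ ?_]
  · rw [← nsmul_eq_mul]
    refine Finset.card_nsmul_le_sum Z _ _ fun z hz => ?_
    refine (hmass z hz ε hε (hεlt z hz)).trans ?_
    refine setIntegral_mono_on ?_ ?_ Metric.isOpen_ball.measurableSet fun w hw => ?_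
    · exact (((hρc1 (j0 z hz)).mono (hcb z hz)).integrableOn_compact
        (isCompact_closedBall _ _)).mono_set Metric.ball_subset_closedBall
    · exact (((hρc.add hkc).mono (hcb z hz)).integrableOn_compact
        (isCompact_closedBall _ _)).mono_set Metric.ball_subset_closedBall
    · have hwH : w ∈ Hc 0 := hcb z hz (Metric.ball_subset_closedBall hw)
      rw [rho_JJ hP hε hwH, Finset.sum_div, ← Finset.sum_add_distrib]
      have h2 : ∀ j, 0 ≤ rho (jj (N j) (T j) ε) w + κ j / w.im ^ 2 := fun j => by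
        have := (hP.pot j).ineq ε hε w hwH
        linarith
      have h3 := Finset.single_le_sum (f := fun j => rho (jj (N j) (T j) ε) w + κ j / w.im ^ 2)
        (fun j _ => h2 j) (Finset.mem_univ (j0 z hz))
      have h4 : 0 ≤ κ (j0 z hz) / w.im ^ 2 := div_nonneg (hP.pot _).kappa (sq_nonneg _)
      linarith
  · intro z hz z' hz' hne
    rw [Function.onFun, Set.disjoint_left]
    intro w hw hw'
    exact hne (key z hz z' hz' 1 Δ.one_mem w hw (by rw [mob_one]; exact hw')).1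
  · intro z hz
    exact (((hρc.add hkc).mono (hcb z hz)).integrableOn_compact
      (isCompact_closedBall _ _)).mono_set Metric.ball_subset_closedBall

/-- the number of inequivalent points at which a member of the family vanishes -/
theorem zerosF_le (hc : IsCurve Δ σ h D) (hP : PotF Δ κ N T)
    (hgr : ∀ i j, ∃ (C : ℕ) (Y₀ : ℝ), ∀ ζ : ℂ, 0 < ζ.im → Y₀ ≤ ζ.im →
      (N j (mob (σ i) ζ)).re ≤ ζ.im ^ C)
    (hiso : ∀ j, ∀ z₀ : ℂ, 0 < z₀.im → ∀ᶠ z in 𝓝[≠] z₀, N j z ≠ 0)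
    (Z : Finset ℍ) (hZ0 : ∀ z ∈ Z, ∃ j, N j (z : ℂ) = 0)
    (hZ : ∀ z ∈ Z, ∀ z' ∈ Z, ∀ δ ∈ Δ, δ • z = z' → z = z') :
    (Z.card : ℝ) * Real.pi ≤ (∑ j, κ j) * (volume D).toReal := by
  refine le_of_forall_pos_le_add fun η hη => ?_
  have hpos : 0 < (Z.card : ℝ) + 1 := by positivity
  have h1 := cntF_tol hc hP hgr hiso Z hZ0 hZ (tol := η / (Z.card + 1)) (by positivity)
  have h2 : (Z.card : ℝ) * (η / (Z.card + 1)) ≤ η := by
    rw [mul_div_assoc', div_le_iff₀ hpos]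
    nlinarith
  linarith

end ZL19
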