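import Pool.Agent.LibZL19.Quo

/-! Polarizations: the complement of a maximal ideal. -/

open Matrix

set_option linter.unusedSectionVars false

namespace ZL19

variable {n : Type} [Fintype n] [DecidableEq n] {wt : n → ℤ} {X : Type}
  {P Q : X → Matrix n n ℂ} {G : Matrix n n ℚ}

theorem toC_one : toC (1 : Matrix n n ℚ) = 1 := by
  ext i j
  simp [toC, Matrix.one_apply, apply_ite]

theorem toC_zero : toC (0 : Matrix n n ℚ) = 0 := by
  ext i j
  simp [toC]

theorem toC_transpose (A : Matrix n n ℚ) : toC Aᵀ = (toC A)ᵀ := by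
  ext i j
  simp [toC]

theorem fm_transpose (φ : ℂ →ₗ[ℚ] ℚ) (x : Matrix n n ℂ) : fm φ xᵀ = (fm φ x)ᵀ := by
  ext i j
  simp [fm]

/-- a block diagonal matrix commutes with the weights -/
theorem YY_comm {A : Matrix n n ℚ} (hA : gr wt A = A) : YY wt * A = A * YY wt := by
  ext i j
  rw [YY, Matrix.diagonal_mul, Matrix.mul_diagonal]
  by_cases h : wt i = wt j
  · rw [h, mul_comm]
  · have h1 : A i j = 0 := by
      have := congrFun (congrFun hA i) j
      rw [gr, if_neg h] at this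
      exact this.symm
    rw [h1]
    ring

theorem gr_gr {R : Type*} [Zero R] (A : Matrix n n R) : gr wt (gr wt A) = gr wt A := by
  ext i j
  simp only [gr]
  split_ifs <;> rfl

/-- `A` acts on the graded pieces by similitudes -/
def Sim (wt : n → ℤ) (G A : Matrix n n ℚ) : Prop :=
  ∃ c : ℚ, (gr wt A)ᵀ * G + G * gr wt A = c • (YY wt * G)

theorem Del.sim (h : Del wt P Q) (hG : gr wt G = G)
    (hP : ∀ z, (gr wt (P z))ᵀ * toC G + toC G * gr wt (P z) = toC (YY wt * G))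
    (hQ : ∀ z, (gr wt (Q z))ᵀ * toC G + toC G * gr wt (Q z) = toC (YY wt * G)) :
    ∀ A ∈ gen P Q, Sim wt G A := by
  have hfm : ∀ x : Matrix n n ℂ, (gr wt x)ᵀ * toC G + toC G * gr wt x = toC (YY wt * G) →
      ∀ φ : ℂ →ₗ[ℚ] ℚ, Sim wt G (fm φ x) := by
    intro x hx φ
    refine ⟨φ 1, ?_⟩
    have h1 := congrArg (fm φ) hx
    have h2 : fm φ (toC (YY wt * G)) = φ 1 • (YY wt * G) := by
      have := fm_smul_toC φ 1 (YY wt * G)
      rwa [one_smul] at this
    rw [fm_add, fm_mul_toC, fm_toC_mul, fm_transpose, gr_fm, h2] at h1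
    exact h1
  obtain ⟨K, hK⟩ : ∃ K : Submodule ℚ (Matrix n n ℚ), ∀ A, A ∈ K ↔ A ∈ WW wt 0 ∧ Sim wt G A := by
    refine ⟨⟨⟨⟨{A | A ∈ WW wt 0 ∧ Sim wt G A}, ?_⟩, ?_⟩, ?_⟩, fun A => Iff.rfl⟩
    · rintro A B ⟨hA, c, hc⟩ ⟨hB, d, hd⟩
      refine ⟨Submodule.add_mem _ hA hB, c + d, ?_⟩
      rw [gr_add, Matrix.transpose_add, add_mul, mul_add, add_smul, ← hc, ← hd]
      abel
    · refine ⟨Submodule.zero_mem _, 0, ?_⟩
      have : gr wt (0 : Matrix n n ℚ) = 0 := by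
        ext i j
        simp [gr]
      simp [this]
    · rintro q A ⟨hA, c, hc⟩
      refine ⟨Submodule.smul_mem _ _ hA, q * c, ?_⟩
      have : gr wt (q • A) = q • gr wt A := by
        ext i j
        simp [gr]
      rw [this, Matrix.transpose_smul, smul_mul_assoc, mul_smul_comm, ← smul_add, hc, smul_smul]
  have hle : gen P Q ≤ K := by
    refine hull_le ?_ ?_
    · intro A hA B hB
      obtain ⟨hA0, c, hc⟩ := (hK A).1 hA
      obtain ⟨hB0, d, hd⟩ := (hK B).1 hB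
      refine (hK _).2 ⟨LieC_WW0 A hA0 B hB0, 0, ?_⟩
      have e : gr wt (A * B - B * A) = gr wt A * gr wt B - gr wt B * gr wt A := by
        rw [gr_sub, gr_mul_WW hA0 hB0, gr_mul_WW hB0 hA0]
      set a := gr wt A with ha
      set b := gr wt B with hb
      have ha' : YY wt * a = a * YY wt := YY_comm (gr_gr A)
      have hb' : YY wt * b = b * YY wt := YY_comm (gr_gr B)
      have hta : aᵀ * YY wt = YY wt * aᵀ := by
        have := congrArg Matrix.transpose ha'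
        rw [Matrix.transpose_mul, Matrix.transpose_mul] at this
        rwa [YY, Matrix.diagonal_transpose] at this
      have htb : bᵀ * YY wt = YY wt * bᵀ := by
        have := congrArg Matrix.transpose hb'
        rw [Matrix.transpose_mul, Matrix.transpose_mul] at this
        rwa [YY, Matrix.diagonal_transpose] at this
      have hGY : YY wt * G = G * YY wt := YY_comm hG
      have hc' : aᵀ * G = c • (YY wt * G) - G * a := eq_sub_of_add_eq hc
      have hd' : bᵀ * G = d • (YY wt * G) - G * b := eq_sub_of_add_eq hd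
      rw [e, Matrix.transpose_sub, Matrix.transpose_mul, Matrix.transpose_mul, zero_smul]
      have e1 : bᵀ * aᵀ * G = (c * d) • (YY wt * (YY wt * G)) - c • (YY wt * G * b) -
          (d • (YY wt * G) - G * b) * a := by
        rw [mul_assoc, hc', mul_sub, mul_smul_comm, ← mul_assoc bᵀ, htb, mul_assoc (YY wt), hd',
          mul_sub, mul_smul_comm, smul_sub, smul_smul, ← mul_assoc bᵀ, hd', ← mul_assoc (YY wt) G b]
      have e2 : aᵀ * bᵀ * G = (d * c) • (YY wt * (YY wt * G)) - d • (YY wt * G * a) -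
          (c • (YY wt * G) - G * a) * b := by
        rw [mul_assoc, hd', mul_sub, mul_smul_comm, ← mul_assoc aᵀ, hta, mul_assoc (YY wt), hc',
          mul_sub, mul_smul_comm, smul_sub, smul_smul, ← mul_assoc aᵀ, hc', ← mul_assoc (YY wt) G a]
      rw [sub_mul, e1, e2, mul_comm d c, sub_mul, sub_mul, smul_mul_assoc, smul_mul_assoc, mul_sub,
        mul_assoc G a b, mul_assoc G b a]
      abel
    · rintro x (⟨z, rfl⟩ | ⟨z, rfl⟩)
      · refine mem_cx_iff.2 fun φ => (hK _).2 ⟨?_, hfm _ (hP z) φ⟩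
        exact mem_cx_iff.1 (mem_cx_WW.2 (h.triP z)) φ
      · refine mem_cx_iff.2 fun φ => (hK _).2 ⟨?_, hfm _ (hQ z) φ⟩
        exact mem_cx_iff.1 (mem_cx_WW.2 (h.triQ z)) φ
  intro A hA
  exact ((hK A).1 (hle hA)).2

/-- the form on endomorphisms -/
noncomputable def BF (G : Matrix n n ℚ) : Matrix n n ℚ →ₗ[ℚ] Matrix n n ℚ →ₗ[ℚ] ℚ :=
  LinearMap.mk₂ ℚ (fun A B => Matrix.trace (Aᵀ * G * B * G⁻¹))
    (by intro A A' B; simp [Matrix.add_mul])
    (by intro c A B; simp)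
    (by intro A B B'; simp [Matrix.mul_add, Matrix.add_mul])
    (by intro c A B; simp)

theorem BF_apply (A B : Matrix n n ℚ) : BF G A B = Matrix.trace (Aᵀ * G * B * G⁻¹) := rfl

/-- the complexified form -/
theorem BF_toC (hGu : IsUnit G) (A B : Matrix n n ℚ) :
    Matrix.trace ((toC A)ᵀ * toC G * toC B * toC G⁻¹) = ((BF G A B : ℚ) : ℂ) := by
  have _ := hGu
  rw [← toC_transpose, ← toC_mul, ← toC_mul, ← toC_mul, BF_apply, Matrix.trace, Matrix.trace,
    Rat.cast_sum]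
  rfl

/-- invariance of the form -/
theorem BF_inv (hG : gr wt G = G) (hGu : IsUnit G) {A : Matrix n n ℚ} (hA : Sim wt G A) {w : ℤ}
    {x y : Matrix n n ℚ} (hy : sy wt w y = y)
    (h : BF G y x = 0) (h' : BF G (gr wt A * y - y * gr wt A) x = 0)
    (hx : sy wt w x = x) : BF G y (gr wt A * x - x * gr wt A) = 0 := by
  have _ := hy
  obtain ⟨c, hc⟩ := hA
  set a := gr wt A with ha
  have hdet : IsUnit G.det := (Matrix.isUnit_iff_isUnit_det G).1 hGu
  have hG1 : G⁻¹ * G = 1 := Matrix.nonsing_inv_mul G hdet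
  have hG2 : G * G⁻¹ = 1 := Matrix.mul_nonsing_inv G hdet
  have hGY : YY wt * G = G * YY wt := YY_comm hG
  have hc' : aᵀ * G = c • (YY wt * G) - G * a := eq_sub_of_add_eq hc
  have hc2 : G⁻¹ * aᵀ = c • (G⁻¹ * YY wt) - a * G⁻¹ := by
    have e1 : G⁻¹ * (aᵀ * G) * G⁻¹ = G⁻¹ * aᵀ := by
      rw [← mul_assoc, mul_assoc (G⁻¹ * aᵀ), hG2, mul_one]
    have e2 : G⁻¹ * (c • (YY wt * G) - G * a) * G⁻¹ = c • (G⁻¹ * YY wt) - a * G⁻¹ := by
      rw [mul_sub, mul_smul_comm, sub_mul, smul_mul_assoc, ← mul_assoc G⁻¹ G a, hG1, one_mul,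
        ← mul_assoc G⁻¹ (YY wt) G, mul_assoc (G⁻¹ * YY wt) G, hG2, mul_one]
    rw [← e1, hc', e2]
  have hxw : YY wt * x - x * YY wt = (w : ℚ) • x := by
    ext i j
    rw [YY_br, Matrix.smul_apply, smul_eq_mul]
    by_cases h1 : wt i - wt j = w
    · rw [h1]
    · have h2 : x i j = 0 := by
        have := congrFun (congrFun hx i) j
        rw [sy_apply, if_neg h1] at this
        exact this.symm
      rw [h2]
      ring
  -- the identity
  have key : BF G (a * y - y * a) x + BF G y (a * x - x * a) = (c * w) * BF G y x := by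
    rw [BF_apply, BF_apply, BF_apply, Matrix.transpose_sub, Matrix.transpose_mul,
      Matrix.transpose_mul]
    have t1 : Matrix.trace ((yᵀ * aᵀ - aᵀ * yᵀ) * G * x * G⁻¹) =
        Matrix.trace (yᵀ * (aᵀ * G) * x * G⁻¹) - Matrix.trace (yᵀ * G * x * (G⁻¹ * aᵀ)) := by
      rw [sub_mul, sub_mul, sub_mul, Matrix.trace_sub]
      congr 1
      · simp only [mul_assoc]
      · have : aᵀ * yᵀ * G * x * G⁻¹ = aᵀ * (yᵀ * G * x * G⁻¹) := by simp only [mul_assoc]
        rw [this, Matrix.trace_mul_comm]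
        simp only [mul_assoc]
    rw [t1, hc', hc2]
    have t2 : yᵀ * (c • (YY wt * G) - G * a) * x * G⁻¹ =
        c • (yᵀ * G * (YY wt * x) * G⁻¹) - yᵀ * G * (a * x) * G⁻¹ := by
      rw [mul_sub, sub_mul, sub_mul, mul_smul_comm, smul_mul_assoc, smul_mul_assoc, hGY]
      simp only [mul_assoc]
    have t3 : yᵀ * G * x * (c • (G⁻¹ * YY wt) - a * G⁻¹) =
        c • (yᵀ * G * (x * YY wt) * G⁻¹) - yᵀ * G * (x * a) * G⁻¹ := by
      have hGY' : G⁻¹ * YY wt = YY wt * G⁻¹ := by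
        have e1 : G⁻¹ * (YY wt * G) * G⁻¹ = G⁻¹ * YY wt := by
          rw [← mul_assoc, mul_assoc (G⁻¹ * YY wt), hG2, mul_one]
        have e2 : G⁻¹ * (G * YY wt) * G⁻¹ = YY wt * G⁻¹ := by
          rw [← mul_assoc G⁻¹ G, hG1, one_mul]
        rw [← e1, hGY, e2]
      rw [mul_sub, mul_smul_comm, hGY']
      simp only [mul_assoc]
    rw [t2, t3, Matrix.trace_sub, Matrix.trace_sub, Matrix.trace_smul, Matrix.trace_smul,
      mul_sub (yᵀ * G), sub_mul, Matrix.trace_sub]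
    have t4 : Matrix.trace (yᵀ * G * (YY wt * x) * G⁻¹) - Matrix.trace (yᵀ * G * (x * YY wt) * G⁻¹) =
        (w : ℚ) * Matrix.trace (yᵀ * G * x * G⁻¹) := by
      rw [← Matrix.trace_sub, ← sub_mul, ← mul_sub, hxw, mul_smul_comm, smul_mul_assoc,
        Matrix.trace_smul, smul_eq_mul]
    simp only [smul_eq_mul]
    linear_combination c * t4
  rw [h, h', mul_zero, zero_add] at key
  exact key

/-- the positivity of the polarization of `Gr_w End` at a point, in the form needed here -/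
def Pos (wt : n → ℤ) (G : Matrix n n ℚ) (D : Matrix n n ℂ) : Prop :=
  ∀ (w : ℤ) (x : Matrix n n ℂ) (a : ℂ), (∀ i j, wt i - wt j ≠ w → x i j = 0) → x ≠ 0 →
    D * x - x * D = a • x → Matrix.trace (xᵀ * toC G * cjm x * toC G⁻¹) ≠ 0

theorem BF_cx (hGu : IsUnit G) {L M : Submodule ℚ (Matrix n n ℚ)}
    (h : ∀ y ∈ L, ∀ x ∈ M, BF G y x = 0) {y x : Matrix n n ℂ} (hy : y ∈ cx L) (hx : x ∈ cx M) :
    Matrix.trace (yᵀ * toC G * x * toC G⁻¹) = 0 := by
  induction hy using Submodule.span_induction with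
  | mem y hy =>
    obtain ⟨Y, hY, rfl⟩ := hy
    induction hx using Submodule.span_induction with
    | mem x hx =>
      obtain ⟨A, hA, rfl⟩ := hx
      have := BF_toC hGu Y A
      rw [h Y hY A hA, Rat.cast_zero] at this
      exact this
    | zero => simp
    | add x x' _ _ hx hx' =>
      rw [mul_add, add_mul, Matrix.trace_add, hx, hx', add_zero]
    | smul c x _ hx =>
      rw [mul_smul_comm, smul_mul_assoc, Matrix.trace_smul, hx, smul_zero]
  | zero => simp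
  | add y y' _ _ hy hy' =>
    rw [Matrix.transpose_add, add_mul, add_mul, add_mul, Matrix.trace_add, hy, hy', add_zero]
  | smul c y _ hy =>
    rw [Matrix.transpose_smul, smul_mul_assoc, smul_mul_assoc, smul_mul_assoc, Matrix.trace_smul,
      hy, smul_zero]

theorem mem_cx_sy {w : ℤ} {L : Submodule ℚ (Matrix n n ℚ)} (hL : ∀ x ∈ L, sy wt w x = x)
    {x : Matrix n n ℂ} (hx : x ∈ cx L) : ∀ i j, wt i - wt j ≠ w → x i j = 0 := by
  intro i j hij
  by_contra hne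
  obtain ⟨φ, hφ⟩ := exists_ne hne
  have h1 := mem_cx_iff.1 hx φ
  have h2 := congrFun (congrFun (hL _ h1) i) j
  rw [sy_apply, if_neg hij] at h2
  exact hφ h2.symm

/-- the form is non degenerate on spaces stable under a Hodge operator -/
theorem BF_nondeg (hGu : IsUnit G) {D : Matrix n n ℂ} (hpos : Pos wt G D) {w : ℤ}
    {R : Submodule ℚ (Matrix n n ℚ)} (hR : ∀ x ∈ R, sy wt w x = x)
    (hst : ∀ x ∈ cx R, D * x - x * D ∈ cx R) (h0 : ∀ y ∈ R, ∀ x ∈ R, BF G y x = 0) : R = ⊥ := by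
  rw [eq_bot_iff]
  intro r hr
  rw [Submodule.mem_bot]
  by_contra hne
  have hnt : Nontrivial (cx R) := by
    refine ⟨⟨0, ⟨toC r, toC_mem_cx hr⟩, fun h => hne ?_⟩⟩
    have h1 : toC r = 0 := (congrArg Subtype.val h).symm
    have h2 : toC r ∈ cx (⊥ : Submodule ℚ (Matrix n n ℚ)) := by
      rw [h1]
      exact Submodule.zero_mem _
    exact (Submodule.mem_bot ℚ).1 (toC_mem_cx_iff.1 h2)
  let f : Module.End ℂ (cx R) :=
    { toFun := fun x => ⟨D * x.1 - x.1 * D, hst x.1 x.2⟩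
      map_add' := by
        intro x y
        apply Subtype.ext
        show D * (x.1 + y.1) - (x.1 + y.1) * D = (D * x.1 - x.1 * D) + (D * y.1 - y.1 * D)
        rw [mul_add, add_mul]
        abel
      map_smul' := by
        intro c x
        apply Subtype.ext
        show D * (c • x.1) - (c • x.1) * D = c • (D * x.1 - x.1 * D)
        rw [mul_smul_comm, smul_mul_assoc, smul_sub] }
  obtain ⟨a, ha⟩ := Module.End.exists_eigenvalue f
  obtain ⟨x, hx⟩ := ha.exists_hasEigenvector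
  have hx1 : D * x.1 - x.1 * D = a • x.1 := congrArg Subtype.val hx.apply_eq_smul
  have hx0 : x.1 ≠ 0 := fun h => hx.2 (Subtype.ext h)
  exact hpos w x.1 a (mem_cx_sy hR x.2) hx0 hx1 (BF_cx hGu h0 x.2 (cjm_mem x.2))

/-- The quotient `u / N` by a maximal ideal in coordinates, realized in `Gr^W_w End`. -/
theorem Del.quo (h : Del wt P Q) (z₀ : X) (hG : gr wt G = G) (hGu : IsUnit G)
    (hP : ∀ z, (gr wt (P z))ᵀ * toC G + toC G * gr wt (P z) = toC (YY wt * G))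
    (hQ : ∀ z, (gr wt (Q z))ᵀ * toC G + toC G * gr wt (Q z) = toC (YY wt * G))
    (hpos : Pos wt G (gr wt (P z₀))) {N : Submodule ℚ (Matrix n n ℚ)}
    (hN : MaxI (gen P Q) (uu wt (gen P Q)) N) :
    ∃ (w : ℤ) (r : ℕ) (lam : Matrix n n ℚ →ₗ[ℚ] (Fin r → ℚ))
      (rho : Matrix n n ℚ →ₗ[ℚ] Matrix (Fin r) (Fin r) ℚ) (j : (Fin r → ℚ) →ₗ[ℚ] Matrix n n ℚ),
      w < 0 ∧ 0 < r ∧ (∀ v, ∃ x ∈ uu wt (gen P Q), lam x = v) ∧
      (∀ x ∈ uu wt (gen P Q), lam x = 0 ↔ x ∈ N) ∧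
      (∀ A ∈ gen P Q, ∀ x ∈ uu wt (gen P Q), lam (A * x - x * A) = rho A *ᵥ lam x) ∧
      (∀ A ∈ uu wt (gen P Q), rho A = 0) ∧
      (∀ A ∈ gen P Q, gr wt A = YY wt → rho A = (w : ℚ) • 1) ∧ Function.Injective j ∧
      (∀ v a b, wt a - wt b ≠ w → j v a b = 0) ∧
      (∀ v, j v ∈ (uu wt (gen P Q) ⊓ WW wt w).map (sy wt w)) ∧
      (∀ A ∈ gen P Q, ∀ v, j (rho A *ᵥ v) = gr wt A * j v - j v * gr wt A) ∧
      (∀ x ∈ uu wt (gen P Q) ⊓ WW wt w, ∃ y ∈ N ⊓ WW wt w, sy wt w x - j (lam x) = sy wt w y) ∧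
      (∀ y ∈ N ⊓ WW wt w, ∀ v, BF G (sy wt w y) (j v) = 0) ∧
      (∀ x ∈ N ⊓ WW wt w, (∀ y ∈ N ⊓ WW wt w, BF G (sy wt w y) (sy wt w x) = 0) →
        sy wt w x = 0) ∧ uu wt (gen P Q) ≤ N ⊔ (uu wt (gen P Q) ⊓ WW wt w) := by
  obtain ⟨t, ht, htY, -⟩ := h.exists_t z₀
  have htg : t ∈ gen P Q := mt_le_gen z₀ ht
  obtain ⟨w, hw0, hw, hwN, hwu⟩ := hN.weight h.gen_stb inf_le_right htg (h.gen_le htg) htY
    fun A hA => h.t_comm htg htY hA
  have hsim := h.sim hG hP hQ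
  have hsysy : ∀ x : Matrix n n ℚ, sy wt w (sy wt w x) = sy wt w x := by
    intro x
    ext i j
    simp only [sy_apply]
    split_ifs <;> rfl
  set Uw := (uu wt (gen P Q) ⊓ WW wt w).map (sy wt w) with hUw
  set Nw := (N ⊓ WW wt w).map (sy wt w) with hNw
  have hUs : ∀ x ∈ Uw, sy wt w x = x := by
    rintro _ ⟨x, _, rfl⟩
    exact hsysy x
  have hNU : Nw ≤ Uw := Submodule.map_mono (inf_le_inf_right _ hN.le)
  have hstU : ∀ A ∈ gen P Q, ∀ x ∈ Uw, gr wt A * x - x * gr wt A ∈ Uw := by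
    rintro A hA _ ⟨x, hx, rfl⟩
    refine ⟨A * x - x * A, ⟨h.gen_stb A hA x hx.1, ?_⟩, sy_br (h.gen_le hA) hx.2⟩
    have := WW_br (h.gen_le hA) hx.2
    rwa [zero_add] at this
  have hstN : ∀ A ∈ gen P Q, ∀ x ∈ Nw, gr wt A * x - x * gr wt A ∈ Nw := by
    rintro A hA _ ⟨x, hx, rfl⟩
    refine ⟨A * x - x * A, ⟨hN.stb A hA x hx.1, ?_⟩, sy_br (h.gen_le hA) hx.2⟩
    have := WW_br (h.gen_le hA) hx.2
    rwa [zero_add] at this
  -- the orthogonal complement
  obtain ⟨O, hO⟩ : ∃ O : Submodule ℚ (Matrix n n ℚ), ∀ x, x ∈ O ↔ ∀ y ∈ Nw, BF G y x = 0 := by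
    refine ⟨⨅ y ∈ Nw, LinearMap.ker (BF G y), fun x => ?_⟩
    simp only [Submodule.mem_iInf, LinearMap.mem_ker]
  have hstO : ∀ A ∈ gen P Q, ∀ x ∈ O ⊓ Uw, gr wt A * x - x * gr wt A ∈ O ⊓ Uw := by
    rintro A hA x ⟨hx, hxU⟩
    refine ⟨(hO _).2 fun y hy => ?_, hstU A hA x hxU⟩
    exact BF_inv hG hGu (hsim A hA) (hUs y (hNU hy)) ((hO x).1 hx y hy)
      ((hO x).1 hx _ (hstN A hA y hy)) (hUs x hxU)
  -- non degeneracy on `Nw`
  have hgrm : gr wt (P z₀) ∈ cx ((gen P Q).map (grL wt)) := by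
    refine mem_cx_iff.2 fun φ => ?_
    rw [gr_fm]
    exact ⟨_, mem_cx_iff.1 (mem_cx_hull (Or.inl ⟨z₀, rfl⟩)) φ, rfl⟩
  have hnd : O ⊓ Nw = ⊥ := by
    refine BF_nondeg hGu hpos (w := w) (fun x hx => hUs x (hNU hx.2)) ?_
      (fun y hy x hx => (hO x).1 hx.1 y hy.2)
    intro x hx
    refine cx_br (L := (gen P Q).map (grL wt)) ?_ hgrm hx
    rintro _ ⟨A, hA, rfl⟩ y hy
    have h1 := hstO A hA y ⟨hy.1, hNU hy.2⟩
    exact ⟨h1.1, hstN A hA y hy.2⟩
  obtain ⟨r, lam, rho, j, h1, h2, h3, h4, h5, h6, h7, h8, h9, h10, h11⟩ :=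
    exists_quo hN (inf_le_left) h.gen_le h.gen_stb htg htY
      (fun A hA hgr => ⟨hA, gr_eq_zero_WW (h.gen_le hA) hgr⟩) hw hwN hwu (O ⊓ Uw) inf_le_right
      (fun x hx hxN => by
        have : x ∈ O ⊓ Nw := ⟨hx.1, hxN⟩
        rw [hnd, Submodule.mem_bot] at this
        exact this)
      (by
        intro x hx
        obtain ⟨y, hy, hy'⟩ := exists_orth (BF G) Nw (fun x hx hx' => by
          have : x ∈ O ⊓ Nw := ⟨(hO x).2 hx', hx⟩
          rw [hnd, Submodule.mem_bot] at this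
          exact this) x
        have e : x = y + (x - y) := by abel
        rw [e]
        exact Submodule.add_mem_sup hy ⟨(hO _).2 hy', Submodule.sub_mem _ hx (hNU hy)⟩)
      hstO
  refine ⟨w, r, lam, rho, j, hw0, h1, h2, h3, h4, h5, h6, h7, h8, fun v => (h9 v).2, h10, h11,
    fun y hy v => (hO _).1 (h9 v).1 _ (Submodule.mem_map_of_mem hy), fun x hx h0 => ?_, hwu⟩
  have : sy wt w x ∈ O ⊓ Nw := by
    refine ⟨(hO _).2 ?_, Submodule.mem_map_of_mem hx⟩
    rintro _ ⟨y, hy, rfl⟩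
    exact h0 y hy
  rwa [hnd, Submodule.mem_bot] at this

end ZL19
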