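import Pool.Agent.LibZL19.HC
import Pool.Agent.LibZL19.Pol
import Pool.Agent.LibZL19.Mono
import Pool.Agent.LibZQ38.WDef
import Pool.Agent.LibZQ38.B07

/-! The Lie part in terms of the definitions of `ZQ38`. -/

open Matrix Complex

set_option linter.unusedSectionVars false

namespace ZL19

variable {ι : Type} [Fintype ι] [DecidableEq ι] {wt p : ι → ℤ} {K : ℕ} {Ω : Set ℂ}
  {Φ : ℂ → Matrix ι ι ℂ} {Pg : ℂ → ℤ → Matrix ι ι ℂ} {h : ℂ → Matrix ι ι ℂ}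

/-- `opP` as a function on `Ω` -/
noncomputable def opp (K : ℕ) (Ω : Set ℂ) (Pg : ℂ → ℤ → Matrix ι ι ℂ) (h : ℂ → Matrix ι ι ℂ)
    (z : Ω) : Matrix ι ι ℂ := ZQ38.oP K (Pg z) (h z)

/-- `opQ` as a function on `Ω` -/
noncomputable def opq (wt : ι → ℤ) (K : ℕ) (Ω : Set ℂ) (Pg : ℂ → ℤ → Matrix ι ι ℂ)
    (h : ℂ → Matrix ι ι ℂ) (z : Ω) : Matrix ι ι ℂ := ZQ38.oQ wt K (Pg z) (h z)

theorem tri_iff {A : Matrix ι ι ℂ} : MW38.Tri wt A ↔ A ∈ WC wt 0 :=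
  ⟨fun h i j hij => h i j (by omega), fun h i j hij => h i j (by omega)⟩

theorem triQ_iff {A : Matrix ι ι ℚ} : MW38.Tri wt A ↔ A ∈ WW wt 0 :=
  ⟨fun h i j hij => h i j (by omega), fun h i j hij => h i j (by omega)⟩

theorem low_eq : ZQ38.Low ℚ wt = WW wt (-1) := by
  ext A
  exact ⟨fun h i j hij => h i j (by omega), fun h i j hij => h i j (by omega)⟩

theorem uu_eq (L : Submodule ℚ (Matrix ι ι ℚ)) : uu wt L = L ⊓ ZQ38.Low ℚ wt := by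
  rw [low_eq]
  rfl

theorem dwt_eq : ZQ38.Dwt wt = toC (YY wt) := by
  ext i j
  by_cases hij : i = j
  · subst hij
    simp [ZQ38.Dwt, toC, YY]
  · simp [ZQ38.Dwt, toC, YY, Matrix.diagonal_apply_ne _ hij]

theorem PG_comm {Φ₀ : Matrix ι ι ℂ} {P₀ : ℤ → Matrix ι ι ℂ} (hP : ZQ38.GrP wt p K Φ₀ P₀) :
    ZQ38.PG K P₀ * ZQ38.Dwt wt = ZQ38.Dwt wt * ZQ38.PG K P₀ := by
  ext i j
  rw [ZQ38.Dwt, Matrix.mul_diagonal, Matrix.diagonal_mul]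
  by_cases hij : wt i = wt j
  · rw [hij, mul_comm]
  · have h1 : ZQ38.PG K P₀ i j = 0 := by
      rw [ZQ38.PG, Matrix.sum_apply]
      refine Finset.sum_eq_zero fun a _ => ?_
      rw [Matrix.smul_apply, hP.diag a i j hij, smul_zero]
    rw [h1, zero_mul, mul_zero]

/-- the properties `Del` hold for Deligne's operators -/
theorem del_opp (hP : ∀ z ∈ Ω, ZQ38.GrP wt p K (Φ z) (Pg z))
    (hh : ∀ z ∈ Ω, ZQ38.DelH wt p (Φ z) (Pg z) (h z)) :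
    Del wt (opp K Ω Pg h) (opq wt K Ω Pg h) := by
  have hu : ∀ z : Ω, (h z)⁻¹ * h z = 1 := fun z =>
    Matrix.nonsing_inv_mul _ ((Matrix.isUnit_iff_isUnit_det _).1 (hh z z.2).un.isUnit)
  refine ⟨fun z => ?_, fun z => ?_, fun z => ?_, fun z => ?_⟩
  · show ZQ38.oP K (Pg z) (h z) * ZQ38.oQ wt K (Pg z) (h z) =
      ZQ38.oQ wt K (Pg z) (h z) * ZQ38.oP K (Pg z) (h z)
    have e : ∀ A B : Matrix ι ι ℂ, h z * A * (h z)⁻¹ * (h z * B * (h z)⁻¹) =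
        h z * (A * B) * (h z)⁻¹ := by
      intro A B
      calc h z * A * (h z)⁻¹ * (h z * B * (h z)⁻¹) =
          h z * A * ((h z)⁻¹ * h z) * B * (h z)⁻¹ := by simp only [mul_assoc]
        _ = _ := by rw [hu z, mul_one]; simp only [mul_assoc]
    rw [ZQ38.oP, ZQ38.oQ, e, e, mul_sub, sub_mul, PG_comm (hP z z.2)]
  · exact tri_iff.1 (ZQ38.B13_tri_oP (hP z z.2) (hh z z.2).un)
  · exact tri_iff.1 (ZQ38.B13_tri_oQ (hP z z.2) (hh z z.2).un)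
  · rw [gr_add]
    have h1 : gr wt (opp K Ω Pg h z) = ZQ38.oP K (Pg z) 1 :=
      ZQ38.B13_oP (hP z z.2) (hh z z.2).un
    have h2 : gr wt (opq wt K Ω Pg h z) = ZQ38.oQ wt K (Pg z) 1 :=
      ZQ38.B13_oQ (hP z z.2) (hh z z.2).un
    rw [h1, h2, ZQ38.oP_add_oQ, one_mul, inv_one, mul_one, dwt_eq]

theorem mt_eq_mtLie (hP : ∀ z ∈ Ω, ZQ38.GrP wt p K (Φ z) (Pg z))
    (hh : ∀ z ∈ Ω, ZQ38.DelH wt p (Φ z) (Pg z) (h z)) (z : Ω) :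
    mt (opp K Ω Pg h) (opq wt K Ω Pg h) z = ZQ38.mtLie wt p (Φ z) := by
  apply le_antisymm
  · refine hull_le ZQ38.mtLie_isLie ?_
    rintro x (rfl | rfl)
    · exact ZQ38.oP_mem (hP z z.2) (hh z z.2)
    · exact ZQ38.oQ_mem (hP z z.2) (hh z z.2)
  · exact (ZQ38.mtLie_le_iff (hP z z.2) (hh z z.2)
      (L := mt (opp K Ω Pg h) (opq wt K Ω Pg h) z) (hull_lie _)).2 ⟨P_mem_mt z, Q_mem_mt z⟩

theorem gen_eq_mtLie (hP : ∀ z ∈ Ω, ZQ38.GrP wt p K (Φ z) (Pg z))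
    (hh : ∀ z ∈ Ω, ZQ38.DelH wt p (Φ z) (Pg z) (h z)) {z₀ : ℂ} (hz₀ : z₀ ∈ Ω)
    (hmax : ∀ z ∈ Ω, ZQ38.mtLie wt p (Φ z) ≤ ZQ38.mtLie wt p (Φ z₀)) :
    gen (opp K Ω Pg h) (opq wt K Ω Pg h) = ZQ38.mtLie wt p (Φ z₀) := by
  apply le_antisymm
  · refine hull_le ZQ38.mtLie_isLie ?_
    rintro x (⟨z, rfl⟩ | ⟨z, rfl⟩)
    · exact cx_mono (hmax z z.2) (ZQ38.oP_mem (hP z z.2) (hh z z.2))
    · exact cx_mono (hmax z z.2) (ZQ38.oQ_mem (hP z z.2) (hh z z.2))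
  · rw [← mt_eq_mtLie hP hh ⟨z₀, hz₀⟩]
    exact mt_le_gen _

theorem map_gr_mtLie (hP : ∀ z ∈ Ω, ZQ38.GrP wt p K (Φ z) (Pg z))
    (hh : ∀ z ∈ Ω, ZQ38.DelH wt p (Φ z) (Pg z) (h z)) {z : ℂ} (hz : z ∈ Ω) :
    (ZQ38.mtLie wt p (Φ z)).map (grL wt) = ZQ38.mtLie wt p (MW38.dg wt (Φ z)) := by
  ext M
  rw [ZQ38.mtLie_gr (hP z hz) (hh z hz)]
  rfl

/-- Points which are special, but not special for the graded pieces: there is a maximal ideal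
modulo which the grading is rational. -/
theorem core_pt (hP : ∀ z ∈ Ω, ZQ38.GrP wt p K (Φ z) (Pg z))
    (hh : ∀ z ∈ Ω, ZQ38.DelH wt p (Φ z) (Pg z) (h z)) {z₀ : ℂ} (hz₀ : z₀ ∈ Ω)
    (hmax : ∀ z ∈ Ω, ZQ38.mtLie wt p (Φ z) ≤ ZQ38.mtLie wt p (Φ z₀)) {z : ℂ} (hz : z ∈ Ω)
    (hgr : ZQ38.mtLie wt p (MW38.dg wt (Φ z)) = ZQ38.mtLie wt p (MW38.dg wt (Φ z₀)))
    (hne : ZQ38.mtLie wt p (Φ z) ≠ ZQ38.mtLie wt p (Φ z₀)) :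
    ∃ N, MaxI (ZQ38.mtLie wt p (Φ z₀)) (ZQ38.mtLie wt p (Φ z₀) ⊓ ZQ38.Low ℚ wt) N ∧
      ∃ t ∈ ZQ38.mtLie wt p (Φ z₀), ZQ38.dgR wt t = Matrix.diagonal (fun i => (wt i : ℚ)) ∧
        t.map (algebraMap ℚ ℂ) - (ZQ38.oP K (Pg z) (h z) + ZQ38.oQ wt K (Pg z) (h z)) ∈
          ZQ38.cx N := by
  have hD := del_opp hP hh
  have hg := gen_eq_mtLie hP hh hz₀ hmax
  have h1 : (mt (opp K Ω Pg h) (opq wt K Ω Pg h) ⟨z, hz⟩).map (grL wt) =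
      (gen (opp K Ω Pg h) (opq wt K Ω Pg h)).map (grL wt) := by
    rw [hg, mt_eq_mtLie hP hh, map_gr_mtLie hP hh hz, map_gr_mtLie hP hh hz₀, hgr]
  have h2 : uu wt (mt (opp K Ω Pg h) (opq wt K Ω Pg h) ⟨z, hz⟩) ≠
      uu wt (gen (opp K Ω Pg h) (opq wt K Ω Pg h)) := by
    intro he
    apply hne
    have := hD.mt_eq h1 he
    rwa [hg, mt_eq_mtLie hP hh] at this
  obtain ⟨N, hN, hN'⟩ := hD.core h2
  have hN'' := hD.MaxI_gen h1 hN'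
  obtain ⟨t, ht, htY, ht'⟩ := hD.exists_t ⟨z, hz⟩
  rw [uu_eq, hg] at hN''
  refine ⟨N, hN'', t, ?_, htY, cx_mono hN ht'⟩
  have := mt_le_gen (P := opp K Ω Pg h) (Q := opq wt K Ω Pg h) ⟨z, hz⟩ ht
  rwa [hg] at this

/-- no flat splitting modulo a maximal ideal -/
theorem no_flat' (hP : ∀ z ∈ Ω, ZQ38.GrP wt p K (Φ z) (Pg z))
    (hh : ∀ z ∈ Ω, ZQ38.DelH wt p (Φ z) (Pg z) (h z)) {z₀ : ℂ} (hz₀ : z₀ ∈ Ω)
    (hmax : ∀ z ∈ Ω, ZQ38.mtLie wt p (Φ z) ≤ ZQ38.mtLie wt p (Φ z₀))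
    {N : Submodule ℚ (Matrix ι ι ℚ)}
    (hN : MaxI (ZQ38.mtLie wt p (Φ z₀)) (ZQ38.mtLie wt p (Φ z₀) ⊓ ZQ38.Low ℚ wt) N)
    {t : Matrix ι ι ℚ} (ht : t ∈ ZQ38.mtLie wt p (Φ z₀))
    (htY : ZQ38.dgR wt t = Matrix.diagonal (fun i => (wt i : ℚ)))
    (hflat : ∀ z ∈ Ω, t.map (algebraMap ℚ ℂ) -
      (ZQ38.oP K (Pg z) (h z) + ZQ38.oQ wt K (Pg z) (h z)) ∈ ZQ38.cx N) : False := by
  have hD := del_opp hP hh
  have hg := gen_eq_mtLie hP hh hz₀ hmax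
  rw [← hg, ← uu_eq] at hN
  rw [← hg] at ht
  exact hD.no_flat hN ht htY fun z => hflat z z.2

/-- the rational components of `lamC` -/
theorem lamC_fm {r : ℕ} (lam : Matrix ι ι ℚ →ₗ[ℚ] (Fin r → ℚ)) (φ : ℂ →ₗ[ℚ] ℚ)
    (x : Matrix ι ι ℂ) (k : Fin r) : lam (fm φ x) k = φ (ZQ38.lamC lam x k) := by
  have h1 : fm φ x = ∑ i, ∑ j, φ (x i j) • Matrix.single i j (1 : ℚ) := by
    conv_lhs => rw [Matrix.matrix_eq_sum_single (fm φ x)]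
    refine Finset.sum_congr rfl fun i _ => Finset.sum_congr rfl fun j _ => ?_
    rw [Matrix.smul_single, smul_eq_mul, mul_one]
    rfl
  rw [h1, map_sum, Finset.sum_apply, ZQ38.lamC, Finset.sum_apply, map_sum]
  refine Finset.sum_congr rfl fun i _ => ?_
  rw [map_sum, Finset.sum_apply, Finset.sum_apply, map_sum]
  refine Finset.sum_congr rfl fun j _ => ?_
  rw [map_smul, Pi.smul_apply, Pi.smul_apply, smul_eq_mul, smul_eq_mul]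
  have h2 : x i j * ((lam (Matrix.single i j 1) k : ℚ) : ℂ) =
      (lam (Matrix.single i j 1) k : ℚ) • x i j := by
    rw [Algebra.smul_def, mul_comm]
    rfl
  rw [h2, map_smul, smul_eq_mul, mul_comm]

theorem eq_zero_of_fun {c : ℂ} (h : ∀ φ : ℂ →ₗ[ℚ] ℚ, φ c = 0) : c = 0 := by
  by_contra hne
  obtain ⟨φ, hφ⟩ := exists_ne hne
  exact hφ (h φ)

/-- kernel of `lamC` -/
theorem kerC {m u N : Submodule ℚ (Matrix ι ι ℚ)} {w : ℤ} {r : ℕ}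
    {lam : Matrix ι ι ℚ →ₗ[ℚ] (Fin r → ℚ)} {rho : Matrix ι ι ℚ →ₗ[ℚ] Matrix (Fin r) (Fin r) ℚ}
    (hW : ZQ38.WD wt m u N w r lam rho) {x : Matrix ι ι ℂ} (hx : x ∈ ZQ38.cx u) :
    ZQ38.lamC lam x = 0 ↔ x ∈ ZQ38.cx N := by
  constructor
  · intro h0
    refine mem_cx_iff.2 fun φ => (hW.ker _ (mem_cx_iff.1 hx φ)).1 ?_
    ext k
    rw [lamC_fm, h0, Pi.zero_apply, map_zero, Pi.zero_apply]
  · intro h0
    ext k
    refine eq_zero_of_fun fun φ => ?_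
    rw [← lamC_fm, (hW.ker _ (mem_cx_iff.1 hx φ)).2 (mem_cx_iff.1 h0 φ), Pi.zero_apply]

end ZL19
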