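import Pool.Agent.LibZL19.CR

/-! Hodge numbers of `u` and of the quotients by maximal ideals. -/

open Matrix

set_option linter.unusedSectionVars false

namespace ZL19

variable {n : Type} [Fintype n] [DecidableEq n] {m u : Submodule ℚ (Matrix n n ℚ)}

/-- the part of type `(a, b)` of `L_ℂ`, for operators `P`, `Q` (multiplication by `p`, `q`) -/
def hE (P Q : Matrix n n ℂ) (a b : ℤ) (L : Submodule ℚ (Matrix n n ℚ)) :
    Submodule ℂ (Matrix n n ℂ) where
  carrier := {x | x ∈ cx L ∧ P * x - x * P = (a : ℂ) • x ∧ Q * x - x * Q = (b : ℂ) • x}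
  add_mem' := by
    rintro x y ⟨hx, h1, h2⟩ ⟨hy, h3, h4⟩
    refine ⟨Submodule.add_mem _ hx hy, ?_, ?_⟩
    · rw [smul_add, ← h1, ← h3, mul_add, add_mul]
      abel
    · rw [smul_add, ← h2, ← h4, mul_add, add_mul]
      abel
  zero_mem' := ⟨Submodule.zero_mem _, by simp, by simp⟩
  smul_mem' := by
    rintro c x ⟨hx, h1, h2⟩
    refine ⟨Submodule.smul_mem _ _ hx, ?_, ?_⟩
    · rw [smul_comm, ← h1, mul_smul_comm, smul_mul_assoc, smul_sub]
    · rw [smul_comm, ← h2, mul_smul_comm, smul_mul_assoc, smul_sub]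

/-- the Hodge numbers of a space of matrices -/
noncomputable def hN (P Q : Matrix n n ℂ) (a b : ℤ) (L : Submodule ℚ (Matrix n n ℚ)) : ℕ :=
  Module.finrank ℂ (hE P Q a b L)

theorem hE_mono {P Q : Matrix n n ℂ} {a b : ℤ} {L M : Submodule ℚ (Matrix n n ℚ)} (h : L ≤ M) :
    hE P Q a b L ≤ hE P Q a b M := fun _ hx => ⟨cx_mono h hx.1, hx.2⟩

section poly

variable {V E : Type} [AddCommGroup V] [Module ℂ V] [AddCommGroup E] [Module ℂ E]

theorem intertwine {T : Module.End ℂ V} {D : Module.End ℂ E} {Λ : V →ₗ[ℂ] E}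
    (h : ∀ x, Λ (T x) = D (Λ x)) (q : Polynomial ℂ) (x : V) :
    Λ (Polynomial.aeval T q x) = Polynomial.aeval D q (Λ x) := by
  have hp : ∀ (k : ℕ) (x : V), Λ ((T ^ k) x) = (D ^ k) (Λ x) := by
    intro k
    induction k with
    | zero => intro x; simp
    | succ k ih =>
      intro x
      rw [pow_succ, pow_succ, Module.End.mul_apply, Module.End.mul_apply, ih, h]
  induction q using Polynomial.induction_on' with
  | add p q hp hq => simp [map_add, LinearMap.add_apply, hp, hq]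
  | monomial k c => simp [Polynomial.aeval_monomial, Module.algebraMap_end_apply, hp]

/-- the polynomial which is `1` at `a` and vanishes at the other points of `S` -/
noncomputable def qa (S : Finset ℤ) (a : ℤ) : Polynomial ℂ :=
  ∏ c ∈ S.erase a, (Polynomial.C (((a : ℂ) - c)⁻¹) * (Polynomial.X - Polynomial.C (c : ℂ)))

theorem qa_eval (S : Finset ℤ) (a : ℤ) : (qa S a).eval (a : ℂ) = 1 := by
  rw [qa, Polynomial.eval_prod]
  refine Finset.prod_eq_one fun c hc => ?_
  have h1 : (a : ℂ) - c ≠ 0 := by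
    rw [sub_ne_zero]
    exact_mod_cast (Finset.ne_of_mem_erase hc).symm
  simp [inv_mul_cancel₀ h1]

theorem qa_eig {T : Module.End ℂ V} {S : Finset ℤ}
    (hS : Polynomial.aeval T (∏ c ∈ S, (Polynomial.X - Polynomial.C (c : ℂ))) = 0) (a : ℤ) (x : V) :
    T (Polynomial.aeval T (qa S a) x) = (a : ℂ) • Polynomial.aeval T (qa S a) x := by
  have h1 : ∃ p : Polynomial ℂ, (Polynomial.X - Polynomial.C (a : ℂ)) * qa S a =
      p * ∏ c ∈ S, (Polynomial.X - Polynomial.C (c : ℂ)) := by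
    have h2 : qa S a = (∏ c ∈ S.erase a, Polynomial.C (((a : ℂ) - c)⁻¹)) *
        ∏ c ∈ S.erase a, (Polynomial.X - Polynomial.C (c : ℂ)) := by
      rw [qa, Finset.prod_mul_distrib]
    by_cases ha : a ∈ S
    · refine ⟨∏ c ∈ S.erase a, Polynomial.C (((a : ℂ) - c)⁻¹), ?_⟩
      rw [h2, ← Finset.mul_prod_erase S _ ha]
      ring
    · refine ⟨(Polynomial.X - Polynomial.C (a : ℂ)) *
        ∏ c ∈ S.erase a, Polynomial.C (((a : ℂ) - c)⁻¹), ?_⟩
      rw [h2, Finset.erase_eq_of_notMem ha]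
      ring
  obtain ⟨p, hp⟩ := h1
  have h3 : Polynomial.aeval T ((Polynomial.X - Polynomial.C (a : ℂ)) * qa S a) = 0 := by
    rw [hp, map_mul, hS, mul_zero]
  rw [map_mul, map_sub, Polynomial.aeval_X, Polynomial.aeval_C] at h3
  have h4 := LinearMap.congr_fun h3 x
  rw [Module.End.mul_apply, LinearMap.sub_apply, Module.algebraMap_end_apply,
    LinearMap.zero_apply, sub_eq_zero] at h4
  exact h4

theorem aeval_eig {D : Module.End ℂ E} {v : E} {a : ℤ} (h : D v = (a : ℂ) • v)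
    (q : Polynomial ℂ) : Polynomial.aeval D q v = q.eval (a : ℂ) • v := by
  have hp : ∀ k : ℕ, (D ^ k) v = (a : ℂ) ^ k • v := by
    intro k
    induction k with
    | zero => simp
    | succ k ih =>
      rw [pow_succ', Module.End.mul_apply, ih, map_smul, h, smul_smul, pow_succ]
  induction q using Polynomial.induction_on' with
  | add p q hp hq => simp [map_add, LinearMap.add_apply, hp, hq, add_smul]
  | monomial k c => simp [Polynomial.aeval_monomial, Module.algebraMap_end_apply, hp, smul_smul,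
      mul_comm]

end poly

/-- `ad A` on `u_ℂ` -/
noncomputable def adu {A : Matrix n n ℂ} (h : ∀ x ∈ cx u, A * x - x * A ∈ cx u) :
    Module.End ℂ (cx u) where
  toFun := fun x => ⟨A * x.1 - x.1 * A, h x.1 x.2⟩
  map_add' := by
    intro x y
    apply Subtype.ext
    show A * (x.1 + y.1) - (x.1 + y.1) * A = (A * x.1 - x.1 * A) + (A * y.1 - y.1 * A)
    rw [mul_add, add_mul]
    abel
  map_smul' := by
    intro c x
    apply Subtype.ext
    show A * (c • x.1) - (c • x.1) * A = c • (A * x.1 - x.1 * A)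
    rw [mul_smul_comm, smul_mul_assoc, smul_sub]

/-- Chinese remainder over `ℂ` -/
theorem cr_surjC (hu : Stb m u) (hfin : {N | MaxI m u N}.Finite)
    (f : {N // MaxI m u N} → Matrix n n ℂ) (hf : ∀ N, f N ∈ cx u) :
    ∃ x ∈ cx u, ∀ N : {N // MaxI m u N}, x - f N ∈ cx N.1 := by
  classical
  have : Fintype {N // MaxI m u N} := hfin.fintype
  have h1 : ∀ (N₀ : {N // MaxI m u N}) (y : Matrix n n ℂ), y ∈ cx u → ∃ x ∈ cx u,
      x - y ∈ cx N₀.1 ∧ ∀ N : {N // MaxI m u N}, N ≠ N₀ → x ∈ cx N.1 := by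
    intro N₀ y hy
    induction hy using Submodule.span_induction with
    | mem y hy =>
      obtain ⟨Y, hY, rfl⟩ := hy
      obtain ⟨x, hx, hx'⟩ := cr_surj hu hfin (fun N => if N = N₀ then Y else 0) (fun N => by
        split_ifs
        · exact hY
        · exact u.zero_mem)
      refine ⟨toC x, toC_mem_cx hx, ?_, fun N hN => ?_⟩
      · have := hx' N₀
        rw [if_pos rfl] at this
        show toC x - toC Y ∈ cx N₀.1
        rw [← toC_sub]
        exact toC_mem_cx this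
      · have := hx' N
        rw [if_neg hN, sub_zero] at this
        exact toC_mem_cx this
    | zero => exact ⟨0, Submodule.zero_mem _, by simp, fun N _ => Submodule.zero_mem _⟩
    | add y y' _ _ h h' =>
      obtain ⟨x, hx, h1, h2⟩ := h
      obtain ⟨x', hx', h1', h2'⟩ := h'
      refine ⟨x + x', Submodule.add_mem _ hx hx', ?_, fun N hN =>
        Submodule.add_mem _ (h2 N hN) (h2' N hN)⟩
      have := Submodule.add_mem _ h1 h1'
      rwa [show x - y + (x' - y') = x + x' - (y + y') by abel] at this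
    | smul c y _ h =>
      obtain ⟨x, hx, h1, h2⟩ := h
      refine ⟨c • x, Submodule.smul_mem _ _ hx, ?_, fun N hN => Submodule.smul_mem _ _ (h2 N hN)⟩
      rw [← smul_sub]
      exact Submodule.smul_mem _ _ h1
  choose! g hg1 hg2 hg3 using fun N₀ => h1 N₀ (f N₀) (hf N₀)
  refine ⟨∑ N, g N, Submodule.sum_mem _ fun N _ => hg1 N, fun N => ?_⟩
  rw [← Finset.add_sum_erase _ _ (Finset.mem_univ N), add_sub_right_comm]
  exact Submodule.add_mem _ (hg2 N) (Submodule.sum_mem _ fun N' hN' =>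
    hg3 N' N (Finset.ne_of_mem_erase hN').symm)

/-- The Hodge numbers of the quotients by the maximal ideals. -/
theorem hN_count (hu : Stb m u) (huL : LieC u) (hfin : {N | MaxI m u N}.Finite) {P Q : Matrix n n ℂ}
    (hP : ∀ x ∈ cx u, P * x - x * P ∈ cx u) (hY : ∀ x ∈ cx u, (P + Q) * x - x * (P + Q) ∈ cx u)
    (hcomm : P * Q = Q * P) {S S' : Finset ℤ}
    (hS : Polynomial.aeval (adu hP) (∏ c ∈ S, (Polynomial.X - Polynomial.C (c : ℂ))) = 0)
    (hS' : Polynomial.aeval (adu hY) (∏ c ∈ S', (Polynomial.X - Polynomial.C (c : ℂ))) = 0)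
    (r : {N // MaxI m u N} → ℕ) (w : {N // MaxI m u N} → ℤ)
    (Λ : ∀ N : {N // MaxI m u N}, Matrix n n ℂ →ₗ[ℂ] (Fin (r N) → ℂ))
    (D : ∀ N : {N // MaxI m u N}, Module.End ℂ (Fin (r N) → ℂ))
    (hΛs : ∀ N, ∀ v, ∃ x ∈ cx u, Λ N x = v) (hΛk : ∀ N, ∀ x ∈ cx N.1, Λ N x = 0)
    (hΛP : ∀ N, ∀ x ∈ cx u, Λ N (P * x - x * P) = D N (Λ N x))
    (hΛY : ∀ N, ∀ x ∈ cx u, Λ N ((P + Q) * x - x * (P + Q)) = (w N : ℂ) • Λ N x)
    [Fintype {N // MaxI m u N}] (a b : ℤ) :
    hN P Q a b (br u u) + ∑ N, (if w N = a + b then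
      Module.finrank ℂ (LinearMap.ker (D N - (a : ℂ) • (1 : Module.End ℂ (Fin (r N) → ℂ)))) else 0)
      ≤ hN P Q a b u := by
  classical
  -- the index set
  let J := {N : {N // MaxI m u N} // w N = a + b}
  let F : ∀ N : J, Submodule ℂ (Fin (r N.1) → ℂ) := fun N =>
    LinearMap.ker (D N.1 - (a : ℂ) • (1 : Module.End ℂ (Fin (r N.1) → ℂ)))
  have hF : ∀ (N : J) (v : Fin (r N.1) → ℂ), v ∈ F N ↔ D N.1 v = (a : ℂ) • v := by
    intro N v
    rw [LinearMap.mem_ker, LinearMap.sub_apply, LinearMap.smul_apply, Module.End.one_apply,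
      sub_eq_zero]
  let Ψ : hE P Q a b u →ₗ[ℂ] (∀ N : J, F N) :=
    LinearMap.pi fun N => ((Λ N.1).comp (hE P Q a b u).subtype).codRestrict (F N) (fun x => by
      rw [hF]
      show D N.1 (Λ N.1 x.1) = (a : ℂ) • Λ N.1 x.1
      rw [← hΛP N.1 x.1 x.2.1, x.2.2.1, map_smul])
  have hΨ : ∀ (x : hE P Q a b u) (N : J), ((Ψ x N : F N) : Fin (r N.1) → ℂ) = Λ N.1 x.1 :=
    fun x N => rfl
  -- surjectivity
  have hsurj : Function.Surjective Ψ := by
    intro v
    have h1 : ∀ N : {N // MaxI m u N}, ∃ y ∈ cx u, Λ N y =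
        if hN : w N = a + b then (v ⟨N, hN⟩ : Fin (r N) → ℂ) else 0 := fun N => hΛs N _
    choose y hy hy' using h1
    obtain ⟨x, hx, hx'⟩ := cr_surjC hu hfin y hy
    have h2 : ∀ N : J, Λ N.1 x = v N := by
      intro N
      have h3 := hΛk N.1 _ (hx' N.1)
      rw [map_sub, sub_eq_zero] at h3
      rw [h3, hy' N.1, dif_pos N.2]
    set X : cx u := ⟨x, hx⟩
    set x1 := Polynomial.aeval (adu hP) (qa S a) X with hx1
    set x2 := Polynomial.aeval (adu hY) (qa S' (a + b)) x1 with hx2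
    have hcom : ∀ z, adu hP (adu hY z) = adu hY (adu hP z) := by
      intro z
      apply Subtype.ext
      show P * ((P + Q) * z.1 - z.1 * (P + Q)) - ((P + Q) * z.1 - z.1 * (P + Q)) * P =
        (P + Q) * (P * z.1 - z.1 * P) - (P * z.1 - z.1 * P) * (P + Q)
      have hc2 : P * (P + Q) = (P + Q) * P := by rw [mul_add, add_mul, hcomm]
      simp only [mul_sub, sub_mul, ← mul_assoc, hc2]
      simp only [mul_assoc, hc2]
      abel
    have e1 : adu hP x2 = (a : ℂ) • x2 := by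
      have h3 : adu hP x2 = Polynomial.aeval (adu hY) (qa S' (a + b)) (adu hP x1) := by
        rw [hx2]
        exact intertwine (T := adu hY) (D := adu hY) (Λ := adu hP) hcom _ _
      rw [h3, hx1, qa_eig hS, map_smul]
    have e3 : adu hY x2 = (((a + b : ℤ)) : ℂ) • x2 := by
      rw [hx2, qa_eig hS']
    have e2 : Q * x2.1 - x2.1 * Q = (b : ℂ) • x2.1 := by
      have h3 : (P + Q) * x2.1 - x2.1 * (P + Q) = (((a + b : ℤ)) : ℂ) • x2.1 :=
        congrArg Subtype.val e3
      have h4 : P * x2.1 - x2.1 * P = (a : ℂ) • x2.1 := congrArg Subtype.val e1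
      have h5 : Q * x2.1 - x2.1 * Q = ((P + Q) * x2.1 - x2.1 * (P + Q)) -
          (P * x2.1 - x2.1 * P) := by
        rw [add_mul, mul_add]
        abel
      rw [h5, h3, h4, ← sub_smul]
      congr 1
      push_cast
      ring
    refine ⟨⟨x2.1, x2.2, congrArg Subtype.val e1, e2⟩, ?_⟩
    funext N
    apply Subtype.ext
    rw [hΨ]
    show Λ N.1 x2.1 = v N
    have hv1 : D N.1 (v N) = (a : ℂ) • (v N : Fin (r N.1) → ℂ) := (hF N _).1 (v N).2
    have i1 : Λ N.1 x1.1 = v N := by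
      have := intertwine (T := adu hP) (D := D N.1) (Λ := (Λ N.1).comp (cx u).subtype)
        (fun z => hΛP N.1 z.1 z.2) (qa S a) X
      have h3 : Λ N.1 x1.1 = Polynomial.aeval (D N.1) (qa S a) (Λ N.1 x) := this
      rw [h3, h2 N, aeval_eig hv1, qa_eval, one_smul]
    have hv2 : ((w N.1 : ℂ) • (1 : Module.End ℂ (Fin (r N.1) → ℂ))) (v N) =
        (((a + b : ℤ)) : ℂ) • (v N : Fin (r N.1) → ℂ) := by
      rw [LinearMap.smul_apply, Module.End.one_apply, N.2]
    have := intertwine (T := adu hY) (D := (w N.1 : ℂ) • (1 : Module.End ℂ (Fin (r N.1) → ℂ)))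
      (Λ := (Λ N.1).comp (cx u).subtype) (fun z => hΛY N.1 z.1 z.2) (qa S' (a + b)) x1
    have h3 : Λ N.1 x2.1 = Polynomial.aeval
      ((w N.1 : ℂ) • (1 : Module.End ℂ (Fin (r N.1) → ℂ))) (qa S' (a + b)) (Λ N.1 x1.1) := this
    rw [h3, i1, aeval_eig hv2, qa_eval, one_smul]
  -- the kernel
  have hbr : br u u ≤ u ∧ ∀ N : J, br u u ≤ N.1.1 := by
    exact ⟨br_le.2 huL, fun N => br_le.2 fun a ha b hb => N.1.2.br a ha b hb⟩
  have hker : hN P Q a b (br u u) ≤ Module.finrank ℂ (LinearMap.ker Ψ) := by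
    let g : hE P Q a b (br u u) →ₗ[ℂ] LinearMap.ker Ψ :=
      (Submodule.inclusion (hE_mono hbr.1)).codRestrict _ (fun x => by
        rw [LinearMap.mem_ker]
        funext N
        apply Subtype.ext
        rw [hΨ]
        exact hΛk N.1 _ (cx_mono (hbr.2 N) x.2.1))
    refine LinearMap.finrank_le_finrank_of_injective (f := g) ?_
    intro x y hxy
    have h1 := congrArg (fun z : LinearMap.ker Ψ => ((z : hE P Q a b u) : Matrix n n ℂ)) hxy
    exact Subtype.ext h1
  have h1 := LinearMap.finrank_range_add_finrank_ker Ψ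
  rw [LinearMap.range_eq_top.2 hsurj, finrank_top, Module.finrank_pi_fintype] at h1
  have h2 : ∑ N, (if w N = a + b then
      Module.finrank ℂ (LinearMap.ker (D N - (a : ℂ) • (1 : Module.End ℂ (Fin (r N) → ℂ)))) else 0)
      = ∑ N : J, Module.finrank ℂ (F N) := by
    rw [← Finset.sum_filter]
    exact (Finset.sum_subtype (Finset.univ.filter fun N => w N = a + b) (by simp)
      (fun N => Module.finrank ℂ (LinearMap.ker (D N - (a : ℂ) •
        (1 : Module.End ℂ (Fin (r N) → ℂ)))))).trans rfl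
  rw [h2]
  have h3 : hN P Q a b u = Module.finrank ℂ (hE P Q a b u) := rfl
  omega

end ZL19
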