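import Pool.Agent.LibZL19.Glue
import Pool.Agent.LibZQ38.JDef

/-! The data `JD` for the maximal ideals. -/

open Matrix Complex

set_option linter.unusedSectionVars false

namespace ZL19

variable {ι : Type} [Fintype ι] [DecidableEq ι] {wt p : ι → ℤ} {K : ℕ} {Ω : Set ℂ}
  {Φ : ℂ → Matrix ι ι ℂ} {Pg : ℂ → ℤ → Matrix ι ι ℂ} {h : ℂ → Matrix ι ι ℂ} {Q : Matrix ι ι ℚ}

/-- the polarization of `Gr_w End` is definite on the eigenspaces of the grading operator `D` -/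
def PosZ (wt : ι → ℤ) (G : Matrix ι ι ℚ) (D : Matrix ι ι ℂ) : Prop :=
  ∀ (w a : ℤ) (x : Matrix ι ι ℂ), (∀ i j, wt i - wt j ≠ w → x i j = 0) → x ≠ 0 →
    D * x - x * D = (a : ℂ) • x →
    Matrix.trace (xᵀ * G.map (algebraMap ℚ ℂ) * x.map (starRingEnd ℂ) *
      (G⁻¹).map (algebraMap ℚ ℂ)) ≠ 0

theorem pos_of_posZ {G : Matrix ι ι ℚ} {Φ₀ : Matrix ι ι ℂ} {P₀ : ℤ → Matrix ι ι ℂ}
    (hP : ZQ38.GrP wt p K Φ₀ P₀) (h : PosZ wt G (ZQ38.PG K P₀)) : Pos wt G (ZQ38.PG K P₀) := by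
  intro w x a hs hx hax
  -- the eigenvalue is an integer
  have hun : ZQ38.Un wt (1 : Matrix ι ι ℂ) := (ZQ38.delH_gr hP).un
  have h1 := ZQ38.poly_all hP hun x
  have h2 : ZQ38.oP K P₀ 1 = ZQ38.PG K P₀ := by
    rw [ZQ38.oP, one_mul, inv_one, mul_one]
  rw [h2] at h1
  have h3 : ∀ q : Polynomial ℂ, Polynomial.aeval (ZQ38.adm (ZQ38.PG K P₀)) q x =
      q.eval a • x := by
    have h4 : ZQ38.adm (ZQ38.PG K P₀) x = a • x := by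
      rw [ZQ38.adm_apply]
      exact hax
    have hp : ∀ k : ℕ, ((ZQ38.adm (ZQ38.PG K P₀)) ^ k) x = a ^ k • x := by
      intro k
      induction k with
      | zero => simp
      | succ k ih =>
        rw [pow_succ', Module.End.mul_apply, ih, map_smul, h4, smul_smul, pow_succ]
    intro q
    induction q using Polynomial.induction_on' with
    | add p q hp hq => rw [map_add, LinearMap.add_apply, hp, hq, Polynomial.eval_add, add_smul]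
    | monomial k c => rw [Polynomial.aeval_monomial, Module.End.mul_apply, hp,
        Module.algebraMap_end_apply, Polynomial.eval_monomial, smul_smul]
  rw [h3, smul_eq_zero, or_iff_left hx, ZQ38.rts, Polynomial.eval_prod,
    Finset.prod_eq_zero_iff] at h1
  obtain ⟨b, -, hb⟩ := h1
  rw [Polynomial.eval_sub, Polynomial.eval_X, Polynomial.eval_C, sub_eq_zero] at hb
  rw [hb] at hax
  exact h w b x hs hx hax

theorem exists_JD (hP : ∀ z ∈ Ω, ZQ38.GrP wt p K (Φ z) (Pg z))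
    (hh : ∀ z ∈ Ω, ZQ38.DelH wt p (Φ z) (Pg z) (h z)) {z₀ : ℂ} (hz₀ : z₀ ∈ Ω)
    (hmax : ∀ z ∈ Ω, ZQ38.mtLie wt p (Φ z) ≤ ZQ38.mtLie wt p (Φ z₀))
    (hQu : IsUnit (ZQ38.dgR wt Q))
    (hsim : ∀ z ∈ Ω, (ZQ38.PG K (Pg z))ᵀ * (ZQ38.dgR wt Q).map (algebraMap ℚ ℂ) +
      (ZQ38.dgR wt Q).map (algebraMap ℚ ℂ) * ZQ38.PG K (Pg z) =
      ZQ38.Dwt wt * (ZQ38.dgR wt Q).map (algebraMap ℚ ℂ))
    (hpos : PosZ wt (ZQ38.dgR wt Q) (ZQ38.PG K (Pg z₀)))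
    {n : Submodule ℚ (Matrix ι ι ℚ)}
    (hn : MaxI (ZQ38.mtLie wt p (Φ z₀)) (ZQ38.mtLie wt p (Φ z₀) ⊓ ZQ38.Low ℚ wt) n) :
    ∃ (w : ℤ) (r : ℕ) (lam : Matrix ι ι ℚ →ₗ[ℚ] (Fin r → ℚ))
      (rho : Matrix ι ι ℚ →ₗ[ℚ] Matrix (Fin r) (Fin r) ℚ) (j : (Fin r → ℚ) →ₗ[ℚ] Matrix ι ι ℚ),
      0 < r ∧
      ZQ38.WD wt (ZQ38.mtLie wt p (Φ z₀)) (ZQ38.mtLie wt p (Φ z₀) ⊓ ZQ38.Low ℚ wt) n w r lam rho ∧
      ZQ38.JD wt Q (ZQ38.mtLie wt p (Φ z₀)) (ZQ38.mtLie wt p (Φ z₀) ⊓ ZQ38.Low ℚ wt) n w r lam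
        rho j := by
  have hD := del_opp hP hh
  have hg := gen_eq_mtLie hP hh hz₀ hmax
  rw [← hg, ← uu_eq] at hn ⊢
  set G := ZQ38.dgR wt Q with hGdef
  have hG : gr wt G = G := gr_gr Q
  have hPG : ∀ z : Ω, gr wt (opp K Ω Pg h z) = ZQ38.PG K (Pg z) := by
    intro z
    have h1 : gr wt (opp K Ω Pg h z) = ZQ38.oP K (Pg z) 1 :=
      ZQ38.B13_oP (hP z z.2) (hh z z.2).un
    rw [h1, ZQ38.oP, one_mul, inv_one, mul_one]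
  have hQG : ∀ z : Ω, gr wt (opq wt K Ω Pg h z) = ZQ38.Dwt wt - ZQ38.PG K (Pg z) := by
    intro z
    have h1 : gr wt (opq wt K Ω Pg h z) = ZQ38.oQ wt K (Pg z) 1 :=
      ZQ38.B13_oQ (hP z z.2) (hh z z.2).un
    rw [h1, ZQ38.oQ, one_mul, inv_one, mul_one]
  have hP' : ∀ z : Ω, (gr wt (opp K Ω Pg h z))ᵀ * toC G + toC G * gr wt (opp K Ω Pg h z) =
      toC (YY wt * G) := by
    intro z
    rw [hPG, toC_mul, ← dwt_eq]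
    exact hsim z z.2
  have hDG : ZQ38.Dwt wt * toC G = toC G * ZQ38.Dwt wt := by
    rw [dwt_eq, ← toC_mul, ← toC_mul, YY_comm hG]
  have hQ' : ∀ z : Ω, (gr wt (opq wt K Ω Pg h z))ᵀ * toC G + toC G * gr wt (opq wt K Ω Pg h z) =
      toC (YY wt * G) := by
    intro z
    have h1 := hP' z
    rw [hPG] at h1
    rw [hQG]
    have h2 : (ZQ38.Dwt wt)ᵀ = ZQ38.Dwt wt := by
      rw [ZQ38.Dwt, Matrix.diagonal_transpose]
    have h3 : toC (YY wt * G) = ZQ38.Dwt wt * toC G := by rw [toC_mul, ← dwt_eq]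
    rw [h3] at h1 ⊢
    have h4 : (ZQ38.PG K (Pg z))ᵀ * toC G = ZQ38.Dwt wt * toC G - toC G * ZQ38.PG K (Pg z) :=
      eq_sub_of_add_eq h1
    rw [Matrix.transpose_sub, h2, sub_mul, h4, mul_sub, ← hDG]
    abel
  have hpos' : Pos wt G (gr wt (opp K Ω Pg h ⟨z₀, hz₀⟩)) := by
    rw [hPG]
    exact pos_of_posZ (hP z₀ hz₀) hpos
  obtain ⟨w, r, lam, rho, j, h1, h2, h3, h4, h5, h6, h7, h8, h9, h10, h11, h12, h13, h14, h15⟩ :=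
    hD.quo ⟨z₀, hz₀⟩ hG hQu hP' hQ' hpos' hn
  refine ⟨w, r, lam, rho, j, h2, ⟨h3, h4, h5, h6, h7⟩, ?_⟩
  refine ⟨h9, h8, h11, ?_, ?_, ?_, ?_, ?_, h1⟩
  · intro v
    obtain ⟨x, hx, hxv⟩ := h10 v
    exact ⟨x, hx.1, hx.2, hxv⟩
  · intro v y hy hy'
    exact h13 y ⟨hy, hy'⟩ v
  · intro x hx hx'
    obtain ⟨y, hy, e⟩ := h12 x ⟨hx, hx'⟩
    exact ⟨y, hy.1, hy.2, e⟩
  · intro y hy hy' h0
    exact h14 y ⟨hy, hy'⟩ fun y₂ hy₂ => h0 y₂ hy₂.1 hy₂.2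
  · intro x hx
    obtain ⟨x₁, hx₁, x₂, hx₂, e⟩ := Submodule.mem_sup.1 (h15 hx)
    exact ⟨x₁, hx₁, x₂, hx₂.1, hx₂.2, e.symm⟩

end ZL19
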