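import Pool.Agent.LibZL19.JD
import Pool.Agent.LibZQ38.C12a
import Mathlib.Analysis.Matrix.Order

/-! The polarization of `End` for the projectors `PPg`. -/

open Matrix Complex
open MW38 (blk)

set_option linter.unusedSectionVars false

namespace ZL19

variable {ι : Type} [Fintype ι] [DecidableEq ι] {wt p : ι → ℤ} {K : ℕ}
  {Q : Matrix ι ι ℚ} {Φ₀ : Matrix ι ι ℂ} {s : Equiv.Perm ι}

open scoped ComplexOrder MatrixOrder Norms.L2Operator in
theorem posDef_factor {n : Type} [Fintype n] [DecidableEq n] {M : Matrix n n ℂ} (hM : M.PosDef) :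
    ∃ B : Matrix n n ℂ, IsUnit B ∧ M = Bᴴ * B :=
  CStarAlgebra.isStrictlyPositive_iff_eq_star_mul_self.mp hM.isStrictlyPositive

/-- the complex form of the polarization -/
noncomputable abbrev GG (wt : ι → ℤ) (Q : Matrix ι ι ℚ) : Matrix ι ι ℂ :=
  (ZQ38.dgR wt Q).map (algebraMap ℚ ℂ)

theorem GG_diag : ZQ38.BPaD wt (GG wt Q) := by
  intro i j hij
  rw [GG, Matrix.map_apply, ZQ38.dgR, if_neg hij, map_zero]

theorem GG_blk (k : ℤ) : blk wt k k (GG wt Q) =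
    SP38.cm (blk wt k k (Q.map (algebraMap ℚ ℝ))) := by
  ext i j
  show algebraMap ℚ ℂ (ZQ38.dgR wt Q i j) = ((algebraMap ℚ ℝ (Q i j) : ℝ) : ℂ)
  rw [ZQ38.dgR, if_pos (by rw [i.2, j.2])]
  simp

theorem tr_diag {A : Matrix ι ι ℂ} (h : ZQ38.BPaD wt A) : ZQ38.BPaD wt Aᵀ :=
  fun i j hij => h j i (Ne.symm hij)

/-- orthogonality of the Hodge pieces -/
theorem GG_orth (hm : MW38.MHS wt p (Q.map (algebraMap ℚ ℝ)) Φ₀)
    (hs : ∀ j, wt (s j) = wt j ∧ p (s j) = wt j - p j) (hK : ∀ j, |p j| ≤ K) (a b : ℤ) (i j : ι)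
    (hab : a + b ≠ wt i) :
    ((ZQ38.PPg wt p s Φ₀ a)ᵀ * GG wt Q * ZQ38.PPg wt p s Φ₀ b) i j = 0 := by
  have hD := ZQ38.BPa_PP_diag hs hm
  by_cases hij : wt i = wt j
  · have h1 := (ZQ38.BPa_hda hs hm (wt i) hK).orth a b hab
    have h2 : blk wt (wt i) (wt i) ((ZQ38.PPg wt p s Φ₀ a)ᵀ * GG wt Q * ZQ38.PPg wt p s Φ₀ b) =
        0 := by
      rw [MW38.blk_mul_diag (ZQ38.BPa_tri (ZQ38.BPa_mul (tr_diag (hD a)) GG_diag))
        (ZQ38.BPa_tri (hD b)), MW38.blk_mul_diag (ZQ38.BPa_tri (tr_diag (hD a)))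
        (ZQ38.BPa_tri GG_diag), GG_blk]
      exact h1
    exact congrFun (congrFun h2 ⟨i, rfl⟩) ⟨j, hij.symm⟩
  · exact ZQ38.BPa_mul (ZQ38.BPa_mul (tr_diag (hD a)) GG_diag) (hD b) i j hij

theorem hsim (hm : MW38.MHS wt p (Q.map (algebraMap ℚ ℝ)) Φ₀)
    (hs : ∀ j, wt (s j) = wt j ∧ p (s j) = wt j - p j) (hK : ∀ j, |p j| ≤ K) :
    (ZQ38.PG K (ZQ38.PPg wt p s Φ₀))ᵀ * GG wt Q + GG wt Q * ZQ38.PG K (ZQ38.PPg wt p s Φ₀) =
      ZQ38.Dwt wt * GG wt Q := by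
  have hP := ZQ38.exists_GrP hm hs hK
  set P := ZQ38.PPg wt p s Φ₀ with hPdef
  set G := GG wt Q with hGdef
  have h1 : (∑ a ∈ Finset.Icc (-(K : ℤ)) K, P a)ᵀ = 1 := by
    rw [hP.sum, Matrix.transpose_one]
  have e1 : (ZQ38.PG K P)ᵀ * G = ∑ a ∈ Finset.Icc (-(K : ℤ)) K, ∑ b ∈ Finset.Icc (-(K : ℤ)) K,
      (a : ℂ) • ((P a)ᵀ * G * P b) := by
    rw [ZQ38.PG, Matrix.transpose_sum, Finset.sum_mul]
    refine Finset.sum_congr rfl fun a _ => ?_
    rw [← Finset.smul_sum, ← Finset.mul_sum, hP.sum, mul_one, Matrix.transpose_smul,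
      smul_mul_assoc]
  have e2 : G * ZQ38.PG K P = ∑ a ∈ Finset.Icc (-(K : ℤ)) K, ∑ b ∈ Finset.Icc (-(K : ℤ)) K,
      (b : ℂ) • ((P a)ᵀ * G * P b) := by
    rw [Finset.sum_comm, ZQ38.PG, Finset.mul_sum]
    refine Finset.sum_congr rfl fun b _ => ?_
    rw [← Finset.smul_sum, ← Finset.sum_mul, ← Finset.sum_mul, ← Matrix.transpose_sum, h1,
      one_mul, mul_smul_comm]
  have e3 : ZQ38.Dwt wt * G = ∑ a ∈ Finset.Icc (-(K : ℤ)) K, ∑ b ∈ Finset.Icc (-(K : ℤ)) K,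
      ZQ38.Dwt wt * ((P a)ᵀ * G * P b) := by
    have : G = ∑ a ∈ Finset.Icc (-(K : ℤ)) K, ∑ b ∈ Finset.Icc (-(K : ℤ)) K,
        (P a)ᵀ * G * P b := by
      simp only [← Finset.mul_sum, hP.sum, mul_one]
      rw [← Finset.sum_mul, ← Matrix.transpose_sum, h1, one_mul]
    conv_lhs => rw [this]
    rw [Finset.mul_sum]
    refine Finset.sum_congr rfl fun a _ => ?_
    rw [Finset.mul_sum]
  rw [e1, e2, e3, ← Finset.sum_add_distrib]
  refine Finset.sum_congr rfl fun a _ => ?_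
  rw [← Finset.sum_add_distrib]
  refine Finset.sum_congr rfl fun b _ => ?_
  rw [← add_smul]
  ext i j
  rw [Matrix.smul_apply, ZQ38.Dwt, Matrix.diagonal_mul, smul_eq_mul]
  by_cases hab : a + b = wt i
  · rw [← hab]
    push_cast
    rfl
  · rw [GG_orth hm hs hK a b i j hab, mul_zero, mul_zero]

/-- the Weil operator -/
noncomputable def CC (wt : ι → ℤ) (K : ℕ) (P : ℤ → Matrix ι ι ℂ) : Matrix ι ι ℂ :=
  ∑ a ∈ Finset.Icc (-(K : ℤ)) K, P a * Matrix.diagonal fun i => I ^ (2 * a - wt i)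

theorem GG_factor (hm : MW38.MHS wt p (Q.map (algebraMap ℚ ℝ)) Φ₀)
    (hs : ∀ j, wt (s j) = wt j ∧ p (s j) = wt j - p j) (hK : ∀ j, |p j| ≤ K) :
    ∃ B : Matrix ι ι ℂ, IsUnit B ∧ (GG wt Q)ᵀ * CC wt K (ZQ38.PPg wt p s Φ₀) = Bᴴ * B := by
  classical
  have hD := ZQ38.BPa_PP_diag hs hm
  have h1 := fun k => posDef_factor (ZQ38.BPa_hda hs hm k hK).posDef
  choose B hB hB' using h1
  let BB : Matrix ι ι ℂ := fun i j => if h : wt i = wt j then B (wt j) ⟨i, h⟩ ⟨j, rfl⟩ else 0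
  have hBD : ZQ38.BPaD wt BB := fun i j hij => dif_neg hij
  have hBk : ∀ k, blk wt k k BB = B k := by
    intro k
    ext ⟨i, hi⟩ ⟨j, hj⟩
    subst hj
    show BB i j = _
    exact dif_pos hi
  have hCD : ZQ38.BPaD wt (CC wt K (ZQ38.PPg wt p s Φ₀)) := by
    intro i j hij
    rw [CC, Matrix.sum_apply]
    refine Finset.sum_eq_zero fun a _ => ?_
    rw [Matrix.mul_diagonal, hD a i j hij, zero_mul]
  refine ⟨BB, ZQ38.BPa_isUnit hBD fun k => by rw [hBk]; exact hB k, ?_⟩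
  have hBH : ZQ38.BPaD wt BBᴴ := by
    intro i j hij
    rw [Matrix.conjTranspose_apply, hBD j i (Ne.symm hij), star_zero]
  refine ZQ38.BPa_ext (ZQ38.BPa_mul (tr_diag GG_diag) hCD) (ZQ38.BPa_mul hBH hBD) fun k => ?_
  rw [MW38.blk_mul_diag (ZQ38.BPa_tri (tr_diag GG_diag)) (ZQ38.BPa_tri hCD),
    MW38.blk_mul_diag (ZQ38.BPa_tri hBH) (ZQ38.BPa_tri hBD)]
  have e1 : blk wt k k BBᴴ = (B k)ᴴ := by
    rw [← hBk k]
    rfl
  have e2 : blk wt k k (GG wt Q)ᵀ = (SP38.cm (blk wt k k (Q.map (algebraMap ℚ ℝ))))ᵀ := by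
    rw [← GG_blk]
    rfl
  have e3 : blk wt k k (CC wt K (ZQ38.PPg wt p s Φ₀)) =
      ∑ a ∈ Finset.Icc (-(K : ℤ)) K, (I ^ (2 * a - k)) • blk wt k k (ZQ38.PPg wt p s Φ₀ a) := by
    ext ⟨i, hi⟩ ⟨j, hj⟩
    subst hj
    show CC wt K (ZQ38.PPg wt p s Φ₀) i j = _
    rw [CC, Matrix.sum_apply, Matrix.sum_apply]
    refine Finset.sum_congr rfl fun a _ => ?_
    rw [Matrix.mul_diagonal, Matrix.smul_apply, smul_eq_mul, mul_comm]
    rfl
  rw [e1, hBk, ← hB', e2, e3, Finset.mul_sum]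
  refine Finset.sum_congr rfl fun a _ => ?_
  rw [Matrix.mul_smul]

open scoped ComplexOrder in
theorem posZ (hm : MW38.MHS wt p (Q.map (algebraMap ℚ ℝ)) Φ₀)
    (hs : ∀ j, wt (s j) = wt j ∧ p (s j) = wt j - p j) (hK : ∀ j, |p j| ≤ K) :
    PosZ wt (ZQ38.dgR wt Q) (ZQ38.PG K (ZQ38.PPg wt p s Φ₀)) := by
  intro w a x hx hx0 hax
  have hP := ZQ38.exists_GrP hm hs hK
  obtain ⟨B, hB, hBH⟩ := GG_factor (K := K) hm hs hK
  have hQu := ZQ38.Q_unit hm hs
  set P := ZQ38.PPg wt p s Φ₀ with hPdef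
  set C := CC wt K P with hC
  have hGu : IsUnit (GG wt Q) := by
    rw [Matrix.isUnit_iff_isUnit_det] at hQu ⊢
    have h1 : (GG wt Q).det = algebraMap ℚ ℂ (ZQ38.dgR wt Q).det := by
      rw [RingHom.map_det]
      rfl
    rw [h1]
    exact hQu.map _
  have hGi : (ZQ38.dgR wt Q)⁻¹.map (algebraMap ℚ ℂ) = (GG wt Q)⁻¹ := by
    symm
    apply Matrix.inv_eq_right_inv
    rw [GG, ← Matrix.map_mul, Matrix.mul_nonsing_inv _ ((Matrix.isUnit_iff_isUnit_det _).1 hQu)]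
    exact Matrix.map_one _ (map_zero _) (map_one _)
  rw [hGi]
  -- `C x = c x C`
  set c : ℂ := I ^ (2 * a - w) with hc
  have hc0 : c ≠ 0 := zpow_ne_zero _ Complex.I_ne_zero
  have hPG : ∀ b, P b * ZQ38.PG K P = (b : ℂ) • P b := by
    intro b
    rw [ZQ38.PG, Finset.mul_sum]
    by_cases hb : b ∈ Finset.Icc (-(K : ℤ)) K
    · rw [Finset.sum_eq_single_of_mem b hb]
      · rw [mul_smul_comm, hP.mul, if_pos rfl]
      · intro b' _ hne
        rw [mul_smul_comm, hP.mul, if_neg (Ne.symm hne), smul_zero]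
    · have h0 : P b = 0 := by
        apply hP.supp
        rw [Finset.mem_Icc, ← abs_le] at hb
        exact lt_of_not_ge hb
      simp [h0]
  have hGP : ∀ b, ZQ38.PG K P * P b = (b : ℂ) • P b := by
    intro b
    rw [ZQ38.PG, Finset.sum_mul]
    by_cases hb : b ∈ Finset.Icc (-(K : ℤ)) K
    · rw [Finset.sum_eq_single_of_mem b hb]
      · rw [smul_mul_assoc, hP.mul, if_pos rfl]
      · intro b' _ hne
        rw [smul_mul_assoc, hP.mul, if_neg hne, smul_zero]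
    · have h0 : P b = 0 := by
        apply hP.supp
        rw [Finset.mem_Icc, ← abs_le] at hb
        exact lt_of_not_ge hb
      simp [h0]
  have hzero : ∀ b b', b - b' ≠ a → P b * x * P b' = 0 := by
    intro b b' hbb
    have h1 : P b * (ZQ38.PG K P * x - x * ZQ38.PG K P) * P b' = (a : ℂ) • (P b * x * P b') := by
      rw [hax, mul_smul_comm, smul_mul_assoc]
    have h2 : P b * (ZQ38.PG K P * x - x * ZQ38.PG K P) * P b' =
        (b : ℂ) • (P b * x * P b') - (b' : ℂ) • (P b * x * P b') := by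
      rw [mul_sub, sub_mul, ← mul_assoc, hPG, smul_mul_assoc, smul_mul_assoc,
        mul_assoc (P b) (x * ZQ38.PG K P), mul_assoc x, hGP, mul_smul_comm, mul_smul_comm,
        ← mul_assoc]
    rw [h2, ← sub_smul, ← sub_eq_zero, ← sub_smul, smul_eq_zero] at h1
    refine h1.resolve_left ?_
    intro h3
    apply hbb
    have h4 : ((b - b' - a : ℤ) : ℂ) = 0 := by
      push_cast
      exact h3
    have h5 : b - b' - a = 0 := by exact_mod_cast h4
    omega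
  have hone : ∀ y : Matrix ι ι ℂ, y = ∑ b ∈ Finset.Icc (-(K : ℤ)) K,
      ∑ b' ∈ Finset.Icc (-(K : ℤ)) K, P b * y * P b' := by
    intro y
    simp only [← Finset.mul_sum, ← Finset.sum_mul, hP.sum, one_mul, mul_one]
  have hDx : ∀ b : ℤ, (Matrix.diagonal fun i => I ^ (2 * b - wt i)) * x =
      c • (x * Matrix.diagonal fun i => I ^ (2 * (b - a) - wt i)) := by
    intro b
    ext i j
    rw [Matrix.diagonal_mul, Matrix.smul_apply, Matrix.mul_diagonal, smul_eq_mul]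
    by_cases hij : wt i - wt j = w
    · rw [hc, mul_comm (x i j), ← mul_assoc, ← zpow_add₀ Complex.I_ne_zero]
      congr 2
      omega
    · rw [hx i j hij]
      ring
  have hPD : ∀ b b' : ℤ, P b * (Matrix.diagonal fun i => I ^ (2 * b' - wt i)) =
      (Matrix.diagonal fun i => I ^ (2 * b' - wt i)) * P b := by
    intro b b'
    ext i j
    rw [Matrix.mul_diagonal, Matrix.diagonal_mul]
    by_cases hij : wt i = wt j
    · rw [hij, mul_comm]
    · rw [hP.diag b i j hij]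
      ring
  have hCx : C * x = c • (x * C) := by
    have e1 : C * x = ∑ b ∈ Finset.Icc (-(K : ℤ)) K, ∑ b' ∈ Finset.Icc (-(K : ℤ)) K,
        c • (P b * x * P b' * Matrix.diagonal fun i => I ^ (2 * b' - wt i)) := by
      rw [hC, CC, Finset.sum_mul]
      refine Finset.sum_congr rfl fun b _ => ?_
      rw [mul_assoc, hDx, mul_smul_comm, ← Finset.smul_sum, ← mul_assoc]
      congr 1
      have e2 : ∀ b' ∈ Finset.Icc (-(K : ℤ)) K,
          P b * x * P b' * (Matrix.diagonal fun i => I ^ (2 * b' - wt i)) =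
          P b * x * P b' * (Matrix.diagonal fun i => I ^ (2 * (b - a) - wt i)) := by
        intro b' _
        by_cases hbb : b - b' = a
        · have : b - a = b' := by omega
          rw [this]
        · rw [hzero b b' hbb, zero_mul, zero_mul]
      rw [Finset.sum_congr rfl e2, ← Finset.sum_mul, ← Finset.mul_sum, hP.sum, mul_one]
    have e3 : x * C = ∑ b ∈ Finset.Icc (-(K : ℤ)) K, ∑ b' ∈ Finset.Icc (-(K : ℤ)) K,
        P b * x * P b' * Matrix.diagonal fun i => I ^ (2 * b' - wt i) := by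
      rw [Finset.sum_comm, hC, CC, Finset.mul_sum]
      refine Finset.sum_congr rfl fun b' _ => ?_
      simp only [← Finset.sum_mul]
      rw [hP.sum, one_mul, mul_assoc]
    rw [e1, e3, Finset.smul_sum]
    refine Finset.sum_congr rfl fun b _ => ?_
    rw [Finset.smul_sum]
  -- the trace
  intro h0
  have hGT : IsUnit (GG wt Q)ᵀ := by
    rw [Matrix.isUnit_iff_isUnit_det, Matrix.det_transpose, ← Matrix.isUnit_iff_isUnit_det]
    exact hGu
  have hCu : IsUnit C := by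
    have h1 : IsUnit ((GG wt Q)ᵀ * C) := by
      rw [hBH]
      refine IsUnit.mul ?_ hB
      rw [Matrix.isUnit_iff_isUnit_det, Matrix.det_conjTranspose, isUnit_iff_ne_zero]
      have h2 := (Matrix.isUnit_iff_isUnit_det B).1 hB
      rw [isUnit_iff_ne_zero] at h2
      exact star_ne_zero.2 h2
    rw [Matrix.isUnit_iff_isUnit_det, Matrix.det_mul] at h1
    exact (Matrix.isUnit_iff_isUnit_det _).2 (isUnit_of_mul_isUnit_right h1)
  have hBd := (Matrix.isUnit_iff_isUnit_det B).1 hB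
  have hCd := (Matrix.isUnit_iff_isUnit_det C).1 hCu
  have hGd := (Matrix.isUnit_iff_isUnit_det _).1 hGT
  have hGd' := (Matrix.isUnit_iff_isUnit_det _).1 hGu
  have t1 : Matrix.trace (xᵀ * GG wt Q * x.map (starRingEnd ℂ) * (GG wt Q)⁻¹) =
      Matrix.trace (((GG wt Q)ᵀ)⁻¹ * xᴴ * (GG wt Q)ᵀ * x) := by
    rw [← Matrix.trace_transpose, Matrix.transpose_mul, Matrix.transpose_mul,
      Matrix.transpose_mul, Matrix.transpose_transpose, Matrix.transpose_nonsing_inv]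
    have : (x.map (starRingEnd ℂ))ᵀ = xᴴ := rfl
    rw [this]
    simp only [mul_assoc]
  have hG1 : (GG wt Q)ᵀ = Bᴴ * B * C⁻¹ := by
    rw [← hBH, mul_assoc, Matrix.mul_nonsing_inv _ hCd, mul_one]
  have hG2 : ((GG wt Q)ᵀ)⁻¹ = C * B⁻¹ * (Bᴴ)⁻¹ := by
    rw [hG1, Matrix.mul_inv_rev, Matrix.mul_inv_rev, Matrix.nonsing_inv_nonsing_inv _ hCd,
      mul_assoc]
  have hxC : C⁻¹ * x = c⁻¹ • (x * C⁻¹) := by
    have h1 : x = c⁻¹ • (C * x * C⁻¹) := by
      rw [hCx, smul_mul_assoc, smul_smul, inv_mul_cancel₀ hc0, one_smul, mul_assoc,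
        Matrix.mul_nonsing_inv _ hCd, mul_one]
    conv_lhs => rw [h1]
    rw [mul_smul_comm, ← mul_assoc, ← mul_assoc, Matrix.nonsing_inv_mul _ hCd, one_mul]
  have t2 : Matrix.trace (((GG wt Q)ᵀ)⁻¹ * xᴴ * (GG wt Q)ᵀ * x) =
      c⁻¹ * Matrix.trace ((B * x * B⁻¹)ᴴ * (B * x * B⁻¹)) := by
    rw [hG2, hG1]
    have e1 : C * B⁻¹ * (Bᴴ)⁻¹ * xᴴ * (Bᴴ * B * C⁻¹) * x =
        C * (B⁻¹ * (Bᴴ)⁻¹ * xᴴ * Bᴴ * B) * (C⁻¹ * x) := by simp only [mul_assoc]
    rw [e1, hxC, mul_smul_comm, Matrix.trace_smul, smul_eq_mul]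
    congr 1
    have e2 : C * (B⁻¹ * (Bᴴ)⁻¹ * xᴴ * Bᴴ * B) * (x * C⁻¹) =
        C * (B⁻¹ * (Bᴴ)⁻¹ * xᴴ * Bᴴ * B * x * C⁻¹) := by simp only [mul_assoc]
    have e3 : B⁻¹ * (Bᴴ)⁻¹ * xᴴ * Bᴴ * B * x * C⁻¹ * C =
        B⁻¹ * ((Bᴴ)⁻¹ * xᴴ * Bᴴ * B * x) := by
      rw [mul_assoc _ C⁻¹ C, Matrix.nonsing_inv_mul _ hCd, mul_one]
      simp only [mul_assoc]
    rw [e2, Matrix.trace_mul_comm, e3, Matrix.trace_mul_comm, Matrix.conjTranspose_mul,
      Matrix.conjTranspose_mul, Matrix.conjTranspose_nonsing_inv]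
    simp only [mul_assoc]
  rw [t1, t2, mul_eq_zero, or_iff_right (inv_ne_zero hc0),
    Matrix.trace_conjTranspose_mul_self_eq_zero_iff] at h0
  apply hx0
  have h1 : x = B⁻¹ * (B * x * B⁻¹) * B := by
    calc x = B⁻¹ * B * x * (B⁻¹ * B) := by
          rw [Matrix.nonsing_inv_mul _ hBd, one_mul, mul_one]
      _ = _ := by simp only [mul_assoc]
  rw [h1, h0, mul_zero, zero_mul]

end ZL19
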