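import Pool.Agent.LibZL19.Core

/-! The quotient `u / N` in coordinates, as a subspace of the graded endomorphisms. -/

open Matrix

set_option linter.unusedSectionVars false

namespace ZL19

variable {n : Type} [Fintype n] [DecidableEq n] {wt : n → ℤ} {X : Type}
  {P Q : X → Matrix n n ℂ}

/-- the symbol of weight `w` -/
def sy (wt : n → ℤ) (w : ℤ) : Matrix n n ℚ →ₗ[ℚ] Matrix n n ℚ where
  toFun := fun A i j => if wt i - wt j = w then A i j else 0
  map_add' := by
    intro A B
    ext i j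
    simp only [Matrix.add_apply]
    split_ifs <;> simp
  map_smul' := by
    intro c A
    ext i j
    simp only [Matrix.smul_apply, RingHom.id_apply]
    split_ifs <;> simp

theorem sy_apply (w : ℤ) (A : Matrix n n ℚ) (i j : n) :
    sy wt w A i j = if wt i - wt j = w then A i j else 0 := rfl

theorem sy_eq_zero {w : ℤ} {A : Matrix n n ℚ} (hA : A ∈ WW wt w) (h : sy wt w A = 0) :
    A ∈ WW wt (w - 1) := by
  intro i j hij
  by_cases h1 : wt i - wt j = w
  · have := congrFun (congrFun h i) j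
    rw [sy_apply, if_pos h1] at this
    exact this
  · exact hA i j (by omega)

/-- the symbol of a commutator with a matrix which preserves the weights -/
theorem sy_br {w : ℤ} {A x : Matrix n n ℚ} (hA : A ∈ WW wt 0) (hx : x ∈ WW wt w) :
    sy wt w (A * x - x * A) = gr wt A * sy wt w x - sy wt w x * gr wt A := by
  ext i j
  rw [sy_apply, Matrix.sub_apply, Matrix.sub_apply, Matrix.mul_apply, Matrix.mul_apply,
    Matrix.mul_apply, Matrix.mul_apply]
  split_ifs with h
  · congr 1
    · refine Finset.sum_congr rfl fun k _ => ?_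
      rw [sy_apply, gr]
      rcases lt_trichotomy (wt i) (wt k) with h1 | h1 | h1
      · rw [if_neg (by omega), hx k j (by omega)]
        simp
      · rw [if_pos h1, if_pos (by omega)]
      · rw [if_neg (by omega), hA i k (by omega)]
        simp
    · refine Finset.sum_congr rfl fun k _ => ?_
      rw [sy_apply, gr]
      rcases lt_trichotomy (wt k) (wt j) with h1 | h1 | h1
      · rw [if_neg (by omega : ¬ wt k = wt j), hx i k (by omega)]
        simp
      · rw [if_pos h1, if_pos (by omega)]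
      · rw [if_neg (by omega : ¬ wt k = wt j), hA k j (by omega)]
        simp
  · symm
    rw [sub_eq_zero]
    trans (0 : ℚ)
    · refine Finset.sum_eq_zero fun k _ => ?_
      rw [sy_apply, gr]
      by_cases h1 : wt i = wt k
      · rw [if_neg (by omega : ¬ wt k - wt j = w), mul_zero]
      · rw [if_neg h1, zero_mul]
    · symm
      refine Finset.sum_eq_zero fun k _ => ?_
      rw [sy_apply, gr]
      by_cases h1 : wt k = wt j
      · rw [if_neg (by omega : ¬ wt i - wt k = w), zero_mul]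
      · rw [if_neg h1, mul_zero]

/-! ### complements -/

/-- orthogonal projection -/
theorem exists_orth {E : Type*} [AddCommGroup E] [Module ℚ E] [FiniteDimensional ℚ E]
    (B : E →ₗ[ℚ] E →ₗ[ℚ] ℚ) (N : Submodule ℚ E)
    (hN : ∀ x ∈ N, (∀ y ∈ N, B y x = 0) → x = 0) (x : E) :
    ∃ y ∈ N, ∀ y' ∈ N, B y' (x - y) = 0 := by
  let f : N →ₗ[ℚ] Module.Dual ℚ N :=
    { toFun := fun x => (B.flip (x : E)).comp N.subtype
      map_add' := by
        intro a b
        ext c
        simp
      map_smul' := by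
        intro c a
        ext d
        simp }
  have hf : Function.Injective f := by
    rw [← LinearMap.ker_eq_bot, LinearMap.ker_eq_bot']
    intro a ha
    apply Subtype.ext
    refine hN a a.2 fun y hy => ?_
    have := LinearMap.congr_fun ha ⟨y, hy⟩
    simpa [f] using this
  have hs : Function.Surjective f :=
    (LinearMap.injective_iff_surjective_of_finrank_eq_finrank
      (Subspace.dual_finrank_eq (K := ℚ) (V := N)).symm).1 hf
  obtain ⟨y, hy⟩ := hs ((B.flip x).comp N.subtype)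
  refine ⟨y, y.2, fun y' hy' => ?_⟩
  have := LinearMap.congr_fun hy ⟨y', hy'⟩
  have h1 : B y' (y : E) = B y' x := by simpa [f] using this
  rw [map_sub, h1, sub_self]

/-! ### the coordinates -/

/-- The quotient `u / N` in coordinates. -/
theorem exists_quo {m u N : Submodule ℚ (Matrix n n ℚ)} (hN : MaxI m u N) (hmu : u ≤ m)
    (hm0 : m ≤ WW wt 0) (hmu' : Stb m u) {w : ℤ}
    {t : Matrix n n ℚ} (ht : t ∈ m) (htY : gr wt t = YY wt)
    (hker : ∀ A ∈ m, gr wt A = 0 → A ∈ u)
    (hw : ∀ a ∈ u, (t * a - a * t) - (w : ℚ) • a ∈ N) (hwN : u ⊓ WW wt (w - 1) ≤ N)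
    (hwu : u ≤ N ⊔ (u ⊓ WW wt w))
    (C : Submodule ℚ (Matrix n n ℚ)) (hC : C ≤ (u ⊓ WW wt w).map (sy wt w))
    (hCN : ∀ x ∈ C, x ∈ (N ⊓ WW wt w).map (sy wt w) → x = 0)
    (hCs : (u ⊓ WW wt w).map (sy wt w) ≤ (N ⊓ WW wt w).map (sy wt w) ⊔ C)
    (hCst : ∀ A ∈ m, ∀ x ∈ C, gr wt A * x - x * gr wt A ∈ C) :
    ∃ (r : ℕ) (lam : Matrix n n ℚ →ₗ[ℚ] (Fin r → ℚ))
      (rho : Matrix n n ℚ →ₗ[ℚ] Matrix (Fin r) (Fin r) ℚ) (j : (Fin r → ℚ) →ₗ[ℚ] Matrix n n ℚ),
      0 < r ∧ (∀ v, ∃ x ∈ u, lam x = v) ∧ (∀ x ∈ u, lam x = 0 ↔ x ∈ N) ∧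
      (∀ A ∈ m, ∀ x ∈ u, lam (A * x - x * A) = rho A *ᵥ lam x) ∧ (∀ A ∈ u, rho A = 0) ∧
      (∀ A ∈ m, gr wt A = YY wt → rho A = (w : ℚ) • 1) ∧ Function.Injective j ∧
      (∀ v a b, wt a - wt b ≠ w → j v a b = 0) ∧ (∀ v, j v ∈ C) ∧
      (∀ A ∈ m, ∀ v, j (rho A *ᵥ v) = gr wt A * j v - j v * gr wt A) ∧
      ∀ x ∈ u ⊓ WW wt w, ∃ y ∈ N ⊓ WW wt w, sy wt w x - j (lam x) = sy wt w y := by
  classical
  set r := Module.finrank ℚ C with hr
  set b := Module.finBasis ℚ C with hb
  set j : (Fin r → ℚ) →ₗ[ℚ] Matrix n n ℚ := C.subtype ∘ₗ b.equivFun.symm.toLinearMap with hj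
  have hjC : ∀ v, j v ∈ C := fun v => (b.equivFun.symm v).2
  have hjinj : Function.Injective j := by
    intro v v' h
    exact b.equivFun.symm.injective (Subtype.ext h)
  have hjsurj : ∀ x ∈ C, ∃ v, j v = x := by
    intro x hx
    refine ⟨b.equivFun ⟨x, hx⟩, ?_⟩
    show ((b.equivFun.symm (b.equivFun ⟨x, hx⟩) : C) : Matrix n n ℚ) = x
    rw [LinearEquiv.symm_apply_apply]
  -- the lifts
  have hlift : ∀ k : Fin r, ∃ x ∈ u ⊓ WW wt w, sy wt w x = j (Pi.single k 1) := fun k =>
    hC (hjC _)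
  choose s0 hs0 hs0' using hlift
  set s : (Fin r → ℚ) →ₗ[ℚ] Matrix n n ℚ := Fintype.linearCombination ℚ s0 with hs
  have hs_apply : ∀ v, s v = ∑ k, v k • s0 k := fun v => Fintype.linearCombination_apply ℚ s0 v
  have hsu : ∀ v, s v ∈ u ⊓ WW wt w := by
    intro v
    rw [hs_apply]
    exact Submodule.sum_mem _ fun k _ => Submodule.smul_mem _ _ (hs0 k)
  have hv : ∀ v : Fin r → ℚ, v = ∑ k, v k • Pi.single k (1 : ℚ) := by
    intro v
    ext i
    simp [Finset.sum_apply, Pi.single_apply]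
  have hsj : ∀ v, sy wt w (s v) = j v := by
    intro v
    rw [hs_apply, map_sum]
    conv_rhs => rw [hv v, map_sum]
    refine Finset.sum_congr rfl fun k _ => ?_
    rw [map_smul, map_smul, hs0']
  have hsN : ∀ v, s v ∈ N → v = 0 := by
    intro v hvN
    apply hjinj
    rw [map_zero, ← hsj]
    refine hCN _ ?_ ⟨s v, ⟨hvN, (hsu v).2⟩, rfl⟩
    rw [hsj]
    exact hjC v
  -- lam
  obtain ⟨g, hg⟩ := (N.mkQ ∘ₗ s).exists_leftInverse_of_injective (by
    rw [LinearMap.ker_eq_bot']
    intro v hv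
    exact hsN v ((Submodule.Quotient.mk_eq_zero N).1 hv))
  set lam : Matrix n n ℚ →ₗ[ℚ] (Fin r → ℚ) := g ∘ₗ N.mkQ with hlam
  have hlamN : ∀ x ∈ N, lam x = 0 := by
    intro x hx
    show g (N.mkQ x) = 0
    rw [Submodule.mkQ_apply, (Submodule.Quotient.mk_eq_zero N).2 hx, map_zero]
  have hlams : ∀ v, lam (s v) = v := fun v => LinearMap.congr_fun hg v
  have hdec : ∀ x ∈ u, ∃ y ∈ N, x = y + s (lam x) := by
    intro x hx
    obtain ⟨y0, hy0, x2, hx2, rfl⟩ := Submodule.mem_sup.1 (hwu hx)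
    obtain ⟨_, ⟨y1, hy1, rfl⟩, c, hc, hsum⟩ :=
      Submodule.mem_sup.1 (hCs (Submodule.mem_map_of_mem (f := sy wt w) hx2))
    obtain ⟨v, rfl⟩ := hjsurj c hc
    have h1 : x2 - y1 - s v ∈ u ⊓ WW wt w :=
      Submodule.sub_mem _ (Submodule.sub_mem _ hx2 ⟨hN.le hy1.1, hy1.2⟩) (hsu v)
    have h2 : x2 - y1 - s v ∈ N := by
      refine hwN ⟨h1.1, sy_eq_zero h1.2 ?_⟩
      rw [map_sub, map_sub, hsj, ← hsum]
      abel
    have h3 : y0 + x2 = (y0 + y1 + (x2 - y1 - s v)) + s v := by abel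
    have h4 : y0 + y1 + (x2 - y1 - s v) ∈ N := N.add_mem (N.add_mem hy0 hy1.1) h2
    have h5 : lam (y0 + x2) = v := by
      rw [h3, map_add, hlamN _ h4, hlams, zero_add]
    refine ⟨_, h4, ?_⟩
    rw [h5]
    exact h3
  -- rho
  set rho : Matrix n n ℚ →ₗ[ℚ] Matrix (Fin r) (Fin r) ℚ :=
    { toFun := fun A => Matrix.of fun k l => lam (A * s (Pi.single l 1) - s (Pi.single l 1) * A) k
      map_add' := by
        intro A A'
        ext k l
        have e : (A + A') * s (Pi.single l 1) - s (Pi.single l 1) * (A + A') =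
            (A * s (Pi.single l 1) - s (Pi.single l 1) * A) +
            (A' * s (Pi.single l 1) - s (Pi.single l 1) * A') := by
          rw [add_mul, mul_add]
          abel
        simp only [Matrix.of_apply, Matrix.add_apply, e, map_add, Pi.add_apply]
      map_smul' := by
        intro c A
        ext k l
        have e : (c • A) * s (Pi.single l 1) - s (Pi.single l 1) * (c • A) =
            c • (A * s (Pi.single l 1) - s (Pi.single l 1) * A) := by
          rw [smul_mul_assoc, mul_smul_comm, smul_sub]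
        simp only [Matrix.of_apply, Matrix.smul_apply, e, map_smul, Pi.smul_apply,
          RingHom.id_apply] } with hrho
  have hrho' : ∀ A v, rho A *ᵥ v = lam (A * s v - s v * A) := by
    intro A v
    have h1 : A * s v - s v * A =
        ∑ l, v l • (A * s (Pi.single l 1) - s (Pi.single l 1) * A) := by
      conv_lhs => rw [hv v, map_sum]
      rw [Finset.mul_sum, Finset.sum_mul, ← Finset.sum_sub_distrib]
      refine Finset.sum_congr rfl fun l _ => ?_
      rw [map_smul, mul_smul_comm, smul_mul_assoc, smul_sub]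
    rw [h1, map_sum]
    ext k
    rw [Matrix.mulVec, dotProduct, Finset.sum_apply]
    refine Finset.sum_congr rfl fun l _ => ?_
    rw [map_smul, Pi.smul_apply, smul_eq_mul, mul_comm]
    rfl
  have hact : ∀ A ∈ m, ∀ x ∈ u, lam (A * x - x * A) = rho A *ᵥ lam x := by
    intro A hA x hx
    obtain ⟨y, hy, hxy⟩ := hdec x hx
    have e : A * x - x * A = (A * y - y * A) + (A * s (lam x) - s (lam x) * A) := by
      conv_lhs => rw [hxy]
      rw [mul_add, add_mul]
      abel
    rw [e, map_add, hlamN _ (hN.stb A hA y hy), zero_add, hrho']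
  have hlamw : ∀ v, lam ((w : ℚ) • s v) = (w : ℚ) • v := fun v => by rw [map_smul, hlams]
  have hext : ∀ M M' : Matrix (Fin r) (Fin r) ℚ, (∀ v, M *ᵥ v = M' *ᵥ v) → M = M' := by
    intro M M' h
    ext k l
    have := congrFun (h (Pi.single l 1)) k
    simpa using this
  refine ⟨r, lam, rho, j, ?_, fun v => ⟨s v, (hsu v).1, hlams v⟩, ?_, hact, ?_, ?_, hjinj, ?_, hjC,
    ?_, ?_⟩
  · by_contra hr0
    have hr0' : r = 0 := by omega
    apply hN.ne
    refine le_antisymm hN.le fun x hx => ?_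
    obtain ⟨y, hy, hxy⟩ := hdec x hx
    have h1 : lam x = 0 := by
      ext k
      exact absurd k.2 (by omega)
    rw [hxy, h1, map_zero, add_zero]
    exact hy
  · intro x hx
    constructor
    · intro h0
      obtain ⟨y, hy, hxy⟩ := hdec x hx
      rw [hxy, h0, map_zero, add_zero]
      exact hy
    · exact hlamN x
  · intro A hA
    apply hext
    intro v
    rw [hrho', hlamN _ (hN.br A hA _ (hsu v).1), Matrix.zero_mulVec]
  · intro A hA hAY
    apply hext
    intro v
    rw [hrho', Matrix.smul_mulVec, Matrix.one_mulVec, ← hlamw]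
    have h1 : A - t ∈ u := hker _ (m.sub_mem hA ht) (by rw [gr_sub, hAY, htY, sub_self])
    have e : A * s v - s v * A = ((A - t) * s v - s v * (A - t)) +
        ((t * s v - s v * t) - (w : ℚ) • s v) + (w : ℚ) • s v := by
      rw [sub_mul, mul_sub]
      abel
    rw [e, map_add, map_add, hlamN _ (hN.br _ h1 _ (hsu v).1), hlamN _ (hw _ (hsu v).1), zero_add,
      zero_add]
  · intro v a c hac
    have := hsj v
    rw [← this, sy_apply, if_neg hac]
  · intro A hA v
    have h1 : gr wt A * j v - j v * gr wt A ∈ C := hCst A hA _ (hjC v)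
    obtain ⟨v', hv'⟩ := hjsurj _ h1
    have h2 : A * s v - s v * A ∈ u ⊓ WW wt w := by
      refine ⟨hmu' A hA _ (hsu v).1, ?_⟩
      have := WW_br (hm0 hA) (hsu v).2
      rwa [zero_add] at this
    have h3 : (A * s v - s v * A) - s v' ∈ N := by
      refine hwN ⟨u.sub_mem h2.1 (hsu v').1, sy_eq_zero (Submodule.sub_mem _ h2.2 (hsu v').2) ?_⟩
      rw [map_sub, sy_br (hm0 hA) (hsu v).2, hsj, hsj, hv', sub_self]
    have h4 : lam (A * s v - s v * A) = v' := by
      have := hlamN _ h3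
      rw [map_sub, hlams, sub_eq_zero] at this
      exact this
    rw [hrho', h4, hv']
  · intro x hx
    obtain ⟨y, hy, hxy⟩ := hdec x hx.1
    have e : y = x - s (lam x) := eq_sub_of_add_eq hxy.symm
    refine ⟨y, ⟨hy, ?_⟩, ?_⟩
    · rw [e]
      exact Submodule.sub_mem _ hx.2 (hsu _).2
    · rw [e, map_sub, hsj]

end ZL19
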