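import Pool.Agent.LibZL19.Cx

/-! Weights, the graded part, Frattini. -/

open Matrix

set_option linter.unusedSectionVars false

namespace ZL19

variable {n : Type} [Fintype n] [DecidableEq n] {wt : n → ℤ} {l : ℤ}

/-- rational matrices which lower the weights by at least `-l` -/
def WW (wt : n → ℤ) (l : ℤ) : Submodule ℚ (Matrix n n ℚ) where
  carrier := {A | ∀ i j, l < wt i - wt j → A i j = 0}
  add_mem' := by
    intro A B hA hB i j h
    simp [hA i j h, hB i j h]
  zero_mem' := by intro i j _; rfl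
  smul_mem' := by
    intro c A hA i j h
    simp [hA i j h]

/-- complex matrices which lower the weights by at least `-l` -/
def WC (wt : n → ℤ) (l : ℤ) : Submodule ℂ (Matrix n n ℂ) where
  carrier := {A | ∀ i j, l < wt i - wt j → A i j = 0}
  add_mem' := by
    intro A B hA hB i j h
    simp [hA i j h, hB i j h]
  zero_mem' := by intro i j _; rfl
  smul_mem' := by
    intro c A hA i j h
    simp [hA i j h]

theorem exists_ne {c : ℂ} (hc : c ≠ 0) : ∃ φ : ℂ →ₗ[ℚ] ℚ, φ c ≠ 0 := by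
  obtain ⟨φ, hφ⟩ := exists_proj
  refine ⟨φ.comp (LinearMap.mulLeft ℚ c⁻¹), ?_⟩
  simp [inv_mul_cancel₀ hc, hφ]

theorem mem_cx_WW {x : Matrix n n ℂ} : x ∈ cx (WW wt l) ↔ x ∈ WC wt l := by
  rw [mem_cx_iff]
  constructor
  · intro h i j hij
    by_contra hne
    obtain ⟨φ, hφ⟩ := exists_ne hne
    exact hφ (h φ i j hij)
  · intro h φ i j hij
    show φ (x i j) = 0
    rw [h i j hij, map_zero]

theorem mem_cx_inf_WW {L : Submodule ℚ (Matrix n n ℚ)} {x : Matrix n n ℂ} :
    x ∈ cx (L ⊓ WW wt l) ↔ x ∈ cx L ∧ x ∈ WC wt l := by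
  rw [mem_cx_inf, mem_cx_WW]

theorem WW_mul {a b : ℤ} {A B : Matrix n n ℚ} (hA : A ∈ WW wt a) (hB : B ∈ WW wt b) :
    A * B ∈ WW wt (a + b) := by
  intro i j hij
  rw [Matrix.mul_apply]
  refine Finset.sum_eq_zero fun k _ => ?_
  by_cases h1 : a < wt i - wt k
  · rw [hA i k h1, zero_mul]
  · rw [hB k j (by omega), mul_zero]

theorem WC_mul {a b : ℤ} {A B : Matrix n n ℂ} (hA : A ∈ WC wt a) (hB : B ∈ WC wt b) :
    A * B ∈ WC wt (a + b) := by
  intro i j hij
  rw [Matrix.mul_apply]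
  refine Finset.sum_eq_zero fun k _ => ?_
  by_cases h1 : a < wt i - wt k
  · rw [hA i k h1, zero_mul]
  · rw [hB k j (by omega), mul_zero]

theorem WW_mono {a b : ℤ} (h : a ≤ b) : WW wt a ≤ WW wt b := fun _ hA i j hij =>
  hA i j (by omega)

theorem WC_mono {a b : ℤ} (h : a ≤ b) : WC wt a ≤ WC wt b := fun _ hA i j hij =>
  hA i j (by omega)

theorem WW_br {a b : ℤ} {A B : Matrix n n ℚ} (hA : A ∈ WW wt a) (hB : B ∈ WW wt b) :
    A * B - B * A ∈ WW wt (a + b) :=
  Submodule.sub_mem _ (WW_mul hA hB) (by rw [add_comm]; exact WW_mul hB hA)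

theorem WW_bot (wt : n → ℤ) : ∃ l : ℤ, WW wt l = ⊥ := by
  obtain ⟨B, hB⟩ : ∃ B : ℤ, ∀ i j, B < wt i - wt j := by
    refine ⟨-(∑ i, |wt i|) - (∑ i, |wt i|) - 1, fun i j => ?_⟩
    have h1 : |wt i| ≤ ∑ i, |wt i| :=
      Finset.single_le_sum (f := fun i => |wt i|) (fun _ _ => abs_nonneg _) (Finset.mem_univ i)
    have h2 : |wt j| ≤ ∑ i, |wt i| :=
      Finset.single_le_sum (f := fun i => |wt i|) (fun _ _ => abs_nonneg _) (Finset.mem_univ j)
    have h3 := neg_abs_le (wt i)
    have h4 := le_abs_self (wt j)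
    omega
  refine ⟨B, ?_⟩
  rw [eq_bot_iff]
  intro A hA
  rw [Submodule.mem_bot]
  ext i j
  exact hA i j (hB i j)

/-! ### the graded part -/

/-- the block diagonal part -/
def gr {R : Type*} [Zero R] (wt : n → ℤ) (A : Matrix n n R) : Matrix n n R :=
  fun i j => if wt i = wt j then A i j else 0

/-- `gr` as a linear map -/
def grL (wt : n → ℤ) : Matrix n n ℚ →ₗ[ℚ] Matrix n n ℚ where
  toFun := gr wt
  map_add' := by
    intro A B
    ext i j
    simp only [gr, Matrix.add_apply]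
    split_ifs <;> simp
  map_smul' := by
    intro c A
    ext i j
    simp only [gr, Matrix.smul_apply, RingHom.id_apply]
    split_ifs <;> simp

theorem grL_apply (A : Matrix n n ℚ) : grL wt A = gr wt A := rfl

theorem gr_sub {R : Type*} [Ring R] (A B : Matrix n n R) : gr wt (A - B) = gr wt A - gr wt B := by
  ext i j
  simp only [gr, Matrix.sub_apply]
  split_ifs <;> simp

theorem gr_add {R : Type*} [Ring R] (A B : Matrix n n R) : gr wt (A + B) = gr wt A + gr wt B := by
  ext i j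
  simp only [gr, Matrix.add_apply]
  split_ifs <;> simp

theorem gr_toC (A : Matrix n n ℚ) : gr wt (toC A) = toC (gr wt A) := by
  ext i j
  simp only [gr, toC, Matrix.map_apply]
  split_ifs <;> simp

theorem gr_fm (φ : ℂ →ₗ[ℚ] ℚ) (x : Matrix n n ℂ) : fm φ (gr wt x) = gr wt (fm φ x) := by
  ext i j
  simp only [gr, fm, Matrix.map_apply]
  split_ifs <;> simp

theorem gr_mul {R : Type*} [Ring R] {A B : Matrix n n R} (hA : ∀ i j, 0 < wt i - wt j → A i j = 0)
    (hB : ∀ i j, 0 < wt i - wt j → B i j = 0) : gr wt (A * B) = gr wt A * gr wt B := by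
  ext i j
  rw [Matrix.mul_apply]
  simp only [gr]
  split_ifs with h
  · rw [Matrix.mul_apply]
    refine Finset.sum_congr rfl fun k _ => ?_
    rcases lt_trichotomy (wt i) (wt k) with h1 | h1 | h1
    · rw [if_neg (by omega), hB k j (by omega)]
      simp
    · rw [if_pos h1, if_pos (by omega)]
    · rw [if_neg (by omega), hA i k (by omega)]
      simp
  · symm
    refine Finset.sum_eq_zero fun k _ => ?_
    by_cases h1 : wt i = wt k
    · rw [if_neg (by omega : ¬ wt k = wt j), mul_zero]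
    · rw [if_neg h1, zero_mul]

theorem gr_mul_WW {A B : Matrix n n ℚ} (hA : A ∈ WW wt 0) (hB : B ∈ WW wt 0) :
    gr wt (A * B) = gr wt A * gr wt B := gr_mul hA hB

theorem gr_mul_WC {A B : Matrix n n ℂ} (hA : A ∈ WC wt 0) (hB : B ∈ WC wt 0) :
    gr wt (A * B) = gr wt A * gr wt B := gr_mul hA hB

theorem gr_eq_zero_WW {A : Matrix n n ℚ} (hA : A ∈ WW wt 0) (h : gr wt A = 0) :
    A ∈ WW wt (-1) := by
  intro i j hij
  by_cases h1 : wt i = wt j
  · have := congrFun (congrFun h i) j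
    simpa [gr, h1] using this
  · exact hA i j (by omega)

theorem gr_eq_zero_WC {A : Matrix n n ℂ} (hA : A ∈ WC wt 0) (h : gr wt A = 0) :
    A ∈ WC wt (-1) := by
  intro i j hij
  by_cases h1 : wt i = wt j
  · have := congrFun (congrFun h i) j
    simpa [gr, h1] using this
  · exact hA i j (by omega)

theorem gr_of_WW {A : Matrix n n ℚ} (hA : A ∈ WW wt (-1)) : gr wt A = 0 := by
  ext i j
  simp only [gr]
  split_ifs with h
  · rw [hA i j (by omega)]
    rfl
  · rfl

/-- `gr` of a hull -/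
theorem map_gr_hull {S : Set (Matrix n n ℂ)} (hS : ∀ x ∈ S, x ∈ WC wt 0) :
    (hull S).map (grL wt) = hull (gr wt '' S) := by
  have hWl : LieC (WW wt 0) := fun A hA B hB => by
    have := WW_br hA hB
    rwa [add_zero] at this
  have h0 : hull S ≤ WW wt 0 := hull_le hWl fun x hx => mem_cx_WW.2 (hS x hx)
  have hbr : ∀ A ∈ WW wt 0, ∀ B ∈ WW wt 0, gr wt (A * B - B * A) =
      gr wt A * gr wt B - gr wt B * gr wt A := fun A hA B hB => by
    rw [gr_sub, gr_mul_WW hA hB, gr_mul_WW hB hA]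
  apply le_antisymm
  · rw [Submodule.map_le_iff_le_comap]
    have h1 : hull S ≤ (hull (gr wt '' S)).comap (grL wt) ⊓ WW wt 0 := by
      refine hull_le ?_ fun x hx => ?_
      · rintro A ⟨hA, hA0⟩ B ⟨hB, hB0⟩
        refine ⟨?_, hWl A hA0 B hB0⟩
        show gr wt (A * B - B * A) ∈ hull (gr wt '' S)
        rw [hbr A hA0 B hB0]
        exact hull_lie _ _ hA _ hB
      · rw [mem_cx_inf_WW]
        refine ⟨mem_cx_iff.2 fun φ => ?_, hS x hx⟩
        show gr wt (fm φ x) ∈ hull (gr wt '' S)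
        rw [← gr_fm]
        exact mem_cx_iff.1 (mem_cx_hull (S := gr wt '' S) (Set.mem_image_of_mem _ hx)) φ
    exact h1.trans inf_le_left
  · refine hull_le ?_ ?_
    · rintro _ ⟨A, hA, rfl⟩ _ ⟨B, hB, rfl⟩
      exact ⟨A * B - B * A, hull_lie _ _ hA _ hB, hbr A (h0 hA) B (h0 hB)⟩
    · rintro _ ⟨x, hx, rfl⟩
      refine mem_cx_iff.2 fun φ => ?_
      rw [gr_fm]
      exact ⟨fm φ x, mem_cx_iff.1 (mem_cx_hull hx) φ, rfl⟩

/-! ### Frattini -/

/-- the span of the commutators `[a, b]`, `a ∈ L`, `b ∈ M` -/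
def br (L M : Submodule ℚ (Matrix n n ℚ)) : Submodule ℚ (Matrix n n ℚ) :=
  Submodule.span ℚ {x | ∃ a ∈ L, ∃ b ∈ M, a * b - b * a = x}

theorem mem_br {L M : Submodule ℚ (Matrix n n ℚ)} {a b : Matrix n n ℚ} (ha : a ∈ L) (hb : b ∈ M) :
    a * b - b * a ∈ br L M := Submodule.subset_span ⟨a, ha, b, hb, rfl⟩

theorem br_le {L M R : Submodule ℚ (Matrix n n ℚ)} : br L M ≤ R ↔
    ∀ a ∈ L, ∀ b ∈ M, a * b - b * a ∈ R := by
  constructor
  · intro h a ha b hb
    exact h (mem_br ha hb)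
  · intro h
    refine Submodule.span_le.2 ?_
    rintro _ ⟨a, ha, b, hb, rfl⟩
    exact h a ha b hb

/-- the lower central series -/
def lcs (u : Submodule ℚ (Matrix n n ℚ)) : ℕ → Submodule ℚ (Matrix n n ℚ)
  | 0 => u
  | k + 1 => br u (lcs u k)

theorem lcs_le {u : Submodule ℚ (Matrix n n ℚ)} (hu : LieC u) (k : ℕ) : lcs u k ≤ u := by
  induction k with
  | zero => exact le_refl _
  | succ k ih => exact br_le.2 fun a ha b hb => hu a ha b (ih hb)

theorem lcs_WW {u : Submodule ℚ (Matrix n n ℚ)} (hu : u ≤ WW wt (-1)) (k : ℕ) :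
    lcs u k ≤ WW wt (-(k : ℤ) - 1) := by
  induction k with
  | zero =>
    have h0 : lcs u 0 = u := rfl
    rw [h0]
    simpa using hu
  | succ k ih =>
    refine br_le.2 fun a ha b hb => ?_
    have h1 := WW_br (hu ha) (ih hb)
    refine WW_mono ?_ h1
    push_cast
    omega

theorem jac {a b c : Matrix n n ℚ} : (a * b - b * a) * c - c * (a * b - b * a) =
    (a * (b * c - c * b) - (b * c - c * b) * a) - (b * (a * c - c * a) - (a * c - c * a) * b) := by
  simp only [mul_sub, sub_mul, mul_assoc]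
  abel

theorem lcs_br1 {u : Submodule ℚ (Matrix n n ℚ)} (k : ℕ) {x b : Matrix n n ℚ}
    (hx : x ∈ lcs u 1) (hb : b ∈ lcs u k) : x * b - b * x ∈ lcs u (k + 2) := by
  induction hx using Submodule.span_induction with
  | mem x hx =>
    obtain ⟨a, ha, c, hc, rfl⟩ := hx
    rw [jac]
    have hc' : c ∈ u := hc
    exact Submodule.sub_mem _ (mem_br ha (mem_br hc' hb)) (mem_br hc' (mem_br ha hb))
  | zero => simp
  | add x y _ _ hx hy =>
    have : (x + y) * b - b * (x + y) = (x * b - b * x) + (y * b - b * y) := by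
      rw [add_mul, mul_add]
      abel
    rw [this]
    exact Submodule.add_mem _ hx hy
  | smul c x _ hx =>
    rw [smul_mul_assoc, mul_smul_comm, ← smul_sub]
    exact Submodule.smul_mem _ _ hx

/-- a subalgebra of a nilpotent Lie algebra which generates modulo commutators is everything -/
theorem frattini {u s : Submodule ℚ (Matrix n n ℚ)} (huW : u ≤ WW wt (-1)) (hs : LieC s) (hsu : s ≤ u) (h : u ≤ s ⊔ br u u) : s = u := by
  have key : ∀ k, lcs u k ≤ (s ⊓ lcs u k) ⊔ lcs u (k + 1) := by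
    intro k
    induction k with
    | zero =>
      intro x hx
      obtain ⟨a, ha, b, hb, rfl⟩ := Submodule.mem_sup.1 (h hx)
      exact Submodule.add_mem_sup ⟨ha, hsu ha⟩ hb
    | succ k ih =>
      refine br_le.2 fun a ha b hb => ?_
      obtain ⟨a', ha', a'', ha'', rfl⟩ := Submodule.mem_sup.1 (h ha)
      obtain ⟨b', hb', b'', hb'', rfl⟩ := Submodule.mem_sup.1 (ih hb)
      have e : (a' + a'') * (b' + b'') - (b' + b'') * (a' + a'') =
          (a' * b' - b' * a') + ((a' * b'' - b'' * a') + (a'' * (b' + b'') - (b' + b'') * a'')) := by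
        simp only [mul_add, add_mul]
        abel
      rw [e]
      refine Submodule.add_mem_sup ⟨hs a' ha' b' hb'.1, mem_br (hsu ha') hb'.2⟩
        (Submodule.add_mem _ (mem_br (hsu ha') hb'') ?_)
      exact lcs_br1 k ha'' hb
  have h2 : ∀ k, u ≤ s ⊔ lcs u k := by
    intro k
    induction k with
    | zero => exact le_sup_right
    | succ k ih =>
      refine ih.trans (sup_le le_sup_left ((key k).trans ?_))
      exact sup_le (inf_le_left.trans le_sup_left) le_sup_right
  obtain ⟨l, hl⟩ := WW_bot wt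
  obtain ⟨k, hk⟩ : ∃ k : ℕ, lcs u k = ⊥ := by
    refine ⟨l.natAbs, ?_⟩
    rw [eq_bot_iff, ← hl]
    refine (lcs_WW huW _).trans (WW_mono ?_)
    have := neg_abs_le l
    omega
  refine le_antisymm hsu ?_
  have := h2 k
  rwa [hk, sup_bot_eq] at this

end ZL19
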